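import Pool.Agent.Helper43.QH.Fin

set_option autoImplicit false
set_option linter.unusedSectionVars false

/-!
# QH-14: descent of injectivity along a regular sequence
-/

open RingTheory.Sequence
open scoped Pointwise

namespace Pool.Agent.Helper43.QH

section

variable {R : Type} [CommRing R] [IsLocalRing R]

/-- Membership in a multiple of the quotient `N / r N`. -/
theorem mk_mem_quot_iff {N : Type} [AddCommGroup N] [Module R N] (r : R) (I : Ideal R) (n : N) :
    (Submodule.mkQ (r • ⊤ : Submodule R N) n) ∈ (I • ⊤ : Submodule R (QuotSMulTop r N)) ↔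
      n ∈ ((Ideal.span {r} ⊔ I) • ⊤ : Submodule R N) := by
  have h1 : (I • ⊤ : Submodule R (QuotSMulTop r N)) =
      Submodule.map (Submodule.mkQ (r • ⊤ : Submodule R N)) (I • ⊤) := by
    rw [Submodule.map_smul'', Submodule.map_top, Submodule.range_mkQ]
  rw [h1, ← Submodule.mem_comap, Submodule.comap_map_mkQ, Submodule.sup_smul,
    Submodule.ideal_span_singleton_smul]

/-- Proof. Induction on `rs` generalizing `N`, `X`, `ψ`. For `rs = []` the hypothesis says
`ψ z = 0 → z = 0`. For `r :: rs`: `r` is regular on `N` and `rs` is weakly regular on `N / r N`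
(`isWeaklyRegular_cons_iff`). Let `X' = X / r X`, `N' = N / r N` (`QuotSMulTop`),
`ψ' : X' → (E → N')` the induced map. The hypothesis holds for `ψ'`: if `ψ' [z] e ∈ (rs) N'` for
all `e` then `ψ z e ∈ (r, rs) N`, so `z ∈ (r, rs) X` and `[z] ∈ (rs) X'`. So `ψ'` is injective. If
`ψ z = 0` then `[z] = 0`, `z = r z'`, `r ψ z' = 0` so `ψ z' = 0` as `r` is regular on `N`. Hence
`ker ψ = r ker ψ` and `ker ψ = 0` by Nakayama (`X` is Noetherian, `r ∈ m`). -/
theorem injective_of_quot (rs : List R) : ∀ (E N X : Type) [AddCommGroup E] [Module R E]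
    [AddCommGroup N] [Module R N] [AddCommGroup X] [Module R X] [IsNoetherian R X]
    (ψ : X →ₗ[R] (E →ₗ[R] N)), (∀ r ∈ rs, r ∈ IsLocalRing.maximalIdeal R) →
    IsWeaklyRegular N rs →
    (∀ z, (∀ e, ψ z e ∈ (Ideal.ofList rs • ⊤ : Submodule R N)) →
      z ∈ (Ideal.ofList rs • ⊤ : Submodule R X)) → Function.Injective ψ := by
  induction rs with
  | nil =>
    intro E N X _ _ _ _ _ _ _ ψ _ _ h
    rw [← LinearMap.ker_eq_bot, LinearMap.ker_eq_bot']
    intro z hz
    have h1 : z ∈ (Ideal.ofList ([] : List R) • ⊤ : Submodule R X) := by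
      refine h z fun e => ?_
      rw [hz, LinearMap.zero_apply]
      exact zero_mem _
    rw [Ideal.ofList_nil, Submodule.bot_smul, Submodule.mem_bot] at h1
    exact h1
  | cons r rs ih =>
    intro E N X _ _ _ _ _ _ _ ψ hm hreg h
    obtain ⟨hr, hrs⟩ := (isWeaklyRegular_cons_iff N r rs).1 hreg
    -- the induced map
    let g : X →ₗ[R] (E →ₗ[R] QuotSMulTop r N) :=
      { toFun := fun z => (Submodule.mkQ (r • ⊤ : Submodule R N)).comp (ψ z)
        map_add' := fun a b => by
          rw [map_add, LinearMap.comp_add]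
        map_smul' := fun a b => by
          rw [map_smul, LinearMap.comp_smul, RingHom.id_apply] }
    have hg : (r • ⊤ : Submodule R X) ≤ LinearMap.ker g := by
      intro z hz
      rw [Submodule.mem_smul_pointwise_iff_exists] at hz
      obtain ⟨y, _, rfl⟩ := hz
      rw [LinearMap.mem_ker]
      refine LinearMap.ext fun e => ?_
      change Submodule.mkQ (r • ⊤ : Submodule R N) (ψ (r • y) e) = 0
      rw [map_smul, LinearMap.smul_apply, Submodule.mkQ_apply, Submodule.Quotient.mk_eq_zero]
      exact Submodule.smul_mem_pointwise_smul _ _ _ trivial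
    have hψ' : Function.Injective ((r • ⊤ : Submodule R X).liftQ g hg) := by
      refine ih E (QuotSMulTop r N) (QuotSMulTop r X) ((r • ⊤ : Submodule R X).liftQ g hg)
        (fun s hs => hm s (List.mem_cons_of_mem _ hs)) hrs ?_
      intro z' hz'
      obtain ⟨z, rfl⟩ := Submodule.mkQ_surjective _ z'
      rw [mk_mem_quot_iff, ← Ideal.ofList_cons]
      refine h z fun e => ?_
      have h2 := hz' e
      rw [Submodule.mkQ_apply, Submodule.liftQ_apply] at h2
      have h3 : Submodule.mkQ (r • ⊤ : Submodule R N) (ψ z e) ∈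
        (Ideal.ofList rs • ⊤ : Submodule R (QuotSMulTop r N)) := h2
      rw [mk_mem_quot_iff, ← Ideal.ofList_cons] at h3
      exact h3
    rw [← LinearMap.ker_eq_bot]
    refine Submodule.eq_bot_of_le_smul_of_le_jacobson_bot (IsLocalRing.maximalIdeal R) _
      (IsNoetherian.noetherian _) ?_ (IsLocalRing.maximalIdeal_le_jacobson _)
    intro z hz
    rw [LinearMap.mem_ker] at hz
    have h4 : Submodule.mkQ (r • ⊤ : Submodule R X) z = 0 := by
      apply hψ'
      rw [Submodule.mkQ_apply, Submodule.liftQ_apply, map_zero]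
      refine LinearMap.ext fun e => ?_
      change Submodule.mkQ (r • ⊤ : Submodule R N) (ψ z e) = 0
      rw [hz, LinearMap.zero_apply, map_zero]
    rw [Submodule.mkQ_apply, Submodule.Quotient.mk_eq_zero,
      Submodule.mem_smul_pointwise_iff_exists] at h4
    obtain ⟨y, _, rfl⟩ := h4
    have h5 : y ∈ LinearMap.ker ψ := by
      rw [LinearMap.mem_ker]
      refine LinearMap.ext fun e => ?_
      apply hr
      change r • (ψ y e) = r • ((0 : E →ₗ[R] N) e)
      rw [LinearMap.zero_apply, smul_zero, ← LinearMap.smul_apply, ← map_smul, hz,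
        LinearMap.zero_apply]
    exact Submodule.smul_mem_smul (hm r List.mem_cons_self) h5

end

end Pool.Agent.Helper43.QH
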