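import Pool.Agent.Helper43.QH.Weights

set_option autoImplicit false
set_option linter.unusedSectionVars false

/-!
# QH-19: homogeneous parameters have positive integer weight
-/

open Polynomial TensorProduct RingTheory.Sequence

namespace Pool.Agent.Helper43.QH

section

variable {k R : Type} [Field k] [CharZero k] [CommRing R] [Algebra k R] {D : Derivation k R R}
  [IsLocalRing R] [IsNoetherianRing R]

/-- A nonzero eigenvector of `D` in the maximal ideal has a positive integer eigenvalue. Proof.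
`D` maps `R` into `m` (`R = k + m`, `sub_mem_max`, and `Pos.stable`). Let `U = R x ≤ m`; on
`T = U / m U` (nonzero by Nakayama, finite dimensional) the operator `D` acts as the scalar `w`, as
`D (a x) = D(a) x + w a x`. By `wt_subquotient'` with `W = R`, `e = 1`, every eigenvalue of `D` on
`T` is `b + j`, `j ≥ 1` and `b` an eigenvalue on `R / m R`, that is `b = 0`. Take
`K = AlgebraicClosure k`, `exists_mem_wt`. -/
theorem exists_nat_of_eigenvector (ρ : R →ₐ[k] k) (hpos : Pos D) {x : R}
    (hx : x ∈ IsLocalRing.maximalIdeal R) (hx0 : x ≠ 0) {w : k} (hw : D x = w • x) :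
    ∃ n : ℕ, 0 < n ∧ w = n := by
  classical
  have hDm : ∀ a : R, D a ∈ IsLocalRing.maximalIdeal R := by
    intro a
    have h1 : D a = D (a - algebraMap k R (ρ a)) := by
      rw [map_sub, Derivation.map_algebraMap, sub_zero]
    rw [h1]
    exact hpos.stable _ (sub_mem_max ρ a)
  let U : Submodule R R := Submodule.span R {x}
  have hxU : x ∈ U := Submodule.mem_span_singleton_self x
  have hUm : U ≤ IsLocalRing.maximalIdeal R ^ 1 • ⊤ := by
    refine Submodule.span_le.2 ?_
    intro y hy
    obtain rfl : y = x := hy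
    have h1 : y • (1 : R) ∈ (IsLocalRing.maximalIdeal R ^ 1 • ⊤ : Submodule R R) :=
      Submodule.smul_mem_smul (by rw [pow_one]; exact hx) trivial
    have h3 : y • (1 : R) = y := by rw [smul_eq_mul, mul_one]
    rw [h3] at h1
    exact h1
  have hDu : ∀ a : R, D (a • x) = D a • x + w • (a • x) := by
    intro a
    rw [smul_eq_mul, Derivation.leibniz, hw, smul_eq_mul, smul_eq_mul, mul_smul_comm]
    ring
  have hUδ : ∀ u ∈ U, (D : R →ₗ[k] R) u ∈ U := by
    intro u hu
    obtain ⟨a, rfl⟩ := Submodule.mem_span_singleton.1 hu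
    change D (a • x) ∈ U
    rw [hDu]
    exact add_mem (Submodule.smul_mem _ _ hxU) (Submodule.smul_of_tower_mem _ _ hu)
  have hfin : FiniteDimensional k (U ⧸ (IsLocalRing.maximalIdeal R • ⊤ : Submodule R U)) :=
    finite_quot_max ρ
  have hnt : Nontrivial (U ⧸ (IsLocalRing.maximalIdeal R • ⊤ : Submodule R U)) := by
    rw [← not_subsingleton_iff_nontrivial, Submodule.Quotient.subsingleton_iff]
    intro h
    have h1 : (⊤ : Submodule R U) = ⊥ :=
      Submodule.eq_bot_of_le_smul_of_le_jacobson_bot (IsLocalRing.maximalIdeal R) _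
        (IsNoetherian.noetherian _) h.ge (by rw [IsLocalRing.jacobson_eq_maximalIdeal _ bot_ne_top])
    have h2 : (⟨x, hxU⟩ : U) ∈ (⊥ : Submodule R U) := h1 ▸ Submodule.mem_top
    exact hx0 (congrArg Subtype.val ((Submodule.mem_bot R).1 h2))
  let δT : (U ⧸ (IsLocalRing.maximalIdeal R • ⊤ : Submodule R U)) →ₗ[k]
      (U ⧸ (IsLocalRing.maximalIdeal R • ⊤ : Submodule R U)) := w • LinearMap.id
  have heq : ∀ u : U, (IsLocalRing.maximalIdeal R • ⊤ : Submodule R U).mkQ
      ⟨(D : R →ₗ[k] R) u, hUδ u u.2⟩ =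
      δT ((IsLocalRing.maximalIdeal R • ⊤ : Submodule R U).mkQ u) := by
    rintro ⟨u, hu⟩
    obtain ⟨a, rfl⟩ := Submodule.mem_span_singleton.1 hu
    have h1 : (⟨(D : R →ₗ[k] R) (a • x), hUδ (a • x) hu⟩ : U) =
        D a • (⟨x, hxU⟩ : U) + w • (⟨a • x, hu⟩ : U) := by
      apply Subtype.ext
      change D (a • x) = D a • x + w • (a • x)
      exact hDu a
    rw [h1, map_add]
    have h2 : (IsLocalRing.maximalIdeal R • ⊤ : Submodule R U).mkQ (D a • (⟨x, hxU⟩ : U)) = 0 := by
      rw [Submodule.mkQ_apply, Submodule.Quotient.mk_eq_zero]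
      exact Submodule.smul_mem_smul (hDm a) trivial
    rw [h2, zero_add]
    rfl
  have hfin1 : FiniteDimensional k (R ⧸ (IsLocalRing.maximalIdeal R • ⊤ : Submodule R R)) :=
    finite_quot_max ρ
  obtain ⟨a, ha⟩ := exists_mem_wt (AlgebraicClosure k) δT
  obtain ⟨b, hb, j, hj, hab⟩ := wt_subquotient' (W := R) hpos leib_D 1 U hUm hUδ
    (IsLocalRing.maximalIdeal R • ⊤ : Submodule R U).mkQ (Submodule.mkQ_surjective _) heq
    (AlgebraicClosure k) ha
  have ha1 : a = algebraMap k (AlgebraicClosure k) w := by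
    have h1 : aeval δT (X - C w) = 0 := by
      rw [map_sub, aeval_X, aeval_C]
      refine LinearMap.ext fun v => ?_
      change w • v - w • v = 0
      exact sub_self _
    have h2 := aeval_of_mem_wt (AlgebraicClosure k) h1 ha
    rw [map_sub, aeval_X, aeval_C, sub_eq_zero] at h2
    exact h2
  have hb1 : b = 0 := by
    have h1 : aeval (barOp hpos.stable (leib_D (D := D))) (X : k[X]) = 0 := by
      rw [aeval_X]
      refine LinearMap.ext fun v => ?_
      obtain ⟨v, rfl⟩ := Submodule.Quotient.mk_surjective _ v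
      rw [barOp_mk, LinearMap.zero_apply, Submodule.Quotient.mk_eq_zero]
      have h2 : D v • (1 : R) ∈ (IsLocalRing.maximalIdeal R • ⊤ : Submodule R R) :=
        Submodule.smul_mem_smul (hDm v) trivial
      have h3 : D v • (1 : R) = D v := by rw [smul_eq_mul, mul_one]
      rw [h3] at h2
      exact h2
    have h2 := aeval_of_mem_wt (AlgebraicClosure k) h1 hb
    rwa [aeval_X] at h2
  refine ⟨j, hj, ?_⟩
  apply (algebraMap k (AlgebraicClosure k)).injective
  rw [← ha1, hab, hb1, zero_add, map_natCast]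

/-- The elements of a weakly regular sequence in the maximal ideal are nonzero (each is regular on
a nonzero quotient of the ring). -/
theorem ne_zero_of_weaklyRegular (xs : List R) (hxm : ∀ x ∈ xs, x ∈ IsLocalRing.maximalIdeal R)
    (hreg : IsWeaklyRegular R xs) : ∀ x ∈ xs, x ≠ 0 := by
  intro x hx h0
  obtain ⟨i, hi, hxi⟩ := List.getElem_of_mem hx
  have h1 := hreg.regular_mod_prev i hi
  rw [hxi, h0, IsSMulRegular.zero_iff_subsingleton,
    Submodule.Quotient.subsingleton_iff] at h1
  have h2 : (Ideal.ofList (xs.take i) • ⊤ : Submodule R R) ≤ IsLocalRing.maximalIdeal R := by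
    rw [Submodule.smul_le]
    intro r hr n _
    have h3 : Ideal.ofList (xs.take i) ≤ IsLocalRing.maximalIdeal R := by
      refine Ideal.span_le.2 ?_
      intro y hy
      exact hxm y (List.mem_of_mem_take hy)
    exact Ideal.mul_mem_right _ _ (h3 hr)
  have h3 : IsLocalRing.maximalIdeal R = ⊤ := top_le_iff.1 (h1 ▸ h2)
  exact (IsLocalRing.maximalIdeal.isMaximal R).ne_top h3

/-- Combination of the two. -/
theorem exists_nat_weights (ρ : R →ₐ[k] k) (hpos : Pos D) (xs : List R)
    (hxm : ∀ x ∈ xs, x ∈ IsLocalRing.maximalIdeal R) (hreg : IsWeaklyRegular R xs)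
    (hx : ∀ x ∈ xs, ∃ w : k, D x = w • x) : ∀ x ∈ xs, ∃ w : ℕ, 0 < w ∧ D x = w • x := by
  intro x hxs
  obtain ⟨w, hw⟩ := hx x hxs
  obtain ⟨n, hn, hwn⟩ := exists_nat_of_eigenvector ρ hpos (hxm x hxs)
    (ne_zero_of_weaklyRegular xs hxm hreg x hxs) hw
  refine ⟨n, hn, ?_⟩
  rw [hw, hwn, Nat.cast_smul_eq_nsmul]

end

end Pool.Agent.Helper43.QH
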