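import Pool.Agent.Helper43.QH.Weights

set_option autoImplicit false
set_option linter.unusedSectionVars false

/-!
# QH-16: an injective map with equal characters modulo a system of parameters is bijective
-/

open Polynomial TensorProduct

namespace Pool.Agent.Helper43.QH

section

variable {k : Type} [Field k] (K : Type) [Field K] [Algebra k K]
variable {A V₁ V₂ C : Type} [AddCommGroup A] [Module k A] [FiniteDimensional k A]
  [AddCommGroup V₁] [Module k V₁] [FiniteDimensional k V₁]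
  [AddCommGroup V₂] [Module k V₂] [FiniteDimensional k V₂]
  [AddCommGroup C] [Module k C] [FiniteDimensional k C]

/-- The characters of kernel and cokernel of an equivariant map. -/
theorem ch_ker_coker {fA : A →ₗ[k] A} {f₁ : V₁ →ₗ[k] V₁} {f₂ : V₂ →ₗ[k] V₂} {fC : C →ₗ[k] C}
    (i : A →ₗ[k] V₁) (g : V₁ →ₗ[k] V₂) (p : V₂ →ₗ[k] C) (hi : Function.Injective i)
    (hp : Function.Surjective p) (hex1 : Function.Exact i g) (hex2 : Function.Exact g p)
    (h1 : ∀ u, i (fA u) = f₁ (i u)) (h2 : ∀ u, g (f₁ u) = f₂ (g u))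
    (h3 : ∀ u, p (f₂ u) = fC (p u)) : ch K f₁ + ch K fC = ch K fA + ch K f₂ := by
  have he : ∀ v ∈ LinearMap.range g, f₂ v ∈ LinearMap.range g := by
    rintro _ ⟨u, rfl⟩
    exact ⟨f₁ u, h2 u⟩
  have e1 : ch K f₁ = ch K fA + ch K (f₂.restrict he) := by
    refine ch_exact K i g.rangeRestrict hi g.surjective_rangeRestrict ?_ h1 ?_
    · rw [LinearMap.exact_iff, LinearMap.ker_rangeRestrict]
      exact LinearMap.exact_iff.1 hex1
    · intro v
      apply Subtype.ext
      exact h2 v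
  have e2 : ch K f₂ = ch K (f₂.restrict he) + ch K fC := by
    refine ch_exact K (LinearMap.range g).subtype p (Submodule.injective_subtype _) hp ?_
      (fun _ => rfl) h3
    rw [LinearMap.exact_iff, Submodule.range_subtype]
    exact LinearMap.exact_iff.1 hex2
  rw [e1, e2]
  abel

end

section

variable {k R : Type} [Field k] [CommRing R] [Algebra k R] (K : Type) [Field K] [Algebra k K]
variable {A V₁ V₂ C : Type} [AddCommGroup A] [Module k A] [Module R A] [IsScalarTower k R A]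
  [FiniteDimensional k A]
  [AddCommGroup V₁] [Module k V₁] [Module R V₁] [IsScalarTower k R V₁] [FiniteDimensional k V₁]
  [AddCommGroup V₂] [Module k V₂] [Module R V₂] [IsScalarTower k R V₂] [FiniteDimensional k V₂]
  [AddCommGroup C] [Module k C] [Module R C] [IsScalarTower k R C] [FiniteDimensional k C]

theorem ch_ker_coker' {fA : A →ₗ[k] A} {f₁ : V₁ →ₗ[k] V₁} {f₂ : V₂ →ₗ[k] V₂} {fC : C →ₗ[k] C}
    (i : A →ₗ[R] V₁) (g : V₁ →ₗ[R] V₂) (p : V₂ →ₗ[R] C) (hi : Function.Injective i)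
    (hp : Function.Surjective p) (hex1 : Function.Exact i g) (hex2 : Function.Exact g p)
    (h1 : ∀ u, i (fA u) = f₁ (i u)) (h2 : ∀ u, g (f₁ u) = f₂ (g u))
    (h3 : ∀ u, p (f₂ u) = fC (p u)) : ch K f₁ + ch K fC = ch K fA + ch K f₂ :=
  ch_ker_coker K (i.restrictScalars k) (g.restrictScalars k) (p.restrictScalars k) hi hp hex1 hex2
    h1 h2 h3

end

/-- A finite set of elements of a field of characteristic zero in which every element is another
one plus a positive integer is empty. -/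
theorem empty_of_descent {K : Type} [Field K] [CharZero K] {S : Set K} (hS : S.Finite)
    (h : ∀ a ∈ S, ∃ b ∈ S, ∃ n : ℕ, 0 < n ∧ a = b + n) : S = ∅ := by
  by_contra hne
  obtain ⟨a, ha⟩ := Set.nonempty_iff_ne_empty.2 hne
  have key : ∀ N : ℕ, ∃ b ∈ S, ∃ n : ℕ, N ≤ n ∧ a = b + n := by
    intro N
    induction N with
    | zero => exact ⟨a, ha, 0, le_rfl, by simp⟩
    | succ N ih =>
      obtain ⟨b, hb, n, hn, hab⟩ := ih
      obtain ⟨b', hb', n', hn', hbb⟩ := h b hb
      refine ⟨b', hb', n' + n, by omega, ?_⟩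
      rw [hab, hbb]
      push_cast
      ring
  have hfin : {n : ℕ | a - (n : K) ∈ S}.Finite := by
    refine Set.Finite.preimage (f := fun n : ℕ => a - (n : K)) ?_ hS
    intro n _ n' _ hnn
    have : a - (n : K) = a - (n' : K) := hnn
    have h1 : (n : K) = (n' : K) := by linear_combination -this
    exact_mod_cast h1
  obtain ⟨M, hM⟩ := hfin.bddAbove
  obtain ⟨b, hb, n, hn, hab⟩ := key (M + 1)
  have h1 : n ∈ {n : ℕ | a - (n : K) ∈ S} := by
    change a - (n : K) ∈ S
    rw [hab, add_sub_cancel_right]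
    exact hb
  have := hM h1
  omega

section

variable {k R : Type} [Field k] [CommRing R] [Algebra k R] {D : Derivation k R R}
variable {X Y : Type} [AddCommGroup X] [Module k X] [Module R X] [IsScalarTower k R X]
  [AddCommGroup Y] [Module k Y] [Module R Y] [IsScalarTower k R Y]

/-- Cayley-Hamilton for a stable submodule of finite codimension. -/
theorem aeval_charpoly_mem (L : Submodule R Y) [FiniteDimensional k (Y ⧸ L)] {δ : Y →ₗ[k] Y}
    (h : ∀ y ∈ L, δ y ∈ L) (y : Y) : aeval δ (qOp L δ h).charpoly y ∈ L := by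
  have h1 := aeval_intertwine (L.mkQ.restrictScalars k) (α := δ) (β := qOp L δ h)
    (fun a => rfl) (qOp L δ h).charpoly y
  rw [LinearMap.aeval_self_charpoly, LinearMap.zero_apply] at h1
  exact (Submodule.Quotient.mk_eq_zero _).1 h1

/-- The operator on the part of `X` mapped to `I Y`, modulo `I X`. -/
theorem stable_comap {φ : X →ₗ[R] Y} {δX : X →ₗ[k] X} {δY : Y →ₗ[k] Y}
    (hcomm : ∀ z, φ (δX z) = δY (φ z)) {U : Submodule R Y} (hU : ∀ v ∈ U, δY v ∈ U) :
    ∀ x ∈ U.comap φ, δX x ∈ U.comap φ := by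
  intro x hx
  rw [Submodule.mem_comap, hcomm]
  exact hU _ hx

theorem stable_submoduleOf {δ : Y →ₗ[k] Y} {U U' : Submodule R Y} (hU : ∀ v ∈ U, δ v ∈ U)
    (hU' : ∀ v ∈ U', δ v ∈ U') : ∀ v ∈ U'.submoduleOf U, sOp U δ hU v ∈ U'.submoduleOf U := by
  intro v hv
  exact hU' _ hv

theorem stable_map {φ : X →ₗ[R] Y} {δX : X →ₗ[k] X} {δY : Y →ₗ[k] Y}
    (hcomm : ∀ z, φ (δX z) = δY (φ z)) {U : Submodule R X} (hU : ∀ v ∈ U, δX v ∈ U) :
    ∀ x ∈ U.map φ, δY x ∈ U.map φ := by
  rintro _ ⟨x, hx, rfl⟩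
  exact ⟨δX x, hU x hx, hcomm x⟩

theorem stable_sup {δ : Y →ₗ[k] Y} {U U' : Submodule R Y} (hU : ∀ v ∈ U, δ v ∈ U)
    (hU' : ∀ v ∈ U', δ v ∈ U') : ∀ v ∈ U ⊔ U', δ v ∈ U ⊔ U' := by
  intro v hv
  obtain ⟨a, ha, b, hb, rfl⟩ := Submodule.mem_sup.1 hv
  rw [map_add]
  exact Submodule.add_mem_sup (hU a ha) (hU' b hb)

end

section

variable {k R : Type} [Field k] [CommRing R] [Algebra k R] {D : Derivation k R R}
variable {X Y : Type} [AddCommGroup X] [Module k X] [Module R X] [IsScalarTower k R X]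
  [AddCommGroup Y] [Module k Y] [Module R Y] [IsScalarTower k R Y]
variable {I : Ideal R} {δX : X →ₗ[k] X} {δY : Y →ₗ[k] Y} {φ : X →ₗ[R] Y}

/-- The part of `X` mapped to `I Y`. -/
def UA (I : Ideal R) (φ : X →ₗ[R] Y) : Submodule R X := (I • ⊤ : Submodule R Y).comap φ

/-- The kernel of `X / I X → Y / I Y`. -/
abbrev TA (I : Ideal R) (φ : X →ₗ[R] Y) : Type :=
  UA I φ ⧸ (I • ⊤ : Submodule R X).submoduleOf (UA I φ)

/-- The module `I Y / φ (I X)`. -/
abbrev WA (I : Ideal R) (φ : X →ₗ[R] Y) : Type :=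
  (I • ⊤ : Submodule R Y) ⧸ ((I • ⊤ : Submodule R X).map φ).submoduleOf (I • ⊤ : Submodule R Y)

/-- The embedding of the kernel in `X / I X`. -/
def iA (I : Ideal R) (φ : X →ₗ[R] Y) : TA I φ →ₗ[R] (X ⧸ (I • ⊤ : Submodule R X)) :=
  Submodule.mapQ _ _ (UA I φ).subtype le_rfl

theorem iA_injective : Function.Injective (iA I φ) := by
  rw [← LinearMap.ker_eq_bot, LinearMap.ker_eq_bot']
  intro m hm
  obtain ⟨x, rfl⟩ := Submodule.Quotient.mk_surjective _ m
  have h1 : (Submodule.Quotient.mk (x : X) : X ⧸ (I • ⊤ : Submodule R X)) = 0 := hm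
  rw [Submodule.Quotient.mk_eq_zero] at h1 ⊢
  exact h1

/-- The embedding of the kernel in `I Y / φ (I X)`. -/
def jA (I : Ideal R) (φ : X →ₗ[R] Y) : TA I φ →ₗ[R] WA I φ :=
  Submodule.mapQ _ _ (φ.restrict (p := UA I φ) (q := (I • ⊤ : Submodule R Y)) (fun _ hx => hx))
    (fun x hx => ⟨(x : X), hx, rfl⟩)

theorem jA_injective (hφ : Function.Injective φ) : Function.Injective (jA I φ) := by
  rw [← LinearMap.ker_eq_bot, LinearMap.ker_eq_bot']
  intro m hm
  obtain ⟨x, rfl⟩ := Submodule.Quotient.mk_surjective _ m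
  have h1 : (Submodule.Quotient.mk (⟨φ x, x.2⟩ : (I • ⊤ : Submodule R Y)) : WA I φ) = 0 := hm
  rw [Submodule.Quotient.mk_eq_zero] at h1 ⊢
  obtain ⟨x', hx', he⟩ := h1
  have h2 : x' = (x : X) := hφ he
  change (x : X) ∈ (I • ⊤ : Submodule R X)
  rw [← h2]
  exact hx'

theorem stable_UA (hI : ∀ a ∈ I, D a ∈ I) (hY : Leib D δY) (hcomm : ∀ z, φ (δX z) = δY (φ z)) :
    ∀ x ∈ UA I φ, δX x ∈ UA I φ :=
  stable_comap hcomm (stable_smul_top hI hY)

/-- The operator on the kernel. -/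
def tOpA (hI : ∀ a ∈ I, D a ∈ I) (hX : Leib D δX) (hY : Leib D δY)
    (hcomm : ∀ z, φ (δX z) = δY (φ z)) : TA I φ →ₗ[k] TA I φ :=
  qOp _ (sOp (UA I φ) δX (stable_UA hI hY hcomm))
    (stable_submoduleOf (stable_UA hI hY hcomm) (stable_smul_top hI hX))

/-- The operator on `I Y / φ (I X)`. -/
def wOpA (hI : ∀ a ∈ I, D a ∈ I) (hX : Leib D δX) (hY : Leib D δY)
    (hcomm : ∀ z, φ (δX z) = δY (φ z)) : WA I φ →ₗ[k] WA I φ :=
  qOp _ (sOp (I • ⊤ : Submodule R Y) δY (stable_smul_top hI hY))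
    (stable_submoduleOf (stable_smul_top hI hY) (stable_map hcomm (stable_smul_top hI hX)))

theorem stable_J (hI : ∀ a ∈ I, D a ∈ I) (hY : Leib D δY) (hcomm : ∀ z, φ (δX z) = δY (φ z)) :
    ∀ y ∈ LinearMap.range φ ⊔ (I • ⊤ : Submodule R Y),
      δY y ∈ LinearMap.range φ ⊔ (I • ⊤ : Submodule R Y) := by
  refine stable_sup ?_ (stable_smul_top hI hY)
  rintro _ ⟨x, rfl⟩
  exact ⟨δX x, hcomm x⟩

/-- The map `X / I X → Y / I Y`. -/
def gA (I : Ideal R) (φ : X →ₗ[R] Y) :
    (X ⧸ (I • ⊤ : Submodule R X)) →ₗ[R] (Y ⧸ (I • ⊤ : Submodule R Y)) :=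
  Submodule.mapQ (I • ⊤ : Submodule R X) (I • ⊤ : Submodule R Y) φ
    (Submodule.smul_top_le_comap_smul_top I φ)

/-- The quotient map `Y / I Y → Y / (φ X + I Y)`. -/
def pA (I : Ideal R) (φ : X →ₗ[R] Y) :
    (Y ⧸ (I • ⊤ : Submodule R Y)) →ₗ[R] (Y ⧸ (LinearMap.range φ ⊔ (I • ⊤ : Submodule R Y))) :=
  Submodule.mapQ (I • ⊤ : Submodule R Y) (LinearMap.range φ ⊔ (I • ⊤ : Submodule R Y))
    LinearMap.id (fun _ h => Submodule.mem_sup_right h)

theorem gA_mk (x : X) : gA I φ (Submodule.Quotient.mk x) = Submodule.Quotient.mk (φ x) := rfl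

theorem pA_mk (y : Y) : pA I φ (Submodule.Quotient.mk y) = Submodule.Quotient.mk y := rfl

theorem iA_mk (x : UA I φ) : iA I φ (Submodule.Quotient.mk x) = Submodule.Quotient.mk (x : X) := rfl

theorem pA_surjective : Function.Surjective (pA I φ) := by
  intro v
  obtain ⟨y, rfl⟩ := Submodule.Quotient.mk_surjective _ v
  exact ⟨Submodule.Quotient.mk y, pA_mk y⟩

theorem exact_iA_gA : Function.Exact (iA I φ) (gA I φ) := by
  intro v
  obtain ⟨x, rfl⟩ := Submodule.Quotient.mk_surjective _ v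
  rw [gA_mk, Submodule.Quotient.mk_eq_zero]
  constructor
  · intro h1
    exact ⟨Submodule.Quotient.mk ⟨x, h1⟩, iA_mk _⟩
  · rintro ⟨u, hu⟩
    obtain ⟨u, rfl⟩ := Submodule.Quotient.mk_surjective _ u
    have h2 := congrArg (gA I φ) hu
    rw [iA_mk, gA_mk, gA_mk, (Submodule.Quotient.mk_eq_zero _).2 (show φ (u : X) ∈ _ from u.2)] at h2
    exact (Submodule.Quotient.mk_eq_zero _).1 h2.symm

theorem exact_gA_pA : Function.Exact (gA I φ) (pA I φ) := by
  intro v
  obtain ⟨y, rfl⟩ := Submodule.Quotient.mk_surjective _ v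
  rw [pA_mk, Submodule.Quotient.mk_eq_zero]
  constructor
  · intro h1
    obtain ⟨a, ⟨x, rfl⟩, b, hb, rfl⟩ := Submodule.mem_sup.1 h1
    refine ⟨Submodule.Quotient.mk x, ?_⟩
    rw [gA_mk, Submodule.Quotient.mk_add, (Submodule.Quotient.mk_eq_zero _).2 hb, add_zero]
  · rintro ⟨u, hu⟩
    obtain ⟨x, rfl⟩ := Submodule.Quotient.mk_surjective _ u
    rw [gA_mk, Submodule.Quotient.eq] at hu
    have h3 : y = φ x - (φ x - y) := by abel
    rw [h3]
    exact sub_mem (Submodule.mem_sup_left ⟨x, rfl⟩) (Submodule.mem_sup_right hu)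

theorem iA_comm (hI : ∀ a ∈ I, D a ∈ I) (hX : Leib D δX) (hY : Leib D δY)
    (hcomm : ∀ z, φ (δX z) = δY (φ z)) (t : TA I φ) :
    iA I φ (tOpA hI hX hY hcomm t) = barOp hI hX (iA I φ t) := by
  obtain ⟨x, rfl⟩ := Submodule.Quotient.mk_surjective _ t
  rfl

theorem gA_comm (hI : ∀ a ∈ I, D a ∈ I) (hX : Leib D δX) (hY : Leib D δY)
    (hcomm : ∀ z, φ (δX z) = δY (φ z)) (t : X ⧸ (I • ⊤ : Submodule R X)) :
    gA I φ (barOp hI hX t) = barOp hI hY (gA I φ t) := by
  obtain ⟨x, rfl⟩ := Submodule.Quotient.mk_surjective _ t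
  rw [barOp_mk, gA_mk, gA_mk, barOp_mk, hcomm]

theorem pA_comm (hI : ∀ a ∈ I, D a ∈ I) (hY : Leib D δY)
    (hcomm : ∀ z, φ (δX z) = δY (φ z)) (t : Y ⧸ (I • ⊤ : Submodule R Y)) :
    pA I φ (barOp hI hY t) = qOp _ δY (stable_J hI hY hcomm) (pA I φ t) := by
  obtain ⟨x, rfl⟩ := Submodule.Quotient.mk_surjective _ t
  rw [barOp_mk, pA_mk, pA_mk, qOp_mk]

theorem ch_tOpA (K : Type) [Field K] [Algebra k K] (hI : ∀ a ∈ I, D a ∈ I) (hX : Leib D δX)
    (hY : Leib D δY) (hcomm : ∀ z, φ (δX z) = δY (φ z))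
    [FiniteDimensional k (X ⧸ (I • ⊤ : Submodule R X))]
    [FiniteDimensional k (Y ⧸ (I • ⊤ : Submodule R Y))] [FiniteDimensional k (TA I φ)]
    [FiniteDimensional k (Y ⧸ (LinearMap.range φ ⊔ (I • ⊤ : Submodule R Y)))] :
    ch K (barOp hI hX) + ch K (qOp _ δY (stable_J hI hY hcomm)) =
      ch K (tOpA hI hX hY hcomm) + ch K (barOp hI hY) := by
  exact ch_ker_coker' K (iA I φ) (gA I φ) (pA I φ) iA_injective pA_surjective exact_iA_gA
    exact_gA_pA (iA_comm hI hX hY hcomm) (gA_comm hI hX hY hcomm) (pA_comm hI hY hcomm)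

theorem jA_comm (hI : ∀ a ∈ I, D a ∈ I) (hX : Leib D δX) (hY : Leib D δY)
    (hcomm : ∀ z, φ (δX z) = δY (φ z)) (t : TA I φ) :
    jA I φ (tOpA hI hX hY hcomm t) = wOpA hI hX hY hcomm (jA I φ t) := by
  obtain ⟨x, rfl⟩ := Submodule.Quotient.mk_surjective _ t
  change (Submodule.Quotient.mk (⟨φ (δX x), _⟩ : (I • ⊤ : Submodule R Y)) : WA I φ) =
    Submodule.Quotient.mk (⟨δY (φ x), _⟩ : (I • ⊤ : Submodule R Y))
  congr 1
  exact Subtype.ext (hcomm x)

theorem leib_wOpA (hI : ∀ a ∈ I, D a ∈ I) (hX : Leib D δX) (hY : Leib D δY)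
    (hcomm : ∀ z, φ (δX z) = δY (φ z)) : Leib D (wOpA hI hX hY hcomm) :=
  leib_qOp (leib_sOp hY)

/-- If `Q` maps `I Y` to `φ (I X) + m I Y` then it maps `I Y / φ (I X)` to its multiple by `m`. -/
theorem aeval_wOpA (m : Ideal R) (hI : ∀ a ∈ I, D a ∈ I) (hX : Leib D δX) (hY : Leib D δY)
    (hcomm : ∀ z, φ (δX z) = δY (φ z)) (Q : k[X])
    (hQ : ∀ u ∈ (I • ⊤ : Submodule R Y), aeval δY Q u ∈
      ((I • ⊤ : Submodule R X).map φ ⊔ m • (I • ⊤ : Submodule R Y))) (w : WA I φ) :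
    aeval (wOpA hI hX hY hcomm) Q w ∈ (m • ⊤ : Submodule R (WA I φ)) := by
  obtain ⟨u, rfl⟩ := Submodule.Quotient.mk_surjective _ w
  have h1 := aeval_intertwine ((Submodule.mkQ (((I • ⊤ : Submodule R X).map φ).submoduleOf
    (I • ⊤ : Submodule R Y))).restrictScalars k)
    (α := sOp (I • ⊤ : Submodule R Y) δY (stable_smul_top hI hY))
    (β := wOpA hI hX hY hcomm) (fun a => rfl) Q u
  have h2 := aeval_intertwine ((I • ⊤ : Submodule R Y).subtype.restrictScalars k)
    (α := sOp (I • ⊤ : Submodule R Y) δY (stable_smul_top hI hY)) (β := δY) (fun a => rfl) Q u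
  change ((aeval (sOp (I • ⊤ : Submodule R Y) δY (stable_smul_top hI hY)) Q u :
    (I • ⊤ : Submodule R Y)) : Y) = aeval δY Q u at h2
  have h3 := hQ u u.2
  rw [← h2] at h3
  obtain ⟨a, ha, b, hb, hab⟩ := Submodule.mem_sup.1 h3
  have hb' : b ∈ (I • ⊤ : Submodule R Y) := Submodule.smul_le_right hb
  have ha' : a ∈ (I • ⊤ : Submodule R Y) := by
    have h4 : a = (aeval (sOp (I • ⊤ : Submodule R Y) δY (stable_smul_top hI hY)) Q u : Y) - b := by
      rw [← hab]
      abel
    rw [h4]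
    exact sub_mem (Subtype.coe_prop _) hb'
  have h5 : aeval (sOp (I • ⊤ : Submodule R Y) δY (stable_smul_top hI hY)) Q u =
      ⟨a, ha'⟩ + ⟨b, hb'⟩ := Subtype.ext hab.symm
  have h6 : (⟨b, hb'⟩ : (I • ⊤ : Submodule R Y)) ∈
      (m • ⊤ : Submodule R (I • ⊤ : Submodule R Y)) :=
    (Submodule.mem_smul_top_iff _ _ _).2 hb
  change Submodule.Quotient.mk (aeval (sOp (I • ⊤ : Submodule R Y) δY (stable_smul_top hI hY)) Q u)
    = aeval (wOpA hI hX hY hcomm) Q (Submodule.Quotient.mk u) at h1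
  rw [← h1, h5, Submodule.Quotient.mk_add, (Submodule.Quotient.mk_eq_zero _).2 (by exact ha),
    zero_add]
  have h7 := Submodule.mem_map_of_mem (f := Submodule.mkQ
    (((I • ⊤ : Submodule R X).map φ).submoduleOf (I • ⊤ : Submodule R Y))) h6
  have h8 := Submodule.map_smul'' m (⊤ : Submodule R (I • ⊤ : Submodule R Y)) (Submodule.mkQ
    (((I • ⊤ : Submodule R X).map φ).submoduleOf (I • ⊤ : Submodule R Y)))
  rw [h8] at h7
  exact Submodule.smul_mono le_rfl le_top h7

end

section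

variable {k R : Type} [Field k] [CommRing R] [Algebra k R] {D : Derivation k R R}
  [IsLocalRing R] [IsNoetherianRing R]
variable {W : Type} [AddCommGroup W] [Module k W] [Module R W] [IsScalarTower k R W]
  {δ : W →ₗ[k] W}

/-- Eigenvalues on finite dimensional stable submodules. -/
theorem wt_of_embedding (hpos : Pos D) [Module.Finite R W] (hδ : Leib D δ) {P : k[X]} (hP : P ≠ 0)
    (hPm : ∀ w, aeval δ P w ∈ (IsLocalRing.maximalIdeal R • ⊤ : Submodule R W))
    {T : Type} [AddCommGroup T] [Module k T] [Module R T] [IsScalarTower k R T]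
    [FiniteDimensional k T] {δT : T →ₗ[k] T} (i : T →ₗ[R] W) (hi : Function.Injective i)
    (hc : ∀ t, i (δT t) = δ (i t)) (K : Type) [Field K] [Algebra k K] {a : K}
    (ha : a ∈ wt K δT) : ∃ (b : K) (j : ℕ), aeval b P = 0 ∧ a = b + j := by
  have hUδ : ∀ u ∈ LinearMap.range i, δ u ∈ LinearMap.range i := by
    rintro _ ⟨t, rfl⟩
    exact ⟨_, hc t⟩
  obtain ⟨b, j, -, hb, hab⟩ := wt_subquotient (δ := δ) hpos hδ hP hPm 0 (LinearMap.range i) (by
    rw [pow_zero, Ideal.one_eq_top, Submodule.top_smul]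
    exact le_top) hUδ (δT := δT) (LinearEquiv.ofInjective i hi).symm.toLinearMap
    (LinearEquiv.ofInjective i hi).symm.surjective (by
      rintro ⟨_, t, rfl⟩
      have h1 : (LinearEquiv.ofInjective i hi) t = ⟨i t, ⟨t, rfl⟩⟩ := rfl
      have h2 : (LinearEquiv.ofInjective i hi) (δT t) = ⟨δ (i t), hUδ _ ⟨t, rfl⟩⟩ :=
        Subtype.ext (hc t)
      rw [LinearEquiv.coe_coe, ← h1, LinearEquiv.symm_apply_apply]
      exact (LinearEquiv.symm_apply_eq _).2 h2.symm) K ha
  exact ⟨b, j, hb, hab⟩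

end

section

variable {k R : Type} [Field k] [CommRing R] [Algebra k R]
variable {V W : Type} [AddCommGroup V] [Module k V] [Module R V] [IsScalarTower k R V]
  [AddCommGroup W] [Module k W] [Module R W] [IsScalarTower k R W]

theorem fin_of_surj [FiniteDimensional k V] (p : V →ₗ[R] W) (hp : Function.Surjective p) :
    FiniteDimensional k W :=
  Module.Finite.of_surjective (p.restrictScalars k) hp

theorem fin_of_inj [FiniteDimensional k W] (p : V →ₗ[R] W) (hp : Function.Injective p) :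
    FiniteDimensional k V :=
  Module.Finite.of_injective (p.restrictScalars k) hp

theorem wt_of_surj (K : Type) [Field K] [Algebra k K] [FiniteDimensional k V]
    [FiniteDimensional k W] {fV : V →ₗ[k] V} {fW : W →ₗ[k] W} (p : V →ₗ[R] W)
    (hp : Function.Surjective p) (h2 : ∀ v, p (fV v) = fW (p v)) {a : K} (ha : a ∈ wt K fW) :
    a ∈ wt K fV :=
  wt_of_surjective K (p.restrictScalars k) hp h2 ha

end

section

variable {k R : Type} [Field k] [CharZero k] [CommRing R] [Algebra k R] {D : Derivation k R R}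
  [IsLocalRing R] [IsNoetherianRing R]
variable {X Y : Type} [AddCommGroup X] [Module k X] [Module R X] [IsScalarTower k R X]
  [AddCommGroup Y] [Module k Y] [Module R Y] [IsScalarTower k R Y]

/-- Proof. Let `I = (xs)`, `C = Y / φ(X)`. (1) `0 → A → X / I X → Y / I Y → C / I C → 0` is exact,
`A = φ⁻¹(I Y) / I X`, so by `ch_exact` (twice) and `hch`, `ch A = ch (C / I C)`. (2) Let
`W = I Y / φ(I X)` (a subquotient of `Y`, finitely generated over the Noetherian ring), with the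
induced operator; `A` embeds into `W` equivariantly (`φ` is injective). (3) Let `P` be the
characteristic polynomial of the operator on `C / m C = Y / (m Y + φ X)`; by Cayley-Hamilton
`P(δY) Y ⊆ m Y + φ(X)`. Let `P' = ∏_(x ∈ xs) P(T - w_x)` (`shift_smul` with `U = Y`,
`U' = m Y + φ(X)`; `Ideal.ofList xs` is the span of the range of `xs.get`); so
`P'(δY) (I Y) ⊆ I m Y + I φ(X)`, that is `P'` maps `W` into `m W`. By `wt_subquotient` (for `W`,
`e = 0`) every eigenvalue on `A` is a root of `P'` plus a natural number, so (`root_shift`) it is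
an eigenvalue on `C / m C` plus a positive integer. (4) The eigenvalues on `C / m C` are
eigenvalues on `C / I C` (quotient, as `I ≤ m`), so on `A`. So each element of the finite set
`wt (C / m C)` is another element plus a positive integer: in characteristic zero the set is
empty, so `C / m C = 0` (`exists_mem_wt`) and `C = 0` by Nakayama. -/
theorem surjective_of_ch_eq (K : Type) [Field K] [Algebra k K] [IsAlgClosed K] (ρ : R →ₐ[k] k)
    (hpos : Pos D) (xs : List R) (hxm : ∀ x ∈ xs, x ∈ IsLocalRing.maximalIdeal R)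
    (hx : ∀ x ∈ xs, ∃ w : ℕ, 0 < w ∧ D x = w • x)
    (hI : ∀ a ∈ Ideal.ofList xs, D a ∈ Ideal.ofList xs)
    [Module.Finite R X] [Module.Finite R Y] {δX : X →ₗ[k] X} (hX : Leib D δX) {δY : Y →ₗ[k] Y}
    (hY : Leib D δY) (φ : X →ₗ[R] Y) (hφ : Function.Injective φ)
    (hcomm : ∀ z, φ (δX z) = δY (φ z))
    [FiniteDimensional k (X ⧸ (Ideal.ofList xs • ⊤ : Submodule R X))]
    [FiniteDimensional k (Y ⧸ (Ideal.ofList xs • ⊤ : Submodule R Y))]
    (hch : ch K (barOp hI hX) = ch K (barOp hI hY)) : Function.Surjective φ := by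
  classical
  have hm := hpos.stable
  have hspan : Ideal.span (Set.range xs.get) = Ideal.ofList xs := by
    rw [Set.range_list_get]
  have hIm : Ideal.ofList xs ≤ IsLocalRing.maximalIdeal R :=
    Ideal.span_le.2 (fun x hx' => hxm x hx')
  have hJ := stable_J hI hY hcomm
  have hL := stable_J hm hY hcomm
  have f1 : FiniteDimensional k (Y ⧸ (IsLocalRing.maximalIdeal R • ⊤ : Submodule R Y)) :=
    finite_quot_max ρ
  have f2 : FiniteDimensional k (Y ⧸ (LinearMap.range φ ⊔
      (IsLocalRing.maximalIdeal R • ⊤ : Submodule R Y))) :=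
    fin_of_surj (pA (IsLocalRing.maximalIdeal R) φ) pA_surjective
  have f3 : FiniteDimensional k (Y ⧸ (LinearMap.range φ ⊔
      (Ideal.ofList xs • ⊤ : Submodule R Y))) :=
    fin_of_surj (pA (Ideal.ofList xs) φ) pA_surjective
  have f4 : FiniteDimensional k (TA (Ideal.ofList xs) φ) :=
    fin_of_inj (iA (Ideal.ofList xs) φ) iA_injective
  have hT : ch K (qOp _ δY hJ) = ch K (tOpA hI hX hY hcomm) := by
    have h1 := ch_tOpA K hI hX hY hcomm
    rw [hch, add_comm] at h1
    exact add_right_cancel h1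
  obtain ⟨P, hPdef⟩ : ∃ P, P = (qOp _ δY hL).charpoly := ⟨_, rfl⟩
  have hP0 : P ≠ 0 := by
    rw [hPdef]
    exact (LinearMap.charpoly_monic _).ne_zero
  have hPL : ∀ u ∈ (⊤ : Submodule R Y), aeval δY P u ∈
      (LinearMap.range φ ⊔ (IsLocalRing.maximalIdeal R • ⊤ : Submodule R Y)) := by
    intro u _
    rw [hPdef]
    exact aeval_charpoly_mem _ hL u
  choose c hc0 hc using fun i : Fin xs.length => hx (xs.get i) (List.get_mem xs i)
  have hshift := shift_smul hY xs.get c hc hL hPL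
  have hQm : ∀ u ∈ (Ideal.ofList xs • ⊤ : Submodule R Y),
      aeval δY (∏ i, P.comp (Polynomial.X - C (c i : k))) u ∈
        ((Ideal.ofList xs • ⊤ : Submodule R X).map φ ⊔
          IsLocalRing.maximalIdeal R • (Ideal.ofList xs • ⊤ : Submodule R Y)) := by
    intro u hu
    rw [hspan] at hshift
    have h1 := hshift u hu
    rw [Submodule.smul_sup, LinearMap.range_eq_map, ← Submodule.map_smul'',
      ← Submodule.mul_smul, mul_comm, Submodule.mul_smul] at h1
    exact h1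
  have hQ0 : (∏ i, P.comp (Polynomial.X - C (c i : k))) ≠ 0 := by
    rw [Finset.prod_ne_zero_iff]
    intro t _ h0
    rw [Polynomial.comp_eq_zero_iff] at h0
    rcases h0 with h0 | ⟨_, h0⟩
    · exact hP0 h0
    · have h1 := congrArg Polynomial.natDegree h0
      rw [Polynomial.natDegree_X_sub_C, Polynomial.natDegree_C] at h1
      exact one_ne_zero h1
  have hinj := jA_injective (I := Ideal.ofList xs) hφ
  have hjc := jA_comm hI hX hY hcomm
  have key : ∀ a ∈ wt K (tOpA hI hX hY hcomm),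
      ∃ b ∈ wt K (qOp _ δY hL), ∃ n : ℕ, 0 < n ∧ a = b + n := by
    intro a ha
    obtain ⟨b, j, hb, hab⟩ := wt_of_embedding hpos (leib_wOpA hI hX hY hcomm) hQ0
      (aeval_wOpA (IsLocalRing.maximalIdeal R) hI hX hY hcomm _ hQm)
      (jA (Ideal.ofList xs) φ) hinj hjc K ha
    obtain ⟨i, hi⟩ := root_shift c P hb
    refine ⟨b - (c i : K), ?_, c i + j, ?_, ?_⟩
    · rw [mem_wt_iff_aeval, ← hPdef]
      exact hi
    · have := hc0 i
      omega
    · rw [hab]
      push_cast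
      ring
  have hempty : wt K (qOp _ δY hL) = ∅ := by
    have : CharZero K := charZero_of_injective_algebraMap (algebraMap k K).injective
    refine empty_of_descent (wt_finite K _) ?_
    intro a ha
    refine key a ?_
    rw [mem_wt_iff, ← hT, ← mem_wt_iff]
    have hle : (LinearMap.range φ ⊔ (Ideal.ofList xs • ⊤ : Submodule R Y)) ≤
        (LinearMap.range φ ⊔ (IsLocalRing.maximalIdeal R • ⊤ : Submodule R Y)) :=
      sup_le_sup_left (Submodule.smul_mono_left hIm) _
    refine wt_of_surj K (Submodule.mapQ _ _ LinearMap.id hle) ?_ ?_ ha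
    · intro v
      obtain ⟨y, rfl⟩ := Submodule.Quotient.mk_surjective _ v
      exact ⟨Submodule.Quotient.mk y, rfl⟩
    · intro v
      obtain ⟨y, rfl⟩ := Submodule.Quotient.mk_surjective _ v
      rfl
  have hsub : Subsingleton (Y ⧸ (LinearMap.range φ ⊔
      (IsLocalRing.maximalIdeal R • ⊤ : Submodule R Y))) := by
    by_contra hns
    rw [not_subsingleton_iff_nontrivial] at hns
    obtain ⟨a, ha⟩ := exists_mem_wt K (qOp _ δY hL)
    rw [hempty] at ha
    exact ha
  have htop := Submodule.Quotient.subsingleton_iff.1 hsub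
  rw [← LinearMap.range_eq_top, eq_top_iff]
  refine Submodule.le_of_le_smul_of_le_jacobson_bot (I := IsLocalRing.maximalIdeal R)
    (Module.Finite.fg_top) ?_ ?_
  · rw [IsLocalRing.jacobson_eq_maximalIdeal _ bot_ne_top]
  · rw [htop]

end

end Pool.Agent.Helper43.QH
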