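import Pool.Agent.Helper43.QH.Generic

set_option autoImplicit false
set_option linter.unusedSectionVars false

/-!
# QH-18: modules that are free at the associated primes, localizations
-/

open TensorProduct

namespace Pool.Agent.Helper43.QH

section

variable {R : Type} [CommRing R] {M : Type} [AddCommGroup M] [Module R M]

/-- Proof. `M_p` has a finite basis; scale it to images of `m_1, …, m_n ∈ M`. Let
`θ : R^n → M`, `e_i ↦ m_i`. As `θ_p` is bijective and the cokernel and the kernel of `θ` are
finitely generated (`R` Noetherian) there are `s₁, s₂ ∉ p` with `s₁ M ≤ range θ`, `s₂ ker θ = 0`.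
Define `φ : M → R^n` by `φ x = s₂ u`, `θ u = s₁ x` (well defined). Then `θ (φ x) = s₁ s₂ x`. -/
theorem exists_of_free_localized [IsNoetherianRing R] [Module.Finite R M] (p : Ideal R)
    [hp : p.IsPrime]
    (h : Module.Free (Localization p.primeCompl) (LocalizedModule p.primeCompl M)) :
    ∃ s ∉ p, ∃ w : XX R M, phi R M w = s • LinearMap.id := by
  classical
  haveI : Module.FinitePresentation R M := Module.finitePresentation_of_finite R M
  let b := Module.Free.chooseBasis (Localization p.primeCompl) (LocalizedModule p.primeCompl M)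
  let mk : M →ₗ[R] LocalizedModule p.primeCompl M := LocalizedModule.mkLinearMap p.primeCompl M
  have h1 : ∀ i, ∃ (f : M →ₗ[R] R) (s : p.primeCompl),
      (Algebra.linearMap R (Localization p.primeCompl)) ∘ₗ f =
        s • (((b.coord i).restrictScalars R) ∘ₗ mk) := fun i =>
    Module.FinitePresentation.exists_lift_of_isLocalizedModule p.primeCompl
      (Algebra.linearMap R (Localization p.primeCompl)) _
  choose f s hf using h1
  have h2 : ∀ i, ∃ (m : M) (t : p.primeCompl), (t : R) • b i = mk m := by
    intro i
    obtain ⟨⟨m, t⟩, hm⟩ := IsLocalizedModule.surj p.primeCompl mk (b i)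
    exact ⟨m, t, hm⟩
  choose m t hm using h2
  have hprod : ∀ A : Finset (Module.Free.ChooseBasisIndex (Localization p.primeCompl)
      (LocalizedModule p.primeCompl M)), (∏ i ∈ A, ((s i : R) * (t i : R))) ∉ p := by
    intro A
    have : (∏ i ∈ A, ((s i : R) * (t i : R))) ∈ p.primeCompl :=
      Submonoid.prod_mem _ (fun i _ => Submonoid.mul_mem _ (s i).2 (t i).2)
    exact this
  let D : R := ∏ i, ((s i : R) * (t i : R))
  let c := fun i => ∏ j ∈ Finset.univ.erase i, ((s j : R) * (t j : R))
  have hDc : ∀ i, D = c i * ((s i : R) * (t i : R)) := fun i =>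
    (Finset.prod_erase_mul Finset.univ (fun j => (s j : R) * (t j : R)) (Finset.mem_univ i)).symm
  let θ : M →ₗ[R] M := ∑ i, LinearMap.smulRight (c i • f i) (m i)
  have key : mk.comp (D • LinearMap.id) = mk.comp θ := by
    ext x
    have e1 : mk.comp (D • LinearMap.id) x = D • mk x := by simp
    have e2 : mk.comp θ x = ∑ i, (c i * f i x) • mk (m i) := by
      simp only [θ, LinearMap.comp_apply, LinearMap.sum_apply, map_sum, LinearMap.smulRight_apply,
        LinearMap.smul_apply, smul_eq_mul, map_smul]
    rw [e1, e2]
    conv_lhs => rw [← b.sum_repr (mk x)]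
    rw [Finset.smul_sum]
    refine Finset.sum_congr rfl (fun i _ => ?_)
    have e3 : (algebraMap R (Localization p.primeCompl)) (f i x) = (s i : R) • (b.repr (mk x)) i := by
      have := LinearMap.congr_fun (hf i) x
      exact this
    rw [hDc i, ← hm i, mul_smul, mul_smul, mul_smul]
    congr 1
    have e4 : f i x • (t i : R) • b i =
        (algebraMap R (Localization p.primeCompl)) (f i x) • (t i : R) • b i :=
      (algebraMap_smul _ _ _).symm
    rw [e4, e3, smul_assoc, smul_comm ((b.repr (mk x)) i) (t i : R) (b i)]
  obtain ⟨u, hu⟩ := Module.Finite.exists_smul_of_comp_eq_of_isLocalizedModule p.primeCompl mk _ _ key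
  refine ⟨(u : R) * D, ?_, ∑ i, tm (((u : R) * c i) • f i) (m i), ?_⟩
  · intro hmem
    rcases hp.mem_or_mem hmem with h3 | h3
    · exact u.2 h3
    · exact hprod _ h3
  · ext x
    have e5 := LinearMap.congr_fun hu x
    have e6 : (u : R) • (D • x) = (u : R) • ∑ i, (c i * f i x) • m i := by
      have e7 : (u • (D • (LinearMap.id : M →ₗ[R] M))) x = (u : R) • (D • x) := rfl
      have e8 : (u • θ) x = (u : R) • ∑ i, (c i * f i x) • m i := by
        have : (u • θ) x = (u : R) • θ x := rfl
        rw [this]
        simp only [θ, LinearMap.sum_apply, LinearMap.smulRight_apply, LinearMap.smul_apply,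
          smul_eq_mul]
      rw [← e7, ← e8]
      exact e5
    rw [map_sum, LinearMap.sum_apply]
    simp only [phi_tm, LinearMap.smul_apply, LinearMap.id_apply, smul_eq_mul]
    rw [mul_smul, e6, Finset.smul_sum]
    refine Finset.sum_congr rfl (fun i _ => ?_)
    rw [← mul_smul, mul_assoc]

/-- Over a reduced Noetherian ring every finitely generated module has the property: the
associated primes are minimal, and the localizations at minimal primes are fields. -/
theorem genFree_of_isReduced [IsNoetherianRing R] [IsReduced R] [Module.Finite R M] :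
    GenFree R M := by
  intro p hpa
  have hpa' : (⊥ : Submodule R R).IsAssociatedPrime p := hpa
  obtain ⟨hp, x, hx⟩ := Submodule.isAssociatedPrime_iff.1 hpa'
  haveI := hp
  have hmem : ∀ a : R, a ∈ p ↔ a * x = 0 := by
    intro a
    rw [hx, Submodule.mem_colon_singleton, smul_eq_mul, Submodule.mem_bot]
  have hxp : x ∉ p := by
    intro h
    have h1 : x * x = 0 := (hmem x).1 h
    have h2 : x = 0 := by
      have : IsNilpotent x := ⟨2, by rw [sq]; exact h1⟩
      exact this.eq_zero
    apply hp.ne_top
    rw [Ideal.eq_top_iff_one, hmem, h2, mul_zero]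
  have hmax : IsLocalRing.maximalIdeal (Localization.AtPrime p) = ⊥ := by
    rw [← IsLocalization.AtPrime.map_eq_maximalIdeal p (Localization.AtPrime p),
      Ideal.map_eq_bot_iff_le_ker]
    intro a ha
    rw [RingHom.mem_ker]
    rw [IsLocalization.map_eq_zero_iff p.primeCompl (Localization.AtPrime p)]
    exact ⟨⟨x, hxp⟩, by rw [mul_comm]; exact (hmem a).1 ha⟩
  have hfield : IsField (Localization.AtPrime p) := IsLocalRing.isField_iff_maximalIdeal_eq.2 hmax
  refine exists_of_free_localized p ?_
  letI := hfield.toField
  exact Module.Free.of_divisionRing (Localization.AtPrime p) (LocalizedModule p.primeCompl M)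

end

end Pool.Agent.Helper43.QH
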