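import Pool.Agent.Helper43.QH.Fin
import Pool.Agent.Helper35.AR.RegSeq

set_option autoImplicit false
set_option linter.unusedSectionVars false

/-!
# QH-11: `Hom` modulo a regular sequence
-/

open CategoryTheory Abelian RingTheory.Sequence Pointwise

namespace Pool.Agent.Helper43.QH

open Pool.Agent.Helper35.AR

section

variable {R : Type} [CommRing R] [HasExt.{0} (ModuleCat.{0} R)]

private theorem ext_quot_one {M N : Type} [AddCommGroup M] [Module R M] [AddCommGroup N]
    [Module R N] {r : R} (hr : IsSMulRegular N r)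
    (h : ∀ i : ℕ, 0 < i → Subsingleton (Ext (ModuleCat.of R M) (ModuleCat.of R N) i)) :
    ∀ i : ℕ, 0 < i → Subsingleton (Ext (ModuleCat.of R M)
        (ModuleCat.of R (QuotSMulTop r N)) i) := by
  intro i hi
  have hS := hr.smulShortComplex_shortExact (M := ModuleCat.of R N)
  refine subsingleton_of_forall_eq 0 fun x₃ => ?_
  have hs1 := h (i + 1) (by omega)
  have hs2 := h i hi
  obtain ⟨x₂, hx₂⟩ := Ext.covariant_sequence_exact₃ (ModuleCat.of R M) hS x₃ (n₁ := i + 1) rfl
    (Subsingleton.elim (α := Ext (ModuleCat.of R M) (ModuleCat.of R N) (i + 1)) _ _)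
  have h0 : x₂ = 0 :=
    Subsingleton.elim (α := Ext (ModuleCat.of R M) (ModuleCat.of R N) i) _ _
  rw [← hx₂, h0, Ext.zero_comp]
  rfl

private theorem lift_one {M N : Type} [AddCommGroup M] [Module R M] [AddCommGroup N]
    [Module R N] {r : R} (hr : IsSMulRegular N r)
    (h : Subsingleton (Ext (ModuleCat.of R M) (ModuleCat.of R N) 1))
    (f : M →ₗ[R] QuotSMulTop r N) :
    ∃ g : M →ₗ[R] N, ∀ m, (r • (⊤ : Submodule R N)).mkQ (g m) = f m := by
  have hS := hr.smulShortComplex_shortExact (M := ModuleCat.of R N)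
  let f' : ModuleCat.of R M ⟶ ((ModuleCat.of R N).smulShortComplex r).X₃ := ModuleCat.ofHom f
  obtain ⟨x₂, hx₂⟩ := Ext.covariant_sequence_exact₃ (ModuleCat.of R M) hS (Ext.mk₀ f')
    (n₁ := 1) rfl
    (Subsingleton.elim (α := Ext (ModuleCat.of R M) (ModuleCat.of R N) 1) _ _)
  obtain ⟨g', rfl⟩ := (Ext.mk₀_bijective _ _).2 x₂
  rw [Ext.mk₀_comp_mk₀] at hx₂
  have h1 := (Ext.mk₀_bijective _ _).1 hx₂
  refine ⟨g'.hom, fun m => ?_⟩
  have h2 := congrArg (fun t : ModuleCat.of R M ⟶ ((ModuleCat.of R N).smulShortComplex r).X₃ =>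
    t.hom m) h1
  exact h2

private theorem div_one {M N : Type} [AddCommGroup M] [Module R M] [AddCommGroup N]
    [Module R N] {r : R} (hr : IsSMulRegular N r) (g : M →ₗ[R] N)
    (hg : ∀ m, g m ∈ (r • (⊤ : Submodule R N))) : ∃ g' : M →ₗ[R] N, g = r • g' := by
  have h1 : ∀ m, ∃ n : N, r • n = g m := by
    intro m
    obtain ⟨n, _, hn⟩ := (Submodule.mem_smul_pointwise_iff_exists _ _ _).1 (hg m)
    exact ⟨n, hn⟩
  choose u hu using h1
  refine ⟨{ toFun := u, map_add' := ?_, map_smul' := ?_ }, ?_⟩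
  · intro a b
    apply hr
    change r • u (a + b) = r • (u a + u b)
    rw [smul_add, hu, hu, hu, map_add]
  · intro s a
    apply hr
    change r • u (s • a) = r • (s • u a)
    rw [smul_comm r s, hu, hu, map_smul]
  · ext m
    exact (hu m).symm

/-- Proof. Induction on `rs` generalizing `N` (as in `Pool.Agent.Helper35.AR.ext_quot`). For
`r :: rs`: the exact sequence `0 → N → N → N / r N → 0` (multiplication by `r`) gives
`Ext^i(M, N / r N) = 0` for `i > 0` (see the proof of `ext_quot`), that every `M → N / r N` lifts to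
`N` (as `Ext^1(M, N) = 0`, `Ext.covariant_sequence_exact₃`), and that a map `M → N` with image in
`r N` is `r g'`. Then apply the induction hypothesis to `N / r N` and `rs`. -/
theorem hom_quot_lift {M : Type} [AddCommGroup M] [Module R M] (rs : List R) :
    ∀ (N : Type) [AddCommGroup N] [Module R N], IsWeaklyRegular N rs →
      (∀ i : ℕ, 0 < i → Subsingleton (Ext (ModuleCat.of R M) (ModuleCat.of R N) i)) →
      (∀ f : M →ₗ[R] (N ⧸ (Ideal.ofList rs • ⊤ : Submodule R N)), ∃ g : M →ₗ[R] N,
        ∀ m, Submodule.Quotient.mk (g m) = f m) ∧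
      ∀ g : M →ₗ[R] N, (∀ m, g m ∈ (Ideal.ofList rs • ⊤ : Submodule R N)) →
        g ∈ (Ideal.ofList rs • ⊤ : Submodule R (M →ₗ[R] N)) := by
  induction rs with
  | nil =>
    intro N _ _ _ _
    have hbot : (Ideal.ofList ([] : List R) • ⊤ : Submodule R N) = ⊥ :=
      Eq.trans (congrArg (· • ⊤) Ideal.ofList_nil) (Submodule.bot_smul ⊤)
    constructor
    · intro f
      let e : (N ⧸ (Ideal.ofList ([] : List R) • ⊤ : Submodule R N)) ≃ₗ[R] N :=
        Submodule.quotEquivOfEqBot _ hbot
      refine ⟨e.toLinearMap.comp f, fun m => ?_⟩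
      apply e.injective
      change e (Submodule.Quotient.mk (e (f m))) = e (f m)
      exact Submodule.quotEquivOfEqBot_apply_mk _ hbot (e (f m))
    · intro g hg
      have h0 : g = 0 := by
        ext m
        have h1 := hg m
        rw [hbot] at h1
        exact (Submodule.mem_bot R).1 h1
      rw [h0]
      exact zero_mem _
  | cons r rs ih =>
    intro N _ _ hreg h
    rw [isWeaklyRegular_cons_iff] at hreg
    have hE1 := h 1 one_pos
    obtain ⟨ha, hb⟩ := ih (QuotSMulTop r N) hreg.2 (ext_quot_one hreg.1 h)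
    let e := Submodule.quotOfListConsSMulTopEquivQuotSMulTopInner N r rs
    have he : ∀ n : N, e (Submodule.Quotient.mk n) =
        Submodule.Quotient.mk ((r • (⊤ : Submodule R N)).mkQ n) := fun n => rfl
    constructor
    · intro f
      obtain ⟨g', hg'⟩ := ha (e.toLinearMap.comp f)
      obtain ⟨g, hg⟩ := lift_one hreg.1 hE1 g'
      refine ⟨g, fun m => ?_⟩
      apply e.injective
      rw [he, hg, hg']
      rfl
    · intro g hg
      have h1 := hb ((r • (⊤ : Submodule R N)).mkQ.comp g) (fun m => by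
        rw [← Submodule.Quotient.mk_eq_zero, LinearMap.comp_apply]
        rw [← he, (Submodule.Quotient.mk_eq_zero _).2 (hg m), map_zero])
      have h2 : ∀ u ∈ (Ideal.ofList rs • ⊤ : Submodule R (M →ₗ[R] QuotSMulTop r N)),
          ∃ v ∈ (Ideal.ofList rs • ⊤ : Submodule R (M →ₗ[R] N)),
            (r • (⊤ : Submodule R N)).mkQ.comp v = u := by
        intro u hu
        refine Submodule.smul_induction_on
          (p := fun u => ∃ v ∈ (Ideal.ofList rs • ⊤ : Submodule R (M →ₗ[R] N)),
            (r • (⊤ : Submodule R N)).mkQ.comp v = u) hu ?_ ?_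
        · intro a haI w _
          obtain ⟨v, hv⟩ := lift_one hreg.1 hE1 w
          refine ⟨a • v, Submodule.smul_mem_smul haI trivial, ?_⟩
          ext m
          rw [LinearMap.comp_apply, LinearMap.smul_apply, map_smul, hv, LinearMap.smul_apply]
        · rintro _ _ ⟨v, hv, rfl⟩ ⟨w, hw, rfl⟩
          exact ⟨v + w, add_mem hv hw, LinearMap.comp_add _ _ _⟩
      obtain ⟨v, hv, hv2⟩ := h2 _ h1
      obtain ⟨w, hw⟩ := div_one hreg.1 (g - v) (fun m => by
        rw [← Submodule.ker_mkQ (r • (⊤ : Submodule R N)), LinearMap.mem_ker,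
          LinearMap.sub_apply, map_sub, sub_eq_zero]
        exact (congrArg (fun t : M →ₗ[R] QuotSMulTop r N => t m) hv2).symm)
      have h3 : g = r • w + v := by rw [← hw]; abel
      rw [h3]
      refine add_mem ?_ ?_
      · refine Submodule.smul_mem_smul ?_ trivial
        exact Ideal.subset_span (by simp)
      · refine Submodule.smul_mono_left ?_ hv
        exact Ideal.span_mono (fun x hx => by simp_all)

end

end Pool.Agent.Helper43.QH
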