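import Pool.Agent.Helper43.QH.Fin

set_option autoImplicit false
set_option linter.unusedSectionVars false

/-!
# QH-10: a derivation of the ring lifts to a module without self-extensions
-/

open Polynomial TensorProduct

namespace Pool.Agent.Helper43.QH

open Pool.Agent.Helper35.AR

section

variable {k R : Type} [Field k] [CommRing R] [Algebra k R]
variable {M : Type} [AddCommGroup M] [Module k M] [Module R M] [IsScalarTower k R M]

/-- Proof. Let `π : R^n → M` be a surjection (`Module.Finite.exists_fin'`), `D_F` the coordinatewise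
derivation on `R^n`. The map `ker π → M`, `v ↦ π (D_F v)` is `R`-linear, because
`π (D_F (r v)) = D r • π v + r • π (D_F v)`. By hypothesis it extends to an `R`-linear map
`g : R^n → M`. The map `π ∘ D_F - g` kills `ker π`, so it is `δ ∘ π` with `δ` as required. -/
theorem exists_leib [Module.Finite R M] (D : Derivation k R R) (hEV : EV R M 1 M) :
    ∃ δ : M →ₗ[k] M, Leib D δ := by
  obtain ⟨n, π, hπ⟩ := Module.Finite.exists_fin' R M
  obtain ⟨hext, -⟩ := hEV n π hπ
  let DF : (Fin n → R) →ₗ[k] (Fin n → R) := (D : R →ₗ[k] R).compLeft (Fin n)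
  have hDF : ∀ (r : R) (v : Fin n → R), DF (r • v) = D r • v + r • DF v := by
    intro r v
    ext i
    change D (r * v i) = D r * v i + r * D (v i)
    rw [Derivation.leibniz, smul_eq_mul, smul_eq_mul]
    ring
  let f : LinearMap.ker π →ₗ[R] M :=
    { toFun := fun v => π (DF v)
      map_add' := fun a b => by
        rw [Submodule.coe_add, map_add, map_add]
      map_smul' := fun r v => by
        rw [Submodule.coe_smul, hDF, map_add, map_smul, map_smul, LinearMap.mem_ker.1 v.2, smul_zero,
          zero_add, RingHom.id_apply] }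
  obtain ⟨g, hg⟩ := hext f
  let πk : (Fin n → R) →ₗ[k] M := π.restrictScalars k
  have hπk : Function.Surjective πk := hπ
  let δ' : (Fin n → R) →ₗ[k] M := πk ∘ₗ DF - g.restrictScalars k
  have hδ' : ∀ v, δ' v = π (DF v) - g v := fun v => rfl
  have hker : LinearMap.ker πk ≤ LinearMap.ker δ' := by
    intro v hv
    rw [LinearMap.mem_ker] at hv ⊢
    have h1 := hg ⟨v, LinearMap.mem_ker.2 hv⟩
    rw [hδ', sub_eq_zero]
    exact h1.symm
  let δ : M →ₗ[k] M := ((LinearMap.ker πk).liftQ δ' hker) ∘ₗ
    (πk.quotKerEquivOfSurjective hπk).symm.toLinearMap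
  have hδ : ∀ v, δ (π v) = δ' v := by
    intro v
    have h1 : (πk.quotKerEquivOfSurjective hπk).symm (π v) = Submodule.Quotient.mk v := by
      rw [LinearEquiv.symm_apply_eq]
      rfl
    change ((LinearMap.ker πk).liftQ δ' hker) ((πk.quotKerEquivOfSurjective hπk).symm (π v)) = δ' v
    rw [h1]
    rfl
  refine ⟨δ, fun r m => ?_⟩
  obtain ⟨v, rfl⟩ := hπ m
  rw [← map_smul, hδ, hδ, hδ', hδ', hDF, map_add, map_smul, map_smul, map_smul, smul_sub]
  abel

end

end Pool.Agent.Helper43.QH
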