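import Pool.Agent.Helper43.QH.ChDual

set_option autoImplicit false
set_option linter.unusedSectionVars false

/-!
# QH-09: `Hom` into the Gorenstein Artinian ring is the `k`-dual
-/

open Polynomial TensorProduct

namespace Pool.Agent.Helper43.QH

section

variable {k R : Type} [Field k] [CommRing R] [Algebra k R] {D : Derivation k R R}
  {I : Ideal R} {lam : R →ₗ[k] k}
variable {Y : Type} [AddCommGroup Y] [Module k Y] [Module R Y] [IsScalarTower k R Y]

/-- the functional on the quotient ring -/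
def lamBar (h0 : ∀ a ∈ I, lam a = 0) : (R ⧸ I) →ₗ[k] k :=
  ((I.restrictScalars k).liftQ lam (fun a ha => h0 a ha)) ∘ₗ
    (Submodule.Quotient.restrictScalarsEquiv k I).symm.toLinearMap

@[simp]
theorem lamBar_mk (h0 : ∀ a ∈ I, lam a = 0) (a : R) :
    lamBar h0 (Ideal.Quotient.mk I a) = lam a := by
  rfl

/-- Injectivity: if `lam (f y) = 0` for all `y` then `f = 0` (apply it to `r y`). -/
theorem hom_ext (h0 : ∀ a ∈ I, lam a = 0) (hnd : ∀ a, (∀ b, lam (a * b) = 0) → a ∈ I)
    (f : Y →ₗ[R] (R ⧸ I)) (hf : ∀ y, lamBar h0 (f y) = 0) : f = 0 := by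
  ext y
  obtain ⟨a, ha⟩ := Ideal.Quotient.mk_surjective (f y)
  rw [LinearMap.zero_apply, ← ha, Ideal.Quotient.eq_zero_iff_mem]
  refine hnd a fun b => ?_
  have h1 := hf (b • y)
  rw [map_smul, ← ha] at h1
  have h2 : b • (Ideal.Quotient.mk I a) = Ideal.Quotient.mk I (a * b) := by
    rw [mul_comm, map_mul]
    rfl
  rwa [h2, lamBar_mk] at h1

/-- the pairing on the quotient ring -/
private def pairR (h0 : ∀ a ∈ I, lam a = 0) : (R ⧸ I) →ₗ[k] (R ⧸ I) →ₗ[k] k :=
  (LinearMap.mul k (R ⧸ I)).compr₂ (lamBar h0)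

private theorem pairR_apply (h0 : ∀ a ∈ I, lam a = 0) (a b : R ⧸ I) :
    pairR h0 a b = lamBar h0 (a * b) := rfl

private theorem pairR_inj (h0 : ∀ a ∈ I, lam a = 0)
    (hnd : ∀ a, (∀ b, lam (a * b) = 0) → a ∈ I) : Function.Injective (pairR h0) := by
  rw [injective_iff_map_eq_zero]
  intro a ha
  obtain ⟨a, rfl⟩ := Ideal.Quotient.mk_surjective a
  rw [Ideal.Quotient.eq_zero_iff_mem]
  refine hnd a fun b => ?_
  have h1 : pairR h0 (Ideal.Quotient.mk I a) (Ideal.Quotient.mk I b) = 0 := by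
    rw [ha, LinearMap.zero_apply]
  rwa [pairR_apply, ← map_mul, lamBar_mk] at h1

/-- the functional `r ↦ g (r y)` on the quotient ring -/
private def ev (g : Y →ₗ[k] k) (hg : ∀ y ∈ (I • ⊤ : Submodule R Y), g y = 0) (y : Y) :
    (R ⧸ I) →ₗ[k] k :=
  lamBar (I := I) (lam := g ∘ₗ ((LinearMap.toSpanSingleton R Y y).restrictScalars k))
    (fun a ha => by
      rw [LinearMap.comp_apply, LinearMap.restrictScalars_apply,
        LinearMap.toSpanSingleton_apply]
      exact hg _ (Submodule.smul_mem_smul ha trivial))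

private theorem ev_mk (g : Y →ₗ[k] k) (hg : ∀ y ∈ (I • ⊤ : Submodule R Y), g y = 0) (y : Y)
    (r : R) : ev (I := I) g hg y (Ideal.Quotient.mk I r) = g (r • y) := rfl

/-- Surjectivity: every `k`-functional on `Y` that kills `I Y` is `lamBar ∘ f`. Proof: for `y ∈ Y`
the functional `r ↦ g (r y)` on `R` kills `I`; the map `R / I → Dual (R / I)`,
`a ↦ (r ↦ lam (r a))` is injective, so bijective (`R / I` is finite dimensional), which gives
`f y`, unique; linearity by uniqueness. -/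
theorem exists_hom [FiniteDimensional k (R ⧸ I)] (h0 : ∀ a ∈ I, lam a = 0)
    (hnd : ∀ a, (∀ b, lam (a * b) = 0) → a ∈ I) (g : Y →ₗ[k] k)
    (hg : ∀ y ∈ (I • ⊤ : Submodule R Y), g y = 0) :
    ∃ f : Y →ₗ[R] (R ⧸ I), ∀ y, lamBar h0 (f y) = g y := by
  have hinj := pairR_inj h0 hnd
  have hsurj : Function.Surjective (pairR h0) := by
    refine (LinearMap.injective_iff_surjective_of_finrank_eq_finrank ?_).1 hinj
    exact (Subspace.dual_finrank_eq (K := k) (V := R ⧸ I)).symm
  choose f hf using fun y : Y => hsurj (ev (I := I) g hg y)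
  have hf' : ∀ y r, lamBar h0 (f y * Ideal.Quotient.mk I r) = g (r • y) := by
    intro y r
    rw [← pairR_apply, hf, ev_mk]
  refine ⟨{ toFun := f, map_add' := ?_, map_smul' := ?_ }, ?_⟩
  · intro x y
    apply hinj
    ext r
    obtain ⟨r, rfl⟩ := Ideal.Quotient.mk_surjective r
    rw [map_add, LinearMap.add_apply, pairR_apply, pairR_apply, pairR_apply, hf', hf', hf',
      smul_add, map_add]
  · intro s y
    apply hinj
    ext r
    obtain ⟨r, rfl⟩ := Ideal.Quotient.mk_surjective r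
    rw [pairR_apply, pairR_apply, hf', RingHom.id_apply, smul_smul]
    have h1 : (s • f y) * Ideal.Quotient.mk I r = f y * Ideal.Quotient.mk I (r * s) := by
      rw [Algebra.smul_def, map_mul]
      change Ideal.Quotient.mk I s * f y * _ = _
      ring
    rw [h1, hf']
  · intro y
    have h1 := hf' y 1
    rwa [map_one, mul_one, one_smul] at h1

private theorem lamBar_rOp (hI : ∀ a ∈ I, D a ∈ I) (h0 : ∀ a ∈ I, lam a = 0) {σ : ℕ}
    (hσ : ∀ a, lam (D a) = σ * lam a) (a : R ⧸ I) :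
    lamBar h0 (rOp hI a) = (σ : k) * lamBar h0 a := by
  obtain ⟨a, rfl⟩ := Ideal.Quotient.mk_surjective a
  rw [rOp_mk, lamBar_mk, lamBar_mk, hσ]

private theorem hom_kills (f : Y →ₗ[R] (R ⧸ I)) :
    ∀ y ∈ (I • ⊤ : Submodule R Y), f y = 0 := by
  intro y hy
  refine Submodule.smul_induction_on (p := fun y => f y = 0) hy ?_ ?_
  · intro r hr n _
    rw [map_smul]
    obtain ⟨a, ha⟩ := Ideal.Quotient.mk_surjective (f n)
    rw [← ha]
    change Ideal.Quotient.mk I (r * a) = 0
    rw [Ideal.Quotient.eq_zero_iff_mem]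
    exact Ideal.mul_mem_right _ _ hr
  · intro a b ha hb
    rw [map_add, ha, hb, add_zero]

/-- the pairing between `Hom` and the reduction -/
private def pairH (h0 : ∀ a ∈ I, lam a = 0) :
    (Y →ₗ[R] (R ⧸ I)) →ₗ[k] (Y ⧸ (I • ⊤ : Submodule R Y)) →ₗ[k] k where
  toFun f := (((I • ⊤ : Submodule R Y).restrictScalars k).liftQ
      (lamBar h0 ∘ₗ f.restrictScalars k) (fun y hy => by
        rw [LinearMap.mem_ker, LinearMap.comp_apply, LinearMap.restrictScalars_apply,
          hom_kills f y hy, map_zero])) ∘ₗ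
    (Submodule.Quotient.restrictScalarsEquiv k (I • ⊤ : Submodule R Y)).symm.toLinearMap
  map_add' f g := by
    refine LinearMap.ext fun y => ?_
    obtain ⟨y, rfl⟩ := Submodule.Quotient.mk_surjective _ y
    change lamBar h0 ((f + g) y) = lamBar h0 (f y) + lamBar h0 (g y)
    rw [LinearMap.add_apply, map_add]
  map_smul' a f := by
    refine LinearMap.ext fun y => ?_
    obtain ⟨y, rfl⟩ := Submodule.Quotient.mk_surjective _ y
    change lamBar h0 ((a • f) y) = a • lamBar h0 (f y)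
    rw [LinearMap.smul_apply, map_smul]

private theorem pairH_mk (h0 : ∀ a ∈ I, lam a = 0) (f : Y →ₗ[R] (R ⧸ I)) (y : Y) :
    pairH h0 f (Submodule.Quotient.mk y) = lamBar h0 (f y) := rfl

/-- Proof: `ch_pairing` for the pairing `B f (y mod I Y) = lamBar (f y)` between `Hom_R(Y, R / I)`
and `Y / I Y`, which is perfect by `hom_ext` and `exists_hom`. -/
theorem ch_hom_ring (K : Type) [Field K] [Algebra k K] [IsAlgClosed K]
    [FiniteDimensional k (R ⧸ I)] [Module.Finite R Y] (hI : ∀ a ∈ I, D a ∈ I)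
    (h0 : ∀ a ∈ I, lam a = 0) {σ : ℕ}
    (hσ : ∀ a, lam (D a) = σ * lam a) (hnd : ∀ a, (∀ b, lam (a * b) = 0) → a ∈ I)
    {δ : Y →ₗ[k] Y} (hδ : Leib D δ) [FiniteDimensional k (Y →ₗ[R] (R ⧸ I))]
    [FiniteDimensional k (Y ⧸ (I • ⊤ : Submodule R Y))] :
    ch K (homOp hδ (leib_rOp hI)) =
      AddMonoidAlgebra.single (σ : K) (1 : ℤ) * inv K (ch K (barOp hI hδ)) := by
  have h := ch_pairing K (σ : k) (f := homOp hδ (leib_rOp hI)) (g := barOp hI hδ)
    (pairH (Y := Y) h0) ?_ ?_ ?_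
  · rwa [map_natCast] at h
  · intro f hf
    refine hom_ext h0 hnd f fun y => ?_
    rw [← pairH_mk, hf]
  · intro v hv
    obtain ⟨y, rfl⟩ := Submodule.Quotient.mk_surjective _ v
    by_contra hne
    obtain ⟨g', hg'⟩ : ∃ g' : (Y ⧸ (I • ⊤ : Submodule R Y)) →ₗ[k] k,
        g' (Submodule.Quotient.mk y) ≠ 0 := by
      by_contra hall
      push Not at hall
      exact hne ((Module.forall_dual_apply_eq_zero_iff k _).1 hall)
    let q : Y →ₗ[k] (Y ⧸ (I • ⊤ : Submodule R Y)) :=
      ((I • ⊤ : Submodule R Y).mkQ).restrictScalars k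
    obtain ⟨f, hf⟩ := exists_hom h0 hnd (g' ∘ₗ q) (fun z hz => by
      rw [LinearMap.comp_apply]
      change g' (Submodule.Quotient.mk z) = 0
      rw [(Submodule.Quotient.mk_eq_zero _).2 hz, map_zero])
    apply hg'
    have h1 := hv f
    rw [pairH_mk, hf] at h1
    exact h1
  · intro f v
    obtain ⟨y, rfl⟩ := Submodule.Quotient.mk_surjective _ v
    rw [barOp_mk, pairH_mk, pairH_mk, pairH_mk, homOp_apply, map_sub, lamBar_rOp hI h0 hσ]
    ring

/-- The case `Y = R`. -/
theorem ch_ring (K : Type) [Field K] [Algebra k K] [IsAlgClosed K]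
    [FiniteDimensional k (R ⧸ I)] (hI : ∀ a ∈ I, D a ∈ I)
    (h0 : ∀ a ∈ I, lam a = 0) {σ : ℕ}
    (hσ : ∀ a, lam (D a) = σ * lam a) (hnd : ∀ a, (∀ b, lam (a * b) = 0) → a ∈ I) :
    ch K (rOp (D := D) hI) =
      AddMonoidAlgebra.single (σ : K) (1 : ℤ) * inv K (ch K (rOp (D := D) hI)) := by
  have h := ch_pairing K (σ : k) (f := rOp (D := D) hI) (g := rOp (D := D) hI)
    (pairR h0) ?_ ?_ ?_
  · rwa [map_natCast] at h
  · intro u hu
    apply pairR_inj h0 hnd
    rw [map_zero]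
    exact LinearMap.ext fun v => hu v
  · intro v hv
    apply pairR_inj h0 hnd
    rw [map_zero]
    refine LinearMap.ext fun u => ?_
    have h1 := hv u
    rw [pairR_apply] at h1 ⊢
    rw [mul_comm, h1, LinearMap.zero_apply]
  · intro u v
    obtain ⟨u, rfl⟩ := Ideal.Quotient.mk_surjective u
    obtain ⟨v, rfl⟩ := Ideal.Quotient.mk_surjective v
    rw [rOp_mk, rOp_mk, pairR_apply, pairR_apply, pairR_apply, ← map_mul, ← map_mul, ← map_mul,
      lamBar_mk, lamBar_mk, lamBar_mk, ← hσ, Derivation.leibniz, map_add, smul_eq_mul,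
      smul_eq_mul, mul_comm (D u) v, add_comm]

end

end Pool.Agent.Helper43.QH
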