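import Pool.Agent.Helper43.QH.Tens
import Pool.Agent.Helper43.QH.DualG

set_option autoImplicit false
set_option linter.unusedSectionVars false

/-!
# QH-13: the perfect pairing between `M^* ⊗ M` and `End M` modulo `I`
-/

open Polynomial TensorProduct

namespace Pool.Agent.Helper43.QH

section

variable {k R : Type} [Field k] [CommRing R] [Algebra k R] {D : Derivation k R R}
  {I : Ideal R} {lam : R →ₗ[k] k}
variable {M : Type} [AddCommGroup M] [Module k M] [Module R M] [IsScalarTower k R M]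

/-- A `k`-linear map on the quotient by an `R`-submodule. -/
private noncomputable def liftK {V W : Type} [AddCommGroup V] [Module k V] [Module R V]
    [IsScalarTower k R V] [AddCommGroup W] [Module k W] (N : Submodule R V) (g : V →ₗ[k] W)
    (h : ∀ v ∈ N, g v = 0) : (V ⧸ N) →ₗ[k] W :=
  ((N.restrictScalars k).liftQ g (fun v hv => h v hv)) ∘ₗ
    (Submodule.Quotient.restrictScalarsEquiv k N).symm.toLinearMap

private theorem liftK_mk {V W : Type} [AddCommGroup V] [Module k V] [Module R V]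
    [IsScalarTower k R V] [AddCommGroup W] [Module k W] (N : Submodule R V) (g : V →ₗ[k] W)
    (h : ∀ v ∈ N, g v = 0) (v : V) : liftK N g h (Submodule.Quotient.mk v) = g v := rfl

/-- Functionals separate points from submodules. -/
private theorem exists_fun {V : Type} [AddCommGroup V] [Module k V] [Module R V]
    [IsScalarTower k R V] (N : Submodule R V) {u : V} (hu : u ∉ N) :
    ∃ g : V →ₗ[k] k, (∀ v ∈ N, g v = 0) ∧ g u ≠ 0 := by
  have h1 : (Submodule.Quotient.mk u : V ⧸ (N.restrictScalars k)) ≠ 0 := by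
    rw [Ne, Submodule.Quotient.mk_eq_zero]
    exact hu
  have h2 : ∃ φ : Module.Dual k (V ⧸ (N.restrictScalars k)),
      φ (Submodule.Quotient.mk u) ≠ 0 := by
    by_contra h
    push Not at h
    exact h1 ((Module.forall_dual_apply_eq_zero_iff k _).1 h)
  obtain ⟨φ, hφ⟩ := h2
  refine ⟨φ ∘ₗ (N.restrictScalars k).mkQ, fun v hv => ?_, hφ⟩
  have h3 : (N.restrictScalars k).mkQ v = 0 := by
    rw [Submodule.mkQ_apply, Submodule.Quotient.mk_eq_zero]
    exact hv
  rw [LinearMap.comp_apply, h3, map_zero]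

/-- If `u ∈ M` and `lam (f u) = 0` for all `f ∈ M^*` then `u ∈ I M`. Proof: otherwise there is a
`k`-functional `g` on `M` killing `I M` with `g u ≠ 0`; by `exists_hom` it is `lamBar ∘ f'` with
`f' : M → R / I`, which lifts to `f : M → R` by `H1`. -/
theorem mem_of_lam [FiniteDimensional k (R ⧸ I)] (h0 : ∀ a ∈ I, lam a = 0)
    (hnd : ∀ a, (∀ b, lam (a * b) = 0) → a ∈ I)
    (H1 : ∀ f : M →ₗ[R] (R ⧸ I), ∃ g : M →ₗ[R] R, ∀ m, Ideal.Quotient.mk I (g m) = f m)
    (u : M) (hu : ∀ f : M →ₗ[R] R, lam (f u) = 0) : u ∈ (I • ⊤ : Submodule R M) := by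
  by_contra hn
  obtain ⟨g, hg, hgu⟩ := exists_fun (k := k) _ hn
  obtain ⟨f', hf'⟩ := exists_hom h0 hnd g hg
  obtain ⟨f, hf⟩ := H1 f'
  apply hgu
  rw [← hf' u, ← hf u, lamBar_mk]
  exact hu f

/-- Every `k`-functional `g` on `M^* ⊗ M` killing `I (M^* ⊗ M)` is `z ↦ lam (psi z e)` for some
`e ∈ End M`. Proof: for `m ∈ M` the functional `f ↦ g (f ⊗ m)` on `M^*` kills `I M^*`. The map
`T : M^* → Dual_k (M / I M)`, `f ↦ (u ↦ lam (f u))` is surjective (`exists_hom`, `H1`) with kernel
`I M^*` (if `lam (f u) = 0` for all `u` then `f u ∈ I` for all `u`, since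
`lam (f (r u)) = lam (r f u)`, so `f ∈ I M^*` by `H1'`). So the functional `f ↦ g (f ⊗ m)` is
`f ↦ T f (e' m)` for a unique `e' m ∈ M / I M` (finite dimensional biduality); by uniqueness `e'`
is an `R`-linear map `M → M / I M`, and it lifts to `e ∈ End M` by `H2`. -/
theorem exists_end [FiniteDimensional k (R ⧸ I)] [Module.Finite R M]
    (h0 : ∀ a ∈ I, lam a = 0) (hnd : ∀ a, (∀ b, lam (a * b) = 0) → a ∈ I)
    (H1 : ∀ f : M →ₗ[R] (R ⧸ I), ∃ g : M →ₗ[R] R, ∀ m, Ideal.Quotient.mk I (g m) = f m)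
    (H1' : ∀ g : M →ₗ[R] R, (∀ m, g m ∈ I) → g ∈ (I • ⊤ : Submodule R (M →ₗ[R] R)))
    (H2 : ∀ f : M →ₗ[R] (M ⧸ (I • ⊤ : Submodule R M)), ∃ g : M →ₗ[R] M,
      ∀ m, Submodule.Quotient.mk (g m) = f m)
    (g : XX R M →ₗ[k] k) (hg : ∀ z ∈ (I • ⊤ : Submodule R (XX R M)), g z = 0) :
    ∃ e : M →ₗ[R] M, ∀ z, lam (psi R M z e) = g z := by
  have hQ : FiniteDimensional k (M ⧸ (I • ⊤ : Submodule R M)) := finite_quot I
  -- the value of a homomorphism on `I M`
  have hfI : ∀ (f : M →ₗ[R] R), ∀ u ∈ (I • ⊤ : Submodule R M), lam (f u) = 0 := by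
    intro f u hu
    apply h0
    have h1 : f u ∈ Submodule.map f (I • ⊤ : Submodule R M) := Submodule.mem_map_of_mem hu
    rw [Submodule.map_smul''] at h1
    refine (Submodule.smul_le.2 ?_) h1
    intro r hr n _
    rw [smul_eq_mul]
    exact I.mul_mem_right _ hr
  let T : (M →ₗ[R] R) →ₗ[k] Module.Dual k (M ⧸ (I • ⊤ : Submodule R M)) :=
    { toFun := fun f => liftK (I • ⊤ : Submodule R M) (lam ∘ₗ (f.restrictScalars k)) (hfI f)
      map_add' := fun f f' => by
        apply LinearMap.ext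
        intro q
        obtain ⟨u, rfl⟩ := Submodule.Quotient.mk_surjective _ q
        change lam ((f + f') u) = lam (f u) + lam (f' u)
        rw [LinearMap.add_apply, map_add]
      map_smul' := fun a f => by
        apply LinearMap.ext
        intro q
        obtain ⟨u, rfl⟩ := Submodule.Quotient.mk_surjective _ q
        change lam ((a • f) u) = a • lam (f u)
        rw [LinearMap.smul_apply, map_smul] }
  have hT : ∀ f u, T f (Submodule.Quotient.mk u) = lam (f u) := fun _ _ => rfl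
  have hTsurj : Function.Surjective T := by
    intro φ
    obtain ⟨f', hf'⟩ := exists_hom h0 hnd
      (φ ∘ₗ ((I • ⊤ : Submodule R M).mkQ.restrictScalars k)) (fun y hy => by
        have h3 : (I • ⊤ : Submodule R M).mkQ y = 0 := by
          rw [Submodule.mkQ_apply, Submodule.Quotient.mk_eq_zero]
          exact hy
        rw [LinearMap.comp_apply, LinearMap.restrictScalars_apply, h3, map_zero])
    obtain ⟨f, hf⟩ := H1 f'
    refine ⟨f, ?_⟩
    apply LinearMap.ext
    intro q
    obtain ⟨u, rfl⟩ := Submodule.Quotient.mk_surjective _ q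
    rw [hT, ← lamBar_mk h0, hf, hf']
    rfl
  have hTker : ∀ f, T f = 0 → f ∈ (I • ⊤ : Submodule R (M →ₗ[R] R)) := by
    intro f hf
    apply H1'
    intro u
    apply hnd
    intro b
    have h1 : T f (Submodule.Quotient.mk (b • u)) = 0 := by rw [hf]; rfl
    rw [hT, map_smul, smul_eq_mul, mul_comm] at h1
    exact h1
  have hgm : ∀ (m : M) (f : M →ₗ[R] R), f ∈ (I • ⊤ : Submodule R (M →ₗ[R] R)) →
      g (tm f m) = 0 := by
    intro m f hf
    apply hg
    refine Submodule.smul_induction_on (p := fun f => tm f m ∈ (I • ⊤ : Submodule R (XX R M)))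
      hf ?_ ?_
    · intro r hr n _
      rw [smul_tm]
      exact Submodule.smul_mem_smul hr trivial
    · intro a b ha hb
      rw [add_tm]
      exact add_mem ha hb
  -- the vector `e' m`
  have hex : ∀ m : M, ∃ q : M ⧸ (I • ⊤ : Submodule R M), ∀ f, T f q = g (tm f m) := by
    intro m
    let gm : (M →ₗ[R] R) →ₗ[k] k :=
      { toFun := fun f => g (tm f m)
        map_add' := fun a b => by rw [add_tm, map_add]
        map_smul' := fun a f => by
          have h1 : tm (a • f) m = a • tm f m := by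
            have h2 : (a • f : M →ₗ[R] R) = (algebraMap k R a) • f := by
              apply LinearMap.ext
              intro u
              rw [LinearMap.smul_apply, LinearMap.smul_apply, algebraMap_smul]
            rw [h2, smul_tm, algebraMap_smul]
          rw [h1, map_smul, RingHom.id_apply] }
    have hker : LinearMap.ker T ≤ LinearMap.ker gm := by
      intro f hf
      rw [LinearMap.mem_ker] at hf ⊢
      exact hgm m f (hTker f hf)
    obtain ⟨s, hs⟩ := T.exists_rightInverse_of_surjective (LinearMap.range_eq_top.2 hTsurj)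
    have hfac : ∀ f, gm f = (gm ∘ₗ s) (T f) := by
      intro f
      have h1 : f - s (T f) ∈ LinearMap.ker T := by
        rw [LinearMap.mem_ker, map_sub]
        have h2 : T (s (T f)) = T f := LinearMap.congr_fun hs (T f)
        rw [h2, sub_self]
      have h3 := hker h1
      rw [LinearMap.mem_ker, map_sub, sub_eq_zero] at h3
      exact h3
    obtain ⟨q, hq⟩ := (Module.evalEquiv k (M ⧸ (I • ⊤ : Submodule R M))).surjective (gm ∘ₗ s)
    refine ⟨q, fun f => ?_⟩
    have h4 := hfac f
    rw [← hq] at h4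
    exact h4.symm
  choose e' he' using hex
  have huniq : ∀ q q' : M ⧸ (I • ⊤ : Submodule R M), (∀ f, T f q = T f q') → q = q' := by
    intro q q' h
    rw [← sub_eq_zero]
    apply (Module.forall_dual_apply_eq_zero_iff k _).1
    intro φ
    obtain ⟨f, rfl⟩ := hTsurj φ
    rw [map_sub, h f, sub_self]
  have hTsmul : ∀ (r : R) (f : M →ₗ[R] R) (q : M ⧸ (I • ⊤ : Submodule R M)),
      T f (r • q) = T (r • f) q := by
    intro r f q
    obtain ⟨u, rfl⟩ := Submodule.Quotient.mk_surjective _ q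
    rw [← Submodule.Quotient.mk_smul, hT, hT, map_smul, LinearMap.smul_apply]
  let E : M →ₗ[R] (M ⧸ (I • ⊤ : Submodule R M)) :=
    { toFun := e'
      map_add' := fun m n => huniq _ _ fun f => by
        rw [he', map_add, he', he', tm_add, map_add]
      map_smul' := fun r m => huniq _ _ fun f => by
        rw [he', RingHom.id_apply, hTsmul, he', tm_smul, smul_tm] }
  obtain ⟨e, he⟩ := H2 E
  refine ⟨e, fun z => ?_⟩
  refine XX_induction (P := fun z => lam (psi R M z e) = g z) z (by simp) (fun f m => ?_)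
    (fun x y hx hy => ?_)
  · rw [psi_tm, ← hT, he m]
    exact he' m f
  · rw [map_add, LinearMap.add_apply, map_add, map_add, hx, hy]

/-- First consequence: the base case of the injectivity of `psi`. -/
theorem mem_of_psi [FiniteDimensional k (R ⧸ I)] [Module.Finite R M]
    (h0 : ∀ a ∈ I, lam a = 0) (hnd : ∀ a, (∀ b, lam (a * b) = 0) → a ∈ I)
    (H1 : ∀ f : M →ₗ[R] (R ⧸ I), ∃ g : M →ₗ[R] R, ∀ m, Ideal.Quotient.mk I (g m) = f m)
    (H1' : ∀ g : M →ₗ[R] R, (∀ m, g m ∈ I) → g ∈ (I • ⊤ : Submodule R (M →ₗ[R] R)))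
    (H2 : ∀ f : M →ₗ[R] (M ⧸ (I • ⊤ : Submodule R M)), ∃ g : M →ₗ[R] M,
      ∀ m, Submodule.Quotient.mk (g m) = f m)
    (z : XX R M) (hz : ∀ e : M →ₗ[R] M, psi R M z e ∈ I) :
    z ∈ (I • ⊤ : Submodule R (XX R M)) := by
  by_contra hn
  obtain ⟨g, hg, hgz⟩ := exists_fun (k := k) _ hn
  obtain ⟨e, he⟩ := exists_end h0 hnd H1 H1' H2 g hg
  apply hgz
  rw [← he z]
  exact h0 _ (hz e)

/-- Second consequence: relation of characters. Proof: `ch_pairing` for the pairing
`B (z mod I) (e mod I) = lam (psi z e)` of `X / I X` and `End M / I End M`, which is nondegenerate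
on the left by `exists_end`, and on the right: if `lam (f (e m)) = 0` for all `f`, `m` then
`e m ∈ I M` by `mem_of_lam`, so `e ∈ I End M` by `H2'`; the relation of the operators is
`psi_xOp`. -/
theorem ch_tensor (K : Type) [Field K] [Algebra k K] [IsAlgClosed K]
    [FiniteDimensional k (R ⧸ I)] [Module.Finite R M] (hI : ∀ a ∈ I, D a ∈ I)
    (h0 : ∀ a ∈ I, lam a = 0) {σ : ℕ} (hσ : ∀ a, lam (D a) = σ * lam a)
    (hnd : ∀ a, (∀ b, lam (a * b) = 0) → a ∈ I)
    (H1 : ∀ f : M →ₗ[R] (R ⧸ I), ∃ g : M →ₗ[R] R, ∀ m, Ideal.Quotient.mk I (g m) = f m)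
    (H1' : ∀ g : M →ₗ[R] R, (∀ m, g m ∈ I) → g ∈ (I • ⊤ : Submodule R (M →ₗ[R] R)))
    (H2 : ∀ f : M →ₗ[R] (M ⧸ (I • ⊤ : Submodule R M)), ∃ g : M →ₗ[R] M,
      ∀ m, Submodule.Quotient.mk (g m) = f m)
    (H2' : ∀ g : M →ₗ[R] M, (∀ m, g m ∈ (I • ⊤ : Submodule R M)) →
      g ∈ (I • ⊤ : Submodule R (M →ₗ[R] M)))
    {δ : M →ₗ[k] M} (hδ : Leib D δ)
    [FiniteDimensional k (XX R M ⧸ (I • ⊤ : Submodule R (XX R M)))]
    [FiniteDimensional k ((M →ₗ[R] M) ⧸ (I • ⊤ : Submodule R (M →ₗ[R] M)))] :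
    ch K (barOp (V := XX R M) hI (leib_xOp hδ)) =
      AddMonoidAlgebra.single (σ : K) (1 : ℤ) * inv K (ch K (barOp hI (leib_homOp hδ hδ))) := by
  have hpsiI : ∀ (z : XX R M) (e : M →ₗ[R] M), e ∈ (I • ⊤ : Submodule R (M →ₗ[R] M)) →
      psi R M z e ∈ I := by
    intro z e he
    refine Submodule.smul_induction_on (p := fun e => psi R M z e ∈ I) he ?_ ?_
    · intro r hr n _
      rw [map_smul, smul_eq_mul]
      exact I.mul_mem_right _ hr
    · intro a b ha hb
      rw [map_add]
      exact add_mem ha hb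
  have hpsiI' : ∀ (z : XX R M) (e : M →ₗ[R] M), z ∈ (I • ⊤ : Submodule R (XX R M)) →
      psi R M z e ∈ I := by
    intro z e he
    refine Submodule.smul_induction_on (p := fun z => psi R M z e ∈ I) he ?_ ?_
    · intro r hr n _
      rw [map_smul, LinearMap.smul_apply, smul_eq_mul]
      exact I.mul_mem_right _ hr
    · intro a b ha hb
      rw [map_add, LinearMap.add_apply]
      exact add_mem ha hb
  let B1 : XX R M →ₗ[k] (((M →ₗ[R] M) ⧸ (I • ⊤ : Submodule R (M →ₗ[R] M))) →ₗ[k] k) :=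
    { toFun := fun z => liftK (I • ⊤ : Submodule R (M →ₗ[R] M))
        (lam ∘ₗ ((psi R M z).restrictScalars k)) (fun e he => h0 _ (hpsiI z e he))
      map_add' := fun z z' => by
        apply LinearMap.ext
        intro q
        obtain ⟨e, rfl⟩ := Submodule.Quotient.mk_surjective _ q
        change lam (psi R M (z + z') e) = lam (psi R M z e) + lam (psi R M z' e)
        rw [map_add, LinearMap.add_apply, map_add]
      map_smul' := fun a z => by
        apply LinearMap.ext
        intro q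
        obtain ⟨e, rfl⟩ := Submodule.Quotient.mk_surjective _ q
        change lam (psi R M (a • z) e) = a • lam (psi R M z e)
        rw [← algebraMap_smul R a z, map_smul, LinearMap.smul_apply, algebraMap_smul, map_smul] }
  let B : (XX R M ⧸ (I • ⊤ : Submodule R (XX R M))) →ₗ[k]
      (((M →ₗ[R] M) ⧸ (I • ⊤ : Submodule R (M →ₗ[R] M))) →ₗ[k] k) :=
    liftK (I • ⊤ : Submodule R (XX R M)) B1 (fun z hz => by
      apply LinearMap.ext
      intro q
      obtain ⟨e, rfl⟩ := Submodule.Quotient.mk_surjective _ q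
      exact h0 _ (hpsiI' z e hz))
  have hB : ∀ z e, B (Submodule.Quotient.mk z) (Submodule.Quotient.mk e) = lam (psi R M z e) :=
    fun _ _ => rfl
  have h1 := ch_pairing K (σ : k) (f := barOp (V := XX R M) hI (leib_xOp hδ))
    (g := barOp hI (leib_homOp hδ hδ)) B ?_ ?_ ?_
  · rw [h1, map_natCast]
  · intro u hu
    obtain ⟨z, rfl⟩ := Submodule.Quotient.mk_surjective _ u
    rw [Submodule.Quotient.mk_eq_zero]
    apply mem_of_psi h0 hnd H1 H1' H2
    intro e
    apply hnd
    intro b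
    have h2 := hu (Submodule.Quotient.mk (b • e))
    rw [hB, map_smul, smul_eq_mul, mul_comm] at h2
    exact h2
  · intro v hv
    obtain ⟨e, rfl⟩ := Submodule.Quotient.mk_surjective _ v
    rw [Submodule.Quotient.mk_eq_zero]
    apply H2'
    intro m
    apply mem_of_lam h0 hnd H1
    intro f
    have h2 := hv (Submodule.Quotient.mk (tm f m))
    rw [hB, psi_tm] at h2
    exact h2
  · intro u v
    obtain ⟨z, rfl⟩ := Submodule.Quotient.mk_surjective _ u
    obtain ⟨e, rfl⟩ := Submodule.Quotient.mk_surjective _ v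
    rw [barOp_mk, barOp_mk, hB, hB, hB, ← map_add, ← psi_xOp hδ, hσ]

/-- The reduction of `End M` is `Hom_R(M, M / I M)`, compatibly with the operators. -/
theorem ch_end (K : Type) [Field K] [Algebra k K] (hI : ∀ a ∈ I, D a ∈ I)
    (H2 : ∀ f : M →ₗ[R] (M ⧸ (I • ⊤ : Submodule R M)), ∃ g : M →ₗ[R] M,
      ∀ m, Submodule.Quotient.mk (g m) = f m)
    (H2' : ∀ g : M →ₗ[R] M, (∀ m, g m ∈ (I • ⊤ : Submodule R M)) →
      g ∈ (I • ⊤ : Submodule R (M →ₗ[R] M)))
    {δ : M →ₗ[k] M} (hδ : Leib D δ)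
    [FiniteDimensional k ((M →ₗ[R] M) ⧸ (I • ⊤ : Submodule R (M →ₗ[R] M)))]
    [FiniteDimensional k (M →ₗ[R] (M ⧸ (I • ⊤ : Submodule R M)))] :
    ch K (barOp hI (leib_homOp hδ hδ)) = ch K (homOp hδ (leib_barOp hI hδ)) := by
  have hmk : ∀ e : M →ₗ[R] M, e ∈ (I • ⊤ : Submodule R (M →ₗ[R] M)) →
      (I • ⊤ : Submodule R M).mkQ ∘ₗ e = 0 := by
    intro e he
    refine Submodule.smul_induction_on
      (p := fun e => (I • ⊤ : Submodule R M).mkQ ∘ₗ e = 0) he ?_ ?_
    · intro r hr n _
      apply LinearMap.ext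
      intro m
      rw [LinearMap.comp_apply, LinearMap.smul_apply, Submodule.mkQ_apply,
        LinearMap.zero_apply, Submodule.Quotient.mk_eq_zero]
      exact Submodule.smul_mem_smul hr trivial
    · intro a b ha hb
      rw [LinearMap.comp_add, ha, hb, add_zero]
  let c : (M →ₗ[R] M) →ₗ[k] (M →ₗ[R] (M ⧸ (I • ⊤ : Submodule R M))) :=
    { toFun := fun e => (I • ⊤ : Submodule R M).mkQ ∘ₗ e
      map_add' := fun a b => LinearMap.comp_add _ _ _
      map_smul' := fun a e => by
        apply LinearMap.ext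
        intro m
        rfl }
  let E := liftK (I • ⊤ : Submodule R (M →ₗ[R] M)) c hmk
  have hE : ∀ e m, E (Submodule.Quotient.mk e) m = Submodule.Quotient.mk (e m) := fun _ _ => rfl
  have hbij : Function.Bijective E := by
    constructor
    · rw [injective_iff_map_eq_zero]
      intro q hq
      obtain ⟨e, rfl⟩ := Submodule.Quotient.mk_surjective _ q
      rw [Submodule.Quotient.mk_eq_zero]
      apply H2'
      intro m
      have h1 := LinearMap.congr_fun hq m
      rw [hE, LinearMap.zero_apply, Submodule.Quotient.mk_eq_zero] at h1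
      exact h1
    · intro f
      obtain ⟨g, hg⟩ := H2 f
      refine ⟨Submodule.Quotient.mk g, ?_⟩
      apply LinearMap.ext
      intro m
      rw [hE, hg]
  refine ch_conj K (LinearEquiv.ofBijective E hbij) ?_
  intro q
  obtain ⟨e, rfl⟩ := Submodule.Quotient.mk_surjective _ q
  apply LinearMap.ext
  intro m
  rw [LinearEquiv.ofBijective_apply, LinearEquiv.ofBijective_apply, barOp_mk, hE, homOp_apply,
    homOp_apply, hE, hE, barOp_mk, Submodule.Quotient.mk_sub]

end

end Pool.Agent.Helper43.QH
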