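import Pool.Agent.Helper43.QH.Fin
import Pool.Agent.Helper35.AR.Core

set_option autoImplicit false
set_option linter.unusedSectionVars false

/-!
# QH-17: high syzygies are maximal Cohen-Macaulay
-/

open RingTheory.Sequence

namespace Pool.Agent.Helper43.QH

open Pool.Agent.Helper35.AR

section

variable {R : Type} [CommRing R]

/-- Depth lemma. Proof: induction on `l` generalizing the modules. For `l = []`: an element that is
regular on `F` is regular on the submodule `K`. For `l = r :: l'`: `r` is regular on `F`, `Y`, hence
on `K`, and `0 → K / r K → F / r F → Y / r Y → 0` is exact (see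
`Pool.Agent.Helper35.AR.weaklyRegular_of_exact` for the same argument). -/
theorem weaklyRegular_append (l : List R) (a : R) : ∀ (K F Y : Type) [AddCommGroup K] [Module R K]
    [AddCommGroup F] [Module R F] [AddCommGroup Y] [Module R Y] (f : K →ₗ[R] F) (g : F →ₗ[R] Y),
    Function.Injective f → Function.Exact f g → Function.Surjective g →
    IsWeaklyRegular F (l ++ [a]) → IsWeaklyRegular Y l → IsWeaklyRegular K (l ++ [a]) := by
  induction l with
  | nil =>
    intro K F Y _ _ _ _ _ _ f g hf _ _ hF _
    rw [List.nil_append, isWeaklyRegular_cons_iff] at hF ⊢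
    refine ⟨?_, IsWeaklyRegular.nil _ _⟩
    intro u v huv
    apply hf
    apply hF.1
    simp only [← map_smul] at huv ⊢
    exact congrArg f huv
  | cons r l ih =>
    intro K F Y _ _ _ _ _ _ f g hf hfg hg hF hY
    rw [List.cons_append, isWeaklyRegular_cons_iff] at hF ⊢
    rw [isWeaklyRegular_cons_iff] at hY
    have hK : IsSMulRegular K r := by
      intro u v huv
      apply hf
      apply hF.1
      simp only [← map_smul] at huv ⊢
      exact congrArg f huv
    refine ⟨hK, ?_⟩
    have h0 : Function.Exact (0 : K →ₗ[R] K) f := by
      intro v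
      constructor
      · intro hv
        exact ⟨0, by rw [LinearMap.zero_apply]; exact (hf (hv.trans (map_zero f).symm)).symm⟩
      · rintro ⟨w, rfl⟩
        simp
    have h1 := QuotSMulTop.map_first_exact_on_four_term_exact_of_isSMulRegular_last h0 hfg hY.1
    refine ih _ _ _ (QuotSMulTop.map r f) (QuotSMulTop.map r g) ?_
      (QuotSMulTop.map_exact r hfg hg) (QuotSMulTop.map_surjective r hg) hF.2 hY.2
    rw [injective_iff_map_eq_zero]
    intro u hu
    obtain ⟨b, hb⟩ := (h1 u).1 hu
    rw [← hb, map_zero, LinearMap.zero_apply]

/-- a prefix of a weakly regular sequence is weakly regular -/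
theorem weaklyRegular_take {M : Type} [AddCommGroup M] [Module R M] (rs : List R) (j : ℕ)
    (h : IsWeaklyRegular M rs) : IsWeaklyRegular M (rs.take j) := by
  rw [← List.take_append_drop j rs, isWeaklyRegular_append_iff] at h
  exact h.1

/-- the step of the induction -/
theorem weaklyRegular_take_isSyz {rs : List R} (hR : IsWeaklyRegular R rs) (N : Type)
    [AddCommGroup N] [Module R N] (n : ℕ) : ∀ (j : ℕ) (M : Type) [AddCommGroup M] [Module R M],
    IsWeaklyRegular M (rs.take j) → IsSyz R N n M → IsWeaklyRegular N (rs.take (j + n)) := by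
  induction n with
  | zero =>
    intro j M _ _ hM hN
    obtain ⟨e⟩ := hN
    exact (e.isWeaklyRegular_congr _).1 hM
  | succ n ih =>
    intro j M _ _ hM hN
    obtain ⟨m, π, hπ, h3⟩ := hN
    have hex : Function.Exact (LinearMap.ker π).subtype π := by
      intro v
      constructor
      · intro hv
        exact ⟨⟨v, hv⟩, rfl⟩
      · rintro ⟨w, rfl⟩
        exact w.2
    have hK : IsWeaklyRegular (LinearMap.ker π) (rs.take (j + 1)) := by
      rcases lt_or_ge j rs.length with hj | hj
      · rw [List.take_succ_eq_append_getElem hj]
        refine weaklyRegular_append (rs.take j) rs[j] _ _ _ (LinearMap.ker π).subtype π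
          Subtype.val_injective hex hπ ?_ hM
        rw [← List.take_succ_eq_append_getElem hj]
        exact weaklyRegular_pi (weaklyRegular_take rs (j + 1) hR) m
      · have e1 : rs.take (j + 1) = rs.take j := by
          rw [List.take_of_length_le hj, List.take_of_length_le (by omega)]
        rw [e1]
        exact weaklyRegular_of_exact (rs.take j) _ _ _ (LinearMap.ker π).subtype π
          Subtype.val_injective hex hπ (weaklyRegular_pi (weaklyRegular_take rs j hR) m) hM
    have h4 := ih (j + 1) _ hK h3
    have e2 : j + 1 + n = j + (n + 1) := by omega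
    rwa [e2] at h4

/-- Proof. Show by induction on `n`: if `rs.take j` is weakly regular on `M` and `N` is an `n`-th
syzygy of `M` then `rs.take (j + n)` is weakly regular on `N` (for `n + 1`: the first syzygy
`ker π` of `M` has `rs.take (j + 1)` weakly regular, by `weaklyRegular_append` and
`weaklyRegular_pi`). -/
theorem weaklyRegular_of_isSyz {rs : List R} (hR : IsWeaklyRegular R rs) (n : ℕ)
    (hn : rs.length ≤ n) (N : Type) [AddCommGroup N] [Module R N] (M : Type) [AddCommGroup M]
    [Module R M] (hN : IsSyz R N n M) : IsWeaklyRegular N rs := by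
  have h1 := weaklyRegular_take_isSyz hR N n 0 M
    (by rw [List.take_zero]; exact IsWeaklyRegular.nil _ _) hN
  rwa [Nat.zero_add, List.take_of_length_le hn] at h1

/-- Existence of syzygies. -/
theorem exists_isSyz [IsNoetherianRing R] (n : ℕ) : ∀ (M : Type) [AddCommGroup M] [Module R M]
    [Module.Finite R M], ∃ (N : Type) (_ : AddCommGroup N) (_ : Module R N), IsSyz R N n M := by
  induction n with
  | zero =>
    intro M i1 i2 _
    exact ⟨M, i1, i2, ⟨LinearEquiv.refl R M⟩⟩
  | succ n ih =>
    intro M _ _ _
    obtain ⟨m, π, hπ⟩ := Module.Finite.exists_fin' R M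
    obtain ⟨N, i1, i2, h⟩ := ih (LinearMap.ker π)
    exact ⟨N, i1, i2, m, π, hπ, h⟩

end

end Pool.Agent.Helper43.QH
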