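import Pool.Agent.Helper43.QH.Fin

set_option autoImplicit false
set_option linter.unusedSectionVars false

/-!
# QH-08: the functional of a quasi-homogeneous Gorenstein Artinian ring
-/

open Polynomial TensorProduct

namespace Pool.Agent.Helper43.QH

section

variable {k R : Type} [Field k] [CharZero k] [CommRing R] [Algebra k R] {D : Derivation k R R}
  [IsLocalRing R]

/-- Every element is a sum of an element of the subalgebra generated by the `y i` and an element
of a high power of the maximal ideal. -/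
private theorem approx (ρ : R →ₐ[k] k) {m : ℕ} {y : Fin m → R}
    (hy : Ideal.span (Set.range y) = IsLocalRing.maximalIdeal R) (N : ℕ) :
    ∀ r : R, ∃ a ∈ Algebra.adjoin k (Set.range y), r - a ∈ IsLocalRing.maximalIdeal R ^ N := by
  induction N with
  | zero =>
    intro r
    exact ⟨0, zero_mem _, by simp⟩
  | succ N ih =>
    have key : ∀ x ∈ Ideal.span (Set.range y), ∃ a ∈ Algebra.adjoin k (Set.range y),
        x - a ∈ IsLocalRing.maximalIdeal R ^ (N + 1) := by
      intro x hx
      refine Submodule.span_induction (p := fun x _ => ∃ a ∈ Algebra.adjoin k (Set.range y),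
        x - a ∈ IsLocalRing.maximalIdeal R ^ (N + 1)) ?_ ?_ ?_ ?_ hx
      · intro z hz
        exact ⟨z, Algebra.subset_adjoin hz, by simp⟩
      · exact ⟨0, zero_mem _, by simp⟩
      · rintro u v _ _ ⟨a, ha, ha'⟩ ⟨b, hb, hb'⟩
        refine ⟨a + b, add_mem ha hb, ?_⟩
        have : u + v - (a + b) = (u - a) + (v - b) := by ring
        rw [this]
        exact add_mem ha' hb'
      · rintro r u hu ⟨a, ha, ha'⟩
        obtain ⟨c, hc, hc'⟩ := ih r
        refine ⟨c * a, mul_mem hc ha, ?_⟩
        have h1 : r • u - c * a = (r - c) * u + c * (u - a) := by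
          rw [smul_eq_mul]
          ring
        rw [h1]
        refine add_mem ?_ (Ideal.mul_mem_left _ _ ha')
        rw [pow_succ]
        refine Ideal.mul_mem_mul hc' ?_
        rw [← hy]
        exact hu
    intro r
    have h1 := sub_mem_max ρ r
    rw [← hy] at h1
    obtain ⟨a, ha, ha'⟩ := key _ h1
    refine ⟨algebraMap k R (ρ r) + a, add_mem (Subalgebra.algebraMap_mem _ _) ha, ?_⟩
    have h2 : r - (algebraMap k R (ρ r) + a) = r - algebraMap k R (ρ r) - a := by ring
    rw [h2]
    exact ha'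

/-- The eigenvectors of a derivation with natural eigenvalues are closed under products. -/
private theorem adjoin_le {m : ℕ} {y : Fin m → R} {c : Fin m → ℕ} (hD : ∀ i, D (y i) = c i • y i) :
    ∀ a ∈ Algebra.adjoin k (Set.range y), a ∈ Submodule.span k {r : R | ∃ n : ℕ, D r = n • r} := by
  intro a ha
  rw [← Subalgebra.mem_toSubmodule, Algebra.adjoin_eq_span] at ha
  refine Submodule.span_mono ?_ ha
  intro z hz
  refine Submonoid.closure_induction (motive := fun z _ => ∃ n : ℕ, D z = n • z) ?_ ?_ ?_ hz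
  · rintro _ ⟨i, rfl⟩
    exact ⟨c i, hD i⟩
  · exact ⟨0, by simp⟩
  · rintro u v _ _ ⟨n, hn⟩ ⟨l, hl⟩
    refine ⟨n + l, ?_⟩
    rw [Derivation.leibniz, hn, hl, smul_eq_mul, smul_eq_mul]
    simp only [nsmul_eq_mul]
    push_cast
    ring

/-- The induced operator is annihilated by a product of distinct linear factors with natural
roots. -/
private theorem exists_roots (ρ : R →ₐ[k] k) (hpos : Pos D) {I : Ideal R}
    (hI : ∀ a ∈ I, D a ∈ I) [FiniteDimensional k (R ⧸ I)] :
    ∃ T : Finset ℕ, aeval (rOp hI) (∏ n ∈ T, (X - C (n : k))) = 0 := by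
  classical
  obtain ⟨m, y, c, _, hy, hD⟩ := hpos
  obtain ⟨N, hN⟩ := exists_pow_smul_eq_bot (k := k) (R := R) (V := R ⧸ I)
  have hNI : ∀ x ∈ IsLocalRing.maximalIdeal R ^ N, x ∈ I := by
    intro x hx
    have h1 : x • (1 : R ⧸ I) ∈ (IsLocalRing.maximalIdeal R ^ N • ⊤ : Submodule R (R ⧸ I)) :=
      Submodule.smul_mem_smul hx trivial
    rw [hN, Submodule.mem_bot] at h1
    have h2 : x • (1 : R ⧸ I) = Ideal.Quotient.mk I x := by
      rw [Algebra.smul_def, mul_one]
      rfl
    rw [h2, Ideal.Quotient.eq_zero_iff_mem] at h1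
    exact h1
  set E : Set (R ⧸ I) := {v | ∃ n : ℕ, rOp hI v = n • v} with hE
  have hspan : Submodule.span k E = ⊤ := by
    rw [eq_top_iff]
    intro v _
    obtain ⟨r, rfl⟩ := Ideal.Quotient.mk_surjective v
    obtain ⟨a, ha, ha'⟩ := approx ρ hy N r
    have h1 : Ideal.Quotient.mk I r = Ideal.Quotient.mk I a := by
      rw [Ideal.Quotient.eq]
      exact hNI _ ha'
    rw [h1]
    have h2 := adjoin_le hD a ha
    have h3 : (Ideal.Quotient.mkₐ k I).toLinearMap a ∈
        (Submodule.span k {r : R | ∃ n : ℕ, D r = n • r}).map (Ideal.Quotient.mkₐ k I).toLinearMap :=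
      Submodule.mem_map_of_mem h2
    rw [Submodule.map_span] at h3
    refine Submodule.span_mono ?_ h3
    rintro _ ⟨z, ⟨n, hn⟩, rfl⟩
    refine ⟨n, ?_⟩
    change rOp hI (Ideal.Quotient.mk I z) = n • Ideal.Quotient.mk I z
    rw [rOp_mk, hn, map_nsmul]
  have hfg : (Submodule.span k E).FG := by
    rw [hspan]
    exact Module.Finite.fg_top
  obtain ⟨t, ht, hts⟩ := (Submodule.fg_span_iff_fg_span_finset_subset E).1 hfg
  rw [hspan] at hts
  have hch : ∀ v : t, ∃ n : ℕ, rOp hI v = n • (v : R ⧸ I) := fun v => ht v.2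
  choose e he using hch
  refine ⟨Finset.univ.image e, ?_⟩
  refine LinearMap.ext_on hts.symm ?_
  intro v hv
  have h1 := he ⟨v, hv⟩
  have h2 : e ⟨v, hv⟩ ∈ Finset.univ.image e := Finset.mem_image_of_mem _ (Finset.mem_univ _)
  rw [← Finset.prod_erase_mul _ _ h2, map_mul, Module.End.mul_apply]
  have h3 : aeval (rOp hI) (X - C ((e ⟨v, hv⟩ : ℕ) : k)) v = 0 := by
    rw [map_sub, aeval_X, aeval_C, LinearMap.sub_apply, h1, Module.algebraMap_end_apply]
    rw [← Nat.cast_smul_eq_nsmul k, sub_self]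
  rw [h3, map_zero, LinearMap.zero_apply]

/-- `I` is a proper `D`-stable ideal with `R / I` finite dimensional and one dimensional socle
(spanned by the class of `s`). Proof. (1) Let `E` be the set of `r` with `D r = n r` for some
natural number `n`, and `S` its `k`-span; `S` is closed under multiplication and contains `k` and
the generators `y_i` of `m` in `Pos D`. As `R = k + m` (`sub_mem_max`) and `m = ∑ R y_i`, induction
gives `S + m^N = R` for all `N`; `m^N ≤ I` for some `N` (`exists_pow_smul_eq_bot`). So `R / I` is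
spanned by eigenvectors of `rOp` with eigenvalues in `ℕ`; hence there is a finite set `T` of natural
numbers with `∏_(n ∈ T) (rOp - n) = 0` on `R / I`. (2) The class of `s` is an eigenvector: `D s` is
in the socle modulo `I` (for `b ∈ m`: `b D s = D (b s) - D(b) s ∈ I`), so `D s = σ s` mod `I`,
`σ ∈ k`, and `σ ∈ T` by (1) (apply the product to `s`). (3) Let `L = ∏_(n ∈ T, n ≠ σ) (X - n)`,
so `L(rOp) s = L(σ) s ≠ 0` (characteristic zero) and `(rOp - σ) L(rOp) = 0`. Take a functional `g`
on `R / I` with `g (L(rOp) s) ≠ 0`, and `lam r = g (L(rOp) r)`. Then `lam (D r) = σ lam r` and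
`lam s ≠ 0`. (4) Nondegeneracy: if `a ∉ I` then the ideal generated by `a` in the Artinian ring
`R / I` meets the socle: take the largest `j` with `m^j a ⊄ I`; some `b ∈ m^j` has `a b ∉ I` and
`m a b ⊆ I`, so `a b = t s` mod `I` with `t ∈ k`, `t ≠ 0`, and `lam (a b) = t lam s ≠ 0`. -/
theorem exists_functional [IsNoetherianRing R] (ρ : R →ₐ[k] k) (hpos : Pos D) {I : Ideal R}
    (hI : ∀ a ∈ I, D a ∈ I) [FiniteDimensional k (R ⧸ I)] (s : R) (hs : s ∉ I)
    (hs' : ∀ b ∈ IsLocalRing.maximalIdeal R, b * s ∈ I)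
    (hsoc : ∀ a : R, (∀ b ∈ IsLocalRing.maximalIdeal R, b * a ∈ I) → ∃ t : k, a - t • s ∈ I) :
    ∃ (lam : R →ₗ[k] k) (σ : ℕ), (∀ a ∈ I, lam a = 0) ∧ (∀ a, lam (D a) = σ * lam a) ∧
      ∀ a, (∀ b, lam (a * b) = 0) → a ∈ I := by
  classical
  obtain ⟨T, hT⟩ := exists_roots ρ hpos hI
  set π : R →ₗ[k] (R ⧸ I) := (Ideal.Quotient.mkₐ k I).toLinearMap with hπ
  have hπ0 : ∀ a, π a = 0 ↔ a ∈ I := by
    intro a
    change Ideal.Quotient.mk I a = 0 ↔ a ∈ I
    exact Ideal.Quotient.eq_zero_iff_mem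
  have hπD : ∀ a, π (D a) = rOp hI (π a) := fun a => rfl
  -- the class of s is an eigenvector
  obtain ⟨t, ht⟩ := hsoc (D s) (by
    intro b hb
    have h1 : D (b * s) ∈ I := hI _ (hs' b hb)
    rw [Derivation.leibniz, smul_eq_mul, smul_eq_mul] at h1
    have h2 : s * D b ∈ I := by
      rw [mul_comm]
      exact hs' _ (hpos.stable b hb)
    have h3 : b * D s = b * D s + s * D b - s * D b := by ring
    rw [h3]
    exact sub_mem h1 h2)
  have hs0 : π s ≠ 0 := fun h => hs ((hπ0 s).1 h)
  have hse : rOp hI (π s) = t • π s := by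
    rw [← hπD, ← sub_eq_zero, ← map_smul, ← map_sub]
    exact (hπ0 _).2 ht
  have hev : ∀ P : k[X], aeval (rOp hI) P (π s) = P.eval t • π s := by
    intro P
    exact Module.End.aeval_apply_of_hasEigenvector ⟨Module.End.mem_eigenspace_iff.2 hse, hs0⟩
  have h0 : (∏ n ∈ T, (X - C (n : k))).eval t = 0 := by
    have h1 := hev (∏ n ∈ T, (X - C (n : k)))
    rw [hT, LinearMap.zero_apply] at h1
    exact (smul_eq_zero.1 h1.symm).resolve_right hs0
  rw [eval_prod, Finset.prod_eq_zero_iff] at h0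
  obtain ⟨σ, hσ, hσt⟩ := h0
  rw [eval_sub, eval_X, eval_C, sub_eq_zero] at hσt
  set L : k[X] := ∏ n ∈ T.erase σ, (X - C (n : k)) with hL
  have hLs : aeval (rOp hI) L (π s) ≠ 0 := by
    rw [hev, hL, eval_prod]
    refine smul_ne_zero (Finset.prod_ne_zero_iff.2 ?_) hs0
    intro n hn
    rw [eval_sub, eval_X, eval_C, hσt, sub_ne_zero]
    exact fun h => Finset.ne_of_mem_erase hn (by exact_mod_cast h.symm)
  have hLδ : ∀ v, aeval (rOp hI) L (rOp hI v) = (σ : k) • aeval (rOp hI) L v := by
    intro v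
    have h1 : aeval (rOp hI) (L * (X - C (σ : k))) v = 0 := by
      rw [hL, Finset.prod_erase_mul _ _ hσ, hT, LinearMap.zero_apply]
    rw [map_mul, Module.End.mul_apply, map_sub, aeval_X, aeval_C, LinearMap.sub_apply,
      Module.algebraMap_end_apply, map_sub, map_smul, sub_eq_zero] at h1
    exact h1
  obtain ⟨g, hg⟩ : ∃ g : Module.Dual k (R ⧸ I), g (aeval (rOp hI) L (π s)) ≠ 0 := by
    by_contra hcon
    push Not at hcon
    exact hLs ((Module.forall_dual_apply_eq_zero_iff k _).1 hcon)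
  refine ⟨g ∘ₗ (aeval (rOp hI) L) ∘ₗ π, σ, ?_, ?_, ?_⟩
  · intro a ha
    simp only [LinearMap.comp_apply, (hπ0 a).2 ha, map_zero]
  · intro a
    simp only [LinearMap.comp_apply]
    rw [hπD, hLδ, map_smul, smul_eq_mul]
  · intro a ha
    by_contra haI
    obtain ⟨N, hN⟩ := exists_pow_smul_eq_bot (k := k) (R := R) (V := R ⧸ I)
    have hNI : ∀ x ∈ IsLocalRing.maximalIdeal R ^ N, x * a ∈ I := by
      intro x hx
      have h1 : x • (π a) ∈ (IsLocalRing.maximalIdeal R ^ N • ⊤ : Submodule R (R ⧸ I)) :=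
        Submodule.smul_mem_smul hx trivial
      rw [hN, Submodule.mem_bot] at h1
      have h2 : x • (π a) = π (x * a) := rfl
      rw [h2] at h1
      exact (hπ0 _).1 h1
    have hex : ∃ j : ℕ, ∀ x ∈ IsLocalRing.maximalIdeal R ^ j, x * a ∈ I := ⟨N, hNI⟩
    have hj := Nat.find_spec hex
    have hj0 : Nat.find hex ≠ 0 := by
      intro h
      rw [h] at hj
      exact haI (by simpa using hj 1 (by simp))
    obtain ⟨j, hjj⟩ := Nat.exists_eq_succ_of_ne_zero hj0
    have hmin := Nat.find_min hex (m := j) (by omega)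
    push Not at hmin
    obtain ⟨b, hb, hba⟩ := hmin
    rw [hjj] at hj
    obtain ⟨τ, hτ⟩ := hsoc (b * a) (by
      intro x hx
      rw [← mul_assoc]
      refine hj _ ?_
      rw [Nat.succ_eq_add_one, pow_succ']
      exact Ideal.mul_mem_mul hx hb)
    have hτ0 : τ ≠ 0 := by
      rintro rfl
      rw [zero_smul, sub_zero] at hτ
      exact hba hτ
    have h1 := ha b
    simp only [LinearMap.comp_apply] at h1
    have h2 : π (a * b) = τ • π s := by
      rw [mul_comm, ← sub_eq_zero, ← map_smul, ← map_sub]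
      exact (hπ0 _).2 hτ
    rw [h2, map_smul, map_smul, smul_eq_mul] at h1
    rcases mul_eq_zero.1 h1 with h3 | h3
    · exact hτ0 h3
    · exact hg h3

end

end Pool.Agent.Helper43.QH
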