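import Pool.Agent.Helper43.QH.Defect
import Pool.Agent.Helper43.QH.Soc
import Pool.Agent.Helper43.QH.LiftD
import Pool.Agent.Helper43.QH.HomQuot
import Pool.Agent.Helper43.QH.PsiBase
import Pool.Agent.Helper43.QH.Desc
import Pool.Agent.Helper43.QH.Generic2
import Pool.Agent.Helper43.QH.FinalLemma
import Pool.Agent.Helper43.QH.RegSyz
import Pool.Agent.Helper43.QH.EigPos

set_option autoImplicit false
set_option linter.unusedSectionVars false

/-!
# QH-20: assembly
-/

open CategoryTheory Abelian RingTheory.Sequence TensorProduct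

namespace Pool.Agent.Helper43.QH

open Pool.Agent.Helper35.AR

section algebra

variable {K : Type} [Field K] [CharZero K]

/-- The computation in the group ring. -/
theorem char_algebra [IsAlgClosed K] {h r m x : AddMonoidAlgebra ℤ K} {σ : K} (hr0 : r ≠ 0)
    (h1 : h * r = AddMonoidAlgebra.single σ 1 * inv K m * m)
    (h2 : r = AddMonoidAlgebra.single σ 1 * inv K r)
    (h3 : x = AddMonoidAlgebra.single σ 1 * inv K h) : x = h := by
  have : NoZeroDivisors (AddMonoidAlgebra ℤ K) := inferInstance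
  have h4 : inv K h * inv K r = AddMonoidAlgebra.single (-σ) 1 * m * inv K m := by
    rw [← map_mul, h1, map_mul, map_mul, inv_single, inv_inv]
  have h5 : (AddMonoidAlgebra.single σ (1 : ℤ)) * AddMonoidAlgebra.single (-σ) 1 = 1 := by
    rw [AddMonoidAlgebra.single_mul_single, add_neg_cancel, mul_one]
    rfl
  have h6 : x * r = h * r := by
    rw [h3, h1]
    calc AddMonoidAlgebra.single σ 1 * inv K h * r
        = AddMonoidAlgebra.single σ 1 * inv K h * (AddMonoidAlgebra.single σ 1 * inv K r) := by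
          rw [← h2]
      _ = AddMonoidAlgebra.single σ 1 * AddMonoidAlgebra.single σ 1 * (inv K h * inv K r) := by
          ring
      _ = AddMonoidAlgebra.single σ 1 * (AddMonoidAlgebra.single σ 1 *
            AddMonoidAlgebra.single (-σ) 1) * m * inv K m := by
          rw [h4]; ring
      _ = _ := by rw [h5]; ring
  exact mul_right_cancel₀ hr0 h6

end algebra

section core

variable {R : Type} [CommRing R]

theorem smul_top_ideal (I : Ideal R) : (I • ⊤ : Submodule R R) = I := by
  rw [smul_eq_mul, Ideal.mul_top]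

/-- `projective` from the identity in the image of the evaluation map -/
theorem projective_of_phi {M : Type} [AddCommGroup M] [Module R M] {w : XX R M}
    (hw : phi R M w = LinearMap.id) : Module.Projective R M := by
  obtain ⟨n, f, m, rfl⟩ := exists_sum_tm w
  have h1 : ∀ x, ∑ i, f i x • m i = x := by
    intro x
    have := LinearMap.congr_fun hw x
    rw [map_sum, LinearMap.sum_apply] at this
    simpa using this
  refine Module.Projective.of_split (M := Fin n → R) (LinearMap.pi f)
    (∑ i, (LinearMap.proj i : (Fin n → R) →ₗ[R] R).smulRight (m i)) ?_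
  ext x
  simp [h1]

variable {k : Type} [Field k] [CharZero k] [Algebra k R] [IsLocalRing R] [IsNoetherianRing R]
  {D : Derivation k R R} [HasExt.{0} (ModuleCat.{0} R)]

theorem core (ρ : R →ₐ[k] k) (hpos : Pos D) (xs : List R)
    (hxm : ∀ x ∈ xs, x ∈ IsLocalRing.maximalIdeal R) (hregR : IsWeaklyRegular R xs)
    (hx : ∀ x ∈ xs, ∃ w : ℕ, 0 < w ∧ D x = w • x) [FiniteDimensional k (R ⧸ Ideal.ofList xs)]
    (s : R) (hs : s ∉ Ideal.ofList xs)
    (hs' : ∀ b ∈ IsLocalRing.maximalIdeal R, b * s ∈ Ideal.ofList xs)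
    (hsoc : ∀ a : R, (∀ b ∈ IsLocalRing.maximalIdeal R, b * a ∈ Ideal.ofList xs) →
      ∃ t : k, a - t • s ∈ Ideal.ofList xs)
    (M : Type) [AddCommGroup M] [Module R M] [Module k M] [IsScalarTower k R M]
    [Module.Finite R M] (hregM : IsWeaklyRegular M xs)
    (hMR : ∀ i : ℕ, 0 < i → Subsingleton (Ext (ModuleCat.of R M) (ModuleCat.of R R) i))
    (hMM : ∀ i : ℕ, 0 < i → Subsingleton (Ext (ModuleCat.of R M) (ModuleCat.of R M) i))
    (hgen : GenFree R M) : Module.Projective R M := by
  set I := Ideal.ofList xs with hIdef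
  have hI : ∀ a ∈ I, D a ∈ I := stable_ofList (fun x hx' => by
    obtain ⟨w, _, hw⟩ := hx x hx'
    exact ⟨w, hw⟩)
  obtain ⟨lam, σ, h0, hσ, hnd⟩ := exists_functional ρ hpos hI s hs hs' hsoc
  -- lifts of homomorphisms
  have hR1 := hom_quot_lift (M := M) xs R hregR hMR
  have hM1 := hom_quot_lift (M := M) xs M hregM hMM
  have htop : (I • ⊤ : Submodule R R) = I := smul_top_ideal I
  have H1 : ∀ f : M →ₗ[R] (R ⧸ I), ∃ g : M →ₗ[R] R, ∀ m, Ideal.Quotient.mk I (g m) = f m := by
    intro f
    obtain ⟨g, hg⟩ := hR1.1 ((Submodule.quotEquivOfEq _ _ htop).symm.toLinearMap.comp f)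
    refine ⟨g, fun m => ?_⟩
    have h1 := congrArg (Submodule.quotEquivOfEq _ _ htop) (hg m)
    rw [Submodule.quotEquivOfEq_mk, LinearMap.comp_apply, LinearEquiv.coe_coe,
      LinearEquiv.apply_symm_apply] at h1
    exact h1
  have H1' : ∀ g : M →ₗ[R] R, (∀ m, g m ∈ I) → g ∈ (I • ⊤ : Submodule R (M →ₗ[R] R)) := by
    intro g hg
    refine hR1.2 g fun m => ?_
    rw [← hIdef, htop]
    exact hg m
  have H2 := hM1.1
  have H2' := hM1.2
  -- the operator
  obtain ⟨δ, hδ⟩ := exists_leib D (ev_of_ext 1 M hMM)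
  let K := AlgebraicClosure k
  have : CharZero K := charZero_of_injective_algebraMap (algebraMap k K).injective
  have f1 : FiniteDimensional k (M ⧸ (I • ⊤ : Submodule R M)) := finite_quot I
  have f2 : FiniteDimensional k (M →ₗ[R] (M ⧸ (I • ⊤ : Submodule R M))) := finite_hom
  have f3 : FiniteDimensional k (M →ₗ[R] (R ⧸ I)) := finite_hom
  have f4 : FiniteDimensional k ((M →ₗ[R] M) ⧸ (I • ⊤ : Submodule R (M →ₗ[R] M))) :=
    finite_quot I
  have f5 : FiniteDimensional k (XX R M ⧸ (I • ⊤ : Submodule R (XX R M))) := finite_quot I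
  -- the character identity
  have hEVM : ∀ n, EV R (M ⧸ (I • ⊤ : Submodule R M)) n M := fun n =>
    ev_of_ext n M (ext_quot xs M hregM hMM)
  have hEVR : ∀ n, EV R (R ⧸ I) n M := fun n =>
    ev_congr (Submodule.quotEquivOfEq _ _ htop) n M (ev_of_ext n M (ext_quot xs R hregR hMR))
  have e1 := ch_hom_mul K ρ hpos (leib_barOp hI hδ) (leib_rOp hI) hδ hEVM hEVR
  have e2 := ch_hom_ring K hI h0 hσ hnd hδ
  have e3 := ch_ring K hI h0 hσ hnd
  have e4 := ch_tensor K hI h0 hσ hnd H1 H1' H2 H2' hδ
  have e5 := ch_end K hI H2 H2' hδ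
  have hI1 : (1 : R) ∉ I := by
    intro h1
    apply hs
    have := Ideal.mul_mem_left I s h1
    rwa [mul_one] at this
  have hr0 : ch K (rOp (D := D) hI) ≠ 0 := by
    rw [Ne, ch_eq_zero_iff]
    intro hsub
    apply hI1
    rw [← Ideal.Quotient.eq_zero_iff_mem]
    exact Subsingleton.elim _ _
  rw [e2] at e1
  have e6 : ch K (barOp hI (leib_xOp hδ)) = ch K (barOp hI (leib_homOp hδ hδ)) := by
    rw [e5]
    rw [e5] at e4
    exact char_algebra hr0 e1 e3 e4
  -- injectivity
  have hpsi : Function.Injective (psi R M) := by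
    refine injective_of_quot xs (M →ₗ[R] M) R (XX R M) (psi R M) hxm hregR ?_
    intro z hz
    refine mem_of_psi h0 hnd H1 H1' H2 z fun e => ?_
    have := hz e
    rwa [← hIdef, htop] at this
  have hphi : Function.Injective (phi R M) := by
    rw [injective_iff_map_eq_zero]
    intro z hz
    apply hpsi
    rw [psi_eq_zero_of_phi hgen hz, map_zero]
  have hsurj : Function.Surjective (phi R M) :=
    surjective_of_ch_eq K ρ hpos xs hxm hx hI (leib_xOp hδ) (leib_homOp hδ hδ) (phi R M) hphi
      (phi_xOp hδ) e6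
  obtain ⟨w, hw⟩ := hsurj LinearMap.id
  exact projective_of_phi hw

/-- `GenFree` passes to syzygies. -/
theorem genFree_of_isSyz {N : Type} [AddCommGroup N] [Module R N] (n : ℕ) :
    ∀ (M : Type) [AddCommGroup M] [Module R M], IsSyz R N n M → GenFree R M → GenFree R N := by
  induction n with
  | zero =>
    intro M _ _ h hM
    obtain ⟨e⟩ := h
    exact genFree_congr e hM
  | succ n ih =>
    intro M _ _ h hM
    obtain ⟨m, π, hπ, h3⟩ := h
    exact ih _ h3 (genFree_ker hM π hπ)

theorem main (ρ : R →ₐ[k] k) (hpos : Pos D) (xs : List R) (hreg : IsRegular R xs)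
    (hx : ∀ x ∈ xs, ∃ w : k, D x = w • x) (hfin : FiniteDimensional k (R ⧸ Ideal.ofList xs))
    (s : R) (hs : s ∉ Ideal.ofList xs)
    (hsoc : ∀ a : R, (∀ b ∈ IsLocalRing.maximalIdeal R, b * a ∈ Ideal.ofList xs) ↔
      ∃ t : k, a - t • s ∈ Ideal.ofList xs)
    (M : Type) [AddCommGroup M] [Module R M] [Module.Finite R M]
    (hMR : ∀ i : ℕ, 0 < i → Subsingleton (Ext (ModuleCat.of R M) (ModuleCat.of R R) i))
    (hMM : ∀ i : ℕ, 0 < i → Subsingleton (Ext (ModuleCat.of R M) (ModuleCat.of R M) i))
    (hgen : GenFree R M) : Module.Free R M := by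
  have hxm : ∀ x ∈ xs, x ∈ IsLocalRing.maximalIdeal R := by
    intro x hx'
    have h1 : Ideal.ofList xs ≠ ⊤ := by
      intro h
      apply hreg.top_ne_smul
      rw [h, smul_eq_mul, Ideal.top_mul]
    exact IsLocalRing.le_maximalIdeal h1 (Ideal.subset_span hx')
  have hregR : IsWeaklyRegular R xs := hreg.toIsWeaklyRegular
  have hx' := exists_nat_weights ρ hpos xs hxm hregR hx
  obtain ⟨N, _, _, hN⟩ := exists_isSyz (R := R) xs.length M
  let _ : Module k N := Module.compHom N (algebraMap k R)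
  have : IsScalarTower k R N := IsScalarTower.of_algebraMap_smul fun r x => rfl
  have hNfin : Module.Finite R N := finite_of_isSyz _ M hN
  obtain ⟨hNR, hNN⟩ := ext_of_isSyz _ M hN hMR hMM
  have hregN := weaklyRegular_of_isSyz hregR xs.length le_rfl N M hN
  have hgenN := genFree_of_isSyz _ M hN hgen
  have hp : Module.Projective R N := core ρ hpos xs hxm hregR hx' s hs
    ((hsoc s).2 ⟨1, by simp⟩) (fun a ha => (hsoc a).1 ha) N hregN hNR hNN hgenN
  have hMp : Module.Projective R M := projective_of_isSyz hp _ M hN hMR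
  exact Module.free_of_flat_of_isLocalRing

end core

end Pool.Agent.Helper43.QH
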