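import Pool.Agent.Helper43.QH.ChExact

set_option autoImplicit false
set_option linter.unusedSectionVars false

/-!
# QH-02: characters of duals
-/

open Polynomial TensorProduct

namespace Pool.Agent.Helper43.QH

section

variable {k : Type} [Field k] (K : Type) [Field K] [Algebra k K] [IsAlgClosed K]

variable {U V : Type} [AddCommGroup U] [Module k U] [FiniteDimensional k U]
  [AddCommGroup V] [Module k V] [FiniteDimensional k V]

private theorem cd_matrix_const_sub {R n : Type*} [CommRing R] [Fintype n] [DecidableEq n] (A : Matrix n n R)
    (σ : R) : A.charpoly.comp (C σ - X) =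
      (-1) ^ Fintype.card n * (σ • (1 : Matrix n n R) - A).charpoly := by
  have h1 : A.charpoly.comp (C σ - X) =
      ((Polynomial.compRingHom (C σ - X)).mapMatrix A.charmatrix).det := by
    rw [← RingHom.map_det]
    rfl
  have h2 : (Polynomial.compRingHom (C σ - X)).mapMatrix A.charmatrix =
      -(σ • (1 : Matrix n n R) - A).charmatrix := by
    refine Matrix.ext fun i j => ?_
    by_cases hij : i = j
    · subst hij
      simp only [RingHom.mapMatrix_apply, Matrix.map_apply, Matrix.charmatrix_apply_eq,
        Polynomial.coe_compRingHom_apply, Matrix.neg_apply, Matrix.sub_apply, Matrix.smul_apply,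
        Matrix.one_apply_eq, X_comp, C_comp, smul_eq_mul, mul_one, map_sub]
      ring
    · simp only [RingHom.mapMatrix_apply, Matrix.map_apply, Matrix.charmatrix_apply_ne _ _ _ hij,
        Polynomial.coe_compRingHom_apply, Matrix.neg_apply, Matrix.sub_apply, Matrix.smul_apply,
        Matrix.one_apply_ne hij, C_comp, smul_eq_mul, mul_zero, zero_sub, map_neg,
        neg_neg]
  rw [h1, h2, Matrix.det_neg]
  rfl

private theorem cd_inv_single (a : K) (n : ℤ) :
    inv K (AddMonoidAlgebra.single a n) = AddMonoidAlgebra.single (-a) n := by
  simp [inv]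

private theorem cd_aroots_const_sub (σ : k) (P Q : k[X]) (hP : P.Monic) (hQ : Q.Monic) (n : ℕ)
    (h : P.comp (C σ - X) = (-1) ^ n * Q) :
    Q.aroots K = (P.aroots K).map fun a => algebraMap k K σ - a := by
  set P' : K[X] := P.map (algebraMap k K) with hP'
  set Q' : K[X] := Q.map (algebraMap k K) with hQ'
  have hPm : P'.Monic := hP.map _
  have hQm : Q'.Monic := hQ.map _
  have h1 : P'.comp (C (algebraMap k K σ) - X) = (-1) ^ n * Q' := by
    have := congrArg (Polynomial.map (algebraMap k K)) h
    simpa [Polynomial.map_comp] using this
  have h2 : P' = (P'.roots.map fun a => X - C a).prod := by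
    have := (IsAlgClosed.splits P').eq_prod_roots_of_monic hPm
    exact this
  have h3 : P'.comp (C (algebraMap k K σ) - X) =
      (-1) ^ P'.roots.card * ((P'.roots.map fun a => algebraMap k K σ - a).map
        fun a => X - C a).prod := by
    conv_lhs => rw [h2]
    rw [Polynomial.multiset_prod_comp, Multiset.map_map, Multiset.map_map]
    have e : ∀ s : Multiset K, (Multiset.map ((fun p : K[X] => p.comp (C (algebraMap k K σ) - X)) ∘
        fun a => X - C a) s).prod = (-1) ^ s.card * (Multiset.map ((fun a => X - C a) ∘
          fun a => algebraMap k K σ - a) s).prod := by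
      intro s
      induction s using Multiset.induction_on with
      | empty => simp
      | cons a s ih =>
        rw [Multiset.map_cons, Multiset.prod_cons, ih, Multiset.map_cons, Multiset.prod_cons,
          Multiset.card_cons]
        simp only [Function.comp_apply, sub_comp, X_comp, C_comp, map_sub]
        ring
    exact e _
  have h4 : (-1 : K[X]) ^ n * Q' = (-1) ^ P'.roots.card *
      ((P'.roots.map fun a => algebraMap k K σ - a).map fun a => X - C a).prod := h1.symm.trans h3
  have h5 : ((-1 : K[X]) ^ n * Q').roots = Q'.roots := by
    have : (-1 : K[X]) ^ n = C ((-1 : K) ^ n) := by simp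
    rw [this, Polynomial.roots_C_mul]
    exact pow_ne_zero _ (neg_ne_zero.2 one_ne_zero)
  have h6 : ((-1 : K[X]) ^ P'.roots.card *
      ((P'.roots.map fun a => algebraMap k K σ - a).map fun a => X - C a).prod).roots =
      P'.roots.map fun a => algebraMap k K σ - a := by
    have : (-1 : K[X]) ^ P'.roots.card = C ((-1 : K) ^ P'.roots.card) := by simp
    rw [this, Polynomial.roots_C_mul, Polynomial.roots_multiset_prod_X_sub_C]
    exact pow_ne_zero _ (neg_ne_zero.2 one_ne_zero)
  rw [Polynomial.aroots_def, Polynomial.aroots_def, ← h5, h4, h6]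

private theorem cd_charpoly_dual (g : V →ₗ[k] V) : g.dualMap.charpoly = g.charpoly := by
  classical
  set b := Module.finBasis k V with hb
  rw [← LinearMap.charpoly_toMatrix g b, ← LinearMap.charpoly_toMatrix g.dualMap b.dualBasis]
  have : LinearMap.toMatrix b.dualBasis b.dualBasis g.dualMap =
      (LinearMap.toMatrix b b g).transpose := by
    simp [LinearMap.dualMap_def, LinearMap.toMatrix_transpose]
  rw [this, Matrix.charpoly_transpose]

/-- The roots of the characteristic polynomial of `σ - f` are `σ` minus the roots of that of `f`.
(For a matrix `A` of size `n` one has `det (X - (σ - A)) = (-1)^n det ((σ - X) - A)`, that is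
`charpoly (σ - A) = (-1)^n (charpoly A).comp (C σ - X)`; over `K` write `charpoly A` as a product
of `X - a`.) -/
theorem ch_const_sub (σ : k) (f : V →ₗ[k] V) :
    ch K (σ • LinearMap.id - f) =
      AddMonoidAlgebra.single (algebraMap k K σ) (1 : ℤ) * inv K (ch K f) := by
  classical
  set b := Module.finBasis k V with hb
  have h1 : f.charpoly.comp (C σ - X) =
      (-1) ^ Fintype.card (Fin (Module.finrank k V)) * (σ • LinearMap.id - f).charpoly := by
    rw [← LinearMap.charpoly_toMatrix f b, ← LinearMap.charpoly_toMatrix (σ • LinearMap.id - f) b,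
      cd_matrix_const_sub]
    rw [map_sub, map_smul, LinearMap.toMatrix_id]
  have h2 := cd_aroots_const_sub K σ _ _ (LinearMap.charpoly_monic f)
    (LinearMap.charpoly_monic (σ • LinearMap.id - f)) _ h1
  unfold ch chp
  rw [h2, Multiset.map_map]
  have e : ∀ s : Multiset K, (Multiset.map ((fun a => AddMonoidAlgebra.single a (1 : ℤ)) ∘
      fun a => algebraMap k K σ - a) s).sum =
      AddMonoidAlgebra.single (algebraMap k K σ) (1 : ℤ) *
        inv K (s.map fun a => AddMonoidAlgebra.single a (1 : ℤ)).sum := by
    intro s
    induction s using Multiset.induction_on with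
    | empty => simp
    | cons a s ih =>
      rw [Multiset.map_cons, Multiset.sum_cons, ih, Multiset.map_cons, Multiset.sum_cons,
        map_add, mul_add, cd_inv_single, AddMonoidAlgebra.single_mul_single, mul_one]
      rw [Function.comp_apply, sub_eq_add_neg]
  exact e _

/-- A perfect pairing `B` (injective on both sides) with `B (f u, v) + B (u, g v) = σ B (u, v)`
gives the relation of characters. (The dual map of `g` has the same characteristic polynomial as
`g`, by `Matrix.charpoly_transpose`; `B` is an isomorphism from `U` onto the dual of `V`, which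
carries `f` to `σ - dual g`.) -/
theorem ch_pairing (σ : k) {f : U →ₗ[k] U} {g : V →ₗ[k] V} (B : U →ₗ[k] V →ₗ[k] k)
    (h1 : ∀ u, (∀ v, B u v = 0) → u = 0) (h2 : ∀ v, (∀ u, B u v = 0) → v = 0)
    (h : ∀ u v, B (f u) v + B u (g v) = σ * B u v) :
    ch K f = AddMonoidAlgebra.single (algebraMap k K σ) (1 : ℤ) * inv K (ch K g) := by
  have hi1 : Function.Injective B := by
    rw [injective_iff_map_eq_zero]
    intro u hu
    exact h1 u fun v => by rw [hu]; rfl
  have hi2 : Function.Injective B.flip := by
    rw [injective_iff_map_eq_zero]
    intro v hv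
    refine h2 v fun u => ?_
    have := LinearMap.congr_fun hv u
    exact this
  have hle1 : Module.finrank k U ≤ Module.finrank k V := by
    have := LinearMap.finrank_le_finrank_of_injective hi1
    rwa [show Module.finrank k (V →ₗ[k] k) = Module.finrank k V from Subspace.dual_finrank_eq] at this
  have hle2 : Module.finrank k V ≤ Module.finrank k U := by
    have := LinearMap.finrank_le_finrank_of_injective hi2
    rwa [show Module.finrank k (U →ₗ[k] k) = Module.finrank k U from Subspace.dual_finrank_eq] at this
  have hfr : Module.finrank k U = Module.finrank k (Module.Dual k V) := by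
    rw [Subspace.dual_finrank_eq]
    exact le_antisymm hle1 hle2
  let e : U ≃ₗ[k] Module.Dual k V := LinearMap.linearEquivOfInjective B hi1 hfr
  have he : ∀ u, e u = B u := fun u => rfl
  have hc : ch K f = ch K (σ • LinearMap.id - g.dualMap) := by
    refine ch_conj K e fun u => ?_
    ext v
    have := h u v
    rw [he, he, LinearMap.sub_apply, LinearMap.smul_apply, LinearMap.id_apply,
      LinearMap.sub_apply, LinearMap.smul_apply, LinearMap.dualMap_apply, smul_eq_mul]
    linear_combination this
  rw [hc, ch_const_sub]
  have : ch K g.dualMap = ch K g := by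
    unfold ch
    rw [cd_charpoly_dual]
  rw [this]

theorem inv_single (a : K) (n : ℤ) :
    inv K (AddMonoidAlgebra.single a n) = AddMonoidAlgebra.single (-a) n := by
  exact cd_inv_single K a n

theorem inv_inv (x : AddMonoidAlgebra ℤ K) : inv K (inv K x) = x := by
  have h : (inv K).comp (inv K) = RingHom.id (AddMonoidAlgebra ℤ K) := by
    unfold inv
    rw [← AddMonoidAlgebra.mapDomainRingHom_comp]
    convert AddMonoidAlgebra.mapDomainRingHom_id
    ext
    simp
  exact RingHom.congr_fun h x

theorem coeff_inv (x : AddMonoidAlgebra ℤ K) (a : K) : (inv K x).coeff a = x.coeff (-a) := by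
  have h : (inv K x).coeff = x.coeff.mapDomain (fun b => -b) := rfl
  rw [h]
  have h2 := Finsupp.mapDomain_apply (neg_injective (G := K)) x.coeff (-a)
  rw [neg_neg] at h2
  exact h2

end

end Pool.Agent.Helper43.QH
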