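import Pool.Agent.Helper43.QH.Fin

set_option autoImplicit false
set_option linter.unusedSectionVars false

/-!
# QH-01: additivity of characters in exact sequences
-/

open Polynomial TensorProduct

namespace Pool.Agent.Helper43.QH

section

variable {k : Type} [Field k] (K : Type) [Field K] [Algebra k K]

theorem chp_mul {P Q : k[X]} (hP : P ≠ 0) (hQ : Q ≠ 0) :
    chp K (P * Q) = chp K P + chp K Q := by
  unfold chp
  rw [aroots_mul (mul_ne_zero hP hQ), Multiset.map_add, Multiset.sum_add]

theorem chp_one : chp K (1 : k[X]) = 0 := by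
  unfold chp
  rw [← map_one C, aroots_C]
  rfl

/-- The coefficient of the character of a polynomial is the multiplicity of the root. -/
theorem chp_apply [DecidableEq K] (P : k[X]) (a : K) : (chp K P).coeff a = (Multiset.count a (P.aroots K) : ℤ) := by
  unfold chp
  induction P.aroots K using Multiset.induction_on with
  | empty => simp
  | cons b t ih =>
    rw [Multiset.map_cons, Multiset.sum_cons, AddMonoidAlgebra.coeff_add, Finsupp.add_apply, ih,
      AddMonoidAlgebra.coeff_single, Finsupp.single_apply, Multiset.count_cons]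
    by_cases h : b = a
    · subst h
      simp [add_comm]
    · have h' : ¬ a = b := fun h' => h h'.symm
      simp [h, h']

theorem chp_algebraMap_single (a : k) :
    chp K (X - C a) = AddMonoidAlgebra.single (algebraMap k K a) (1 : ℤ) := by
  unfold chp
  rw [aroots_X_sub_C, Multiset.map_singleton, Multiset.sum_singleton]

variable {U V W : Type} [AddCommGroup U] [Module k U] [FiniteDimensional k U]
  [AddCommGroup V] [Module k V] [FiniteDimensional k V]
  [AddCommGroup W] [Module k W] [FiniteDimensional k W]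

private theorem cx_charpoly_mapQ {V : Type} [AddCommGroup V] [Module k V]
    [FiniteDimensional k V] (W : Submodule k V) (e : V →ₗ[k] V) (he : W ≤ W.comap e) :
    e.charpoly = (e.restrict he).charpoly * (W.mapQ W e he).charpoly := by
  let m := Module.Free.ChooseBasisIndex k W
  let bW : Module.Basis m k W := Module.Free.chooseBasis k W
  let n := Module.Free.ChooseBasisIndex k (V ⧸ W)
  let bQ : Module.Basis n k (V ⧸ W) := Module.Free.chooseBasis k (V ⧸ W)
  let b := Module.Basis.sumQuot bW bQ
  let A : Matrix m m k := LinearMap.toMatrix bW bW (e.restrict he)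
  let B : Matrix m n k := Matrix.of fun i l ↦
    ((Module.Basis.sumQuot bW bQ).repr (e ((Module.Basis.sumQuot bW bQ) (Sum.inr l)))) (Sum.inl i)
  let D : Matrix n n k := LinearMap.toMatrix bQ bQ (W.mapQ W e he)
  suffices LinearMap.toMatrix b b e = Matrix.fromBlocks A B 0 D by
    rw [← LinearMap.charpoly_toMatrix e b, this, ← LinearMap.charpoly_toMatrix (e.restrict he) bW,
      ← LinearMap.charpoly_toMatrix (W.mapQ W e he) bQ, Matrix.charpoly_fromBlocks_zero₂₁]
  ext u v
  cases u with
  | inl i =>
    cases v with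
    | inl k =>
      simp only [b, Module.Basis.sumQuot_inl, Matrix.fromBlocks_apply₁₁, A,
        LinearMap.toMatrix_apply]
      apply Module.Basis.sumQuot_repr_inl_of_mem
    | inr l => simp [b, LinearMap.toMatrix_apply, Matrix.fromBlocks_apply₁₂, B]
  | inr j =>
    cases v with
    | inl k =>
      suffices W.mkQ (e (bW k)) = 0 by simp [LinearMap.toMatrix_apply, b, this]
      rw [← LinearMap.mem_ker, Submodule.ker_mkQ]
      exact he (Submodule.coe_mem (bW k))
    | inr l =>
      simp only [LinearMap.toMatrix_apply, Module.Basis.sumQuot_repr_inr,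
        Matrix.fromBlocks_apply₂₂, b, D]
      rw [← Module.Basis.sumQuot_inr bW bQ l, W.mapQ_apply]
      simp

/-- The characteristic polynomial is multiplicative in exact sequences. (Take a basis of `U`, its
image, and lifts of a basis of `W`: a basis of `V` in which the matrix of `fV` is block triangular;
`Matrix.charpoly_fromBlocks_zero₂₁`.) -/
theorem charpoly_exact {fU : U →ₗ[k] U} {fV : V →ₗ[k] V} {fW : W →ₗ[k] W} (i : U →ₗ[k] V)
    (p : V →ₗ[k] W) (hi : Function.Injective i) (hp : Function.Surjective p)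
    (hex : Function.Exact i p) (h1 : ∀ u, i (fU u) = fV (i u)) (h2 : ∀ v, p (fV v) = fW (p v)) :
    fV.charpoly = fU.charpoly * fW.charpoly := by
  have he : LinearMap.range i ≤ (LinearMap.range i).comap fV := by
    rintro _ ⟨u, rfl⟩
    exact ⟨fU u, h1 u⟩
  rw [cx_charpoly_mapQ (LinearMap.range i) fV he]
  congr 1
  · have e1 := LinearEquiv.charpoly_conj (LinearEquiv.ofInjective i hi) fU
    rw [← e1]
    congr 1
    refine LinearMap.ext fun v => ?_
    obtain ⟨u, rfl⟩ := (LinearEquiv.ofInjective i hi).surjective v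
    rw [LinearEquiv.conj_apply_apply, LinearEquiv.symm_apply_apply]
    apply Subtype.ext
    rw [LinearMap.restrict_apply]
    exact (h1 u).symm
  · have hk : LinearMap.range i = LinearMap.ker p := (LinearMap.exact_iff.1 hex).symm
    let e2 : (V ⧸ LinearMap.range i) ≃ₗ[k] W :=
      (Submodule.quotEquivOfEq _ _ hk).trans (p.quotKerEquivOfSurjective hp)
    have e3 := LinearEquiv.charpoly_conj e2 ((LinearMap.range i).mapQ (LinearMap.range i) fV he)
    rw [← e3]
    congr 1
    refine LinearMap.ext fun w => ?_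
    obtain ⟨v, rfl⟩ := e2.surjective w
    rw [LinearEquiv.conj_apply_apply, LinearEquiv.symm_apply_apply]
    obtain ⟨x, rfl⟩ := Submodule.Quotient.mk_surjective _ v
    exact h2 x

theorem ch_exact {fU : U →ₗ[k] U} {fV : V →ₗ[k] V} {fW : W →ₗ[k] W} (i : U →ₗ[k] V)
    (p : V →ₗ[k] W) (hi : Function.Injective i) (hp : Function.Surjective p)
    (hex : Function.Exact i p) (h1 : ∀ u, i (fU u) = fV (i u)) (h2 : ∀ v, p (fV v) = fW (p v)) :
    ch K fV = ch K fU + ch K fW := by
  unfold ch
  rw [charpoly_exact i p hi hp hex h1 h2,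
    chp_mul K (LinearMap.charpoly_monic fU).ne_zero (LinearMap.charpoly_monic fW).ne_zero]

theorem ch_conj {fU : U →ₗ[k] U} {fV : V →ₗ[k] V} (e : U ≃ₗ[k] V)
    (h : ∀ u, e (fU u) = fV (e u)) : ch K fU = ch K fV := by
  unfold ch
  have h1 : e.conj fU = fV := by
    refine LinearMap.ext fun v => ?_
    obtain ⟨u, rfl⟩ := e.surjective v
    rw [LinearEquiv.conj_apply_apply, LinearEquiv.symm_apply_apply]
    exact h u
  rw [← h1, LinearEquiv.charpoly_conj]

theorem ch_of_subsingleton [Subsingleton V] (f : V →ₗ[k] V) : ch K f = 0 := by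
  unfold ch
  have h1 : f.charpoly = 1 := by
    refine eq_one_of_monic_natDegree_zero (LinearMap.charpoly_monic f) ?_
    rw [LinearMap.charpoly_natDegree]
    exact Module.finrank_zero_of_subsingleton
  rw [h1, chp_one]

theorem mem_wt_iff (f : V →ₗ[k] V) (a : K) : a ∈ wt K f ↔ (ch K f).coeff a ≠ 0 := by
  classical
  unfold ch wt
  rw [chp_apply, Set.mem_ofPred_eq, ← Multiset.count_ne_zero]
  simp

theorem wt_finite (f : V →ₗ[k] V) : (wt K f).Finite := by
  classical
  unfold wt
  refine ((f.charpoly.aroots K).toFinset.finite_toSet).subset fun a ha => ?_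
  exact Finset.mem_coe.2 (Multiset.mem_toFinset.2 ha)

theorem mem_wt_iff_aeval (f : V →ₗ[k] V) (a : K) : a ∈ wt K f ↔ aeval a f.charpoly = 0 := by
  unfold wt
  rw [Set.mem_ofPred_eq, mem_aroots]
  exact ⟨fun h => h.2, fun h => ⟨(LinearMap.charpoly_monic f).ne_zero, h⟩⟩

/-- If a polynomial annihilates the operator then the eigenvalues are among its roots. (Pass to
`f.baseChange K`, `LinearMap.charpoly_baseChange`,
`Module.End.hasEigenvalue_iff_isRoot_charpoly`, `Module.End.aeval_apply_of_hasEigenvector`; or use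
that the minimal polynomial and the characteristic polynomial have the same irreducible
factors.) -/
theorem aeval_of_mem_wt {f : V →ₗ[k] V} {P : k[X]} (hP : aeval f P = 0) {a : K}
    (ha : a ∈ wt K f) : aeval a P = 0 := by
  rw [mem_wt_iff_aeval] at ha
  have h1 : (f.baseChange K).charpoly.IsRoot a := by
    rw [LinearMap.charpoly_baseChange, IsRoot.def, eval_map_algebraMap]
    exact ha
  rw [← Module.End.hasEigenvalue_iff_isRoot_charpoly] at h1
  obtain ⟨v, hv⟩ := h1.exists_hasEigenvector
  have h2 := Module.End.aeval_apply_of_hasEigenvector (p := P.map (algebraMap k K)) hv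
  have h3 : aeval (f.baseChange K) (P.map (algebraMap k K)) = 0 := by
    rw [aeval_map_algebraMap]
    have h4 : aeval (Module.End.baseChangeHom k K V f) P =
        Module.End.baseChangeHom k K V (aeval f P) := aeval_algHom_apply _ _ _
    rw [hP, map_zero] at h4
    exact h4
  rw [h3, LinearMap.zero_apply, eval_map_algebraMap] at h2
  exact (smul_eq_zero.1 h2.symm).resolve_right hv.2

/-- the eigenvalues of the middle term -/
theorem mem_wt_exact {fU : U →ₗ[k] U} {fV : V →ₗ[k] V} {fW : W →ₗ[k] W} (i : U →ₗ[k] V)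
    (p : V →ₗ[k] W) (hi : Function.Injective i) (hp : Function.Surjective p)
    (hex : Function.Exact i p) (h1 : ∀ u, i (fU u) = fV (i u)) (h2 : ∀ v, p (fV v) = fW (p v))
    (a : K) : a ∈ wt K fV ↔ a ∈ wt K fU ∨ a ∈ wt K fW := by
  rw [mem_wt_iff_aeval, mem_wt_iff_aeval, mem_wt_iff_aeval,
    charpoly_exact i p hi hp hex h1 h2, map_mul, mul_eq_zero]

/-- the eigenvalues of an invariant subspace -/
theorem wt_of_injective {fU : U →ₗ[k] U} {fV : V →ₗ[k] V} (i : U →ₗ[k] V)
    (hi : Function.Injective i) (h1 : ∀ u, i (fU u) = fV (i u)) {a : K} (ha : a ∈ wt K fU) :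
    a ∈ wt K fV := by
  have he : LinearMap.range i ≤ (LinearMap.range i).comap fV := by
    rintro _ ⟨u, rfl⟩
    exact ⟨fU u, h1 u⟩
  refine (mem_wt_exact K i (LinearMap.range i).mkQ hi (Submodule.mkQ_surjective _) ?_ h1
    (fW := (LinearMap.range i).mapQ (LinearMap.range i) fV he) (fun v => rfl) a).2 (Or.inl ha)
  rw [LinearMap.exact_iff, Submodule.ker_mkQ]

/-- the eigenvalues of an invariant quotient -/
theorem wt_of_surjective {fV : V →ₗ[k] V} {fW : W →ₗ[k] W} (p : V →ₗ[k] W)
    (hp : Function.Surjective p) (h2 : ∀ v, p (fV v) = fW (p v)) {a : K} (ha : a ∈ wt K fW) :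
    a ∈ wt K fV := by
  have he : ∀ v ∈ LinearMap.ker p, fV v ∈ LinearMap.ker p := by
    intro v hv
    have hv' : p v = 0 := hv
    show p (fV v) = 0
    rw [h2, hv', map_zero]
  refine (mem_wt_exact K (LinearMap.ker p).subtype p (Submodule.injective_subtype _) hp ?_
    (fU := fV.restrict he) (fun v => rfl) h2 a).2 (Or.inr ha)
  rw [LinearMap.exact_iff, Submodule.range_subtype]

theorem exists_mem_wt [IsAlgClosed K] [Nontrivial V] (f : V →ₗ[k] V) : ∃ a, a ∈ wt K f := by
  have h1 : f.charpoly.degree ≠ 0 := by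
    rw [degree_eq_natDegree (LinearMap.charpoly_monic f).ne_zero, LinearMap.charpoly_natDegree]
    have h2 : 0 < Module.finrank k V := Module.finrank_pos
    exact_mod_cast h2.ne'
  obtain ⟨a, ha⟩ := IsAlgClosed.exists_aeval_eq_zero K f.charpoly h1
  exact ⟨a, (mem_wt_iff_aeval K f a).2 ha⟩

theorem ch_eq_zero_iff [IsAlgClosed K] (f : V →ₗ[k] V) : ch K f = 0 ↔ Subsingleton V := by
  constructor
  · intro h
    by_contra hns
    rw [not_subsingleton_iff_nontrivial] at hns
    obtain ⟨a, ha⟩ := exists_mem_wt K f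
    rw [mem_wt_iff, h] at ha
    exact ha rfl
  · intro h
    exact ch_of_subsingleton K f

/-- coefficients of characters are nonnegative -/
theorem ch_nonneg (f : V →ₗ[k] V) (a : K) : 0 ≤ (ch K f).coeff a := by
  classical
  unfold ch
  rw [chp_apply]
  exact Int.natCast_nonneg _

end

end Pool.Agent.Helper43.QH
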