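import Pool.Agent.Helper43.QH.ChExact

set_option autoImplicit false
set_option linter.unusedSectionVars false

/-!
# QH-05: eigenvalues on subquotients
-/

open Polynomial TensorProduct

namespace Pool.Agent.Helper43.QH

section

variable {k R : Type} [Field k] [CommRing R] [Algebra k R] {D : Derivation k R R}
variable {W : Type} [AddCommGroup W] [Module k W] [Module R W] [IsScalarTower k R W]
  {δ : W →ₗ[k] W}

/-- Intertwining maps intertwine polynomials in the operators. -/
theorem aeval_intertwine {k A B : Type} [Field k] [AddCommGroup A] [Module k A] [AddCommGroup B]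
    [Module k B] {α : A →ₗ[k] A} {β : B →ₗ[k] B} (f : A →ₗ[k] B) (h : ∀ a, f (α a) = β (f a))
    (P : k[X]) (a : A) : f (aeval α P a) = aeval β P (f a) := by
  have hpow : ∀ (n : ℕ) (a : A), f ((α ^ n) a) = (β ^ n) (f a) := by
    intro n
    induction n with
    | zero => intro a; simp
    | succ n ih =>
      intro a
      rw [pow_succ', pow_succ']
      change f (α ((α ^ n) a)) = β ((β ^ n) (f a))
      rw [h, ih]
  induction P using Polynomial.induction_on' with
  | add P Q hP hQ =>
    rw [map_add, map_add, LinearMap.add_apply, LinearMap.add_apply, map_add, hP, hQ]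
  | monomial n c =>
    rw [aeval_monomial, aeval_monomial]
    change f ((algebraMap k (Module.End k A) c) ((α ^ n) a)) =
      (algebraMap k (Module.End k B) c) ((β ^ n) (f a))
    rw [Module.algebraMap_end_apply, Module.algebraMap_end_apply, map_smul, hpow]

theorem stable_span {s : ℕ} {x : Fin s → R} {c : Fin s → ℕ} (hx : ∀ i, D (x i) = c i • x i) :
    ∀ a ∈ Ideal.span (Set.range x), D a ∈ Ideal.span (Set.range x) := by
  intro a ha
  refine Submodule.span_induction (p := fun a _ => D a ∈ Ideal.span (Set.range x)) ?_ ?_ ?_ ?_ ha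
  · rintro _ ⟨i, rfl⟩
    rw [hx]
    exact Submodule.smul_of_tower_mem _ (c i) (Ideal.subset_span ⟨i, rfl⟩)
  · rw [map_zero]
    exact zero_mem _
  · intro a b _ _ ha hb
    rw [map_add]
    exact add_mem ha hb
  · intro r a ha' ha
    rw [smul_eq_mul, Derivation.leibniz]
    exact add_mem (Ideal.mul_mem_left _ _ ha) (Ideal.mul_mem_right _ _ ha')

theorem stable_pow {I : Ideal R} (hI : ∀ a ∈ I, D a ∈ I) (n : ℕ) : ∀ a ∈ I ^ n, D a ∈ I ^ n := by
  induction n with
  | zero =>
    intro a _
    rw [pow_zero, Ideal.one_eq_top]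
    trivial
  | succ n ih =>
    have h := stable_smul (D := D) (V := R) hI (δ := (D : R →ₗ[k] R)) leib_D (U := I ^ n) ih
    rw [smul_eq_mul, ← pow_succ'] at h
    exact h

/-- If `D x = c x` then `(δ - c)(x w) = x δ(w)`, hence for polynomials `P`. -/
theorem aeval_comp_smul (hδ : Leib D δ) {x : R} {c : ℕ} (hx : D x = c • x) (P : k[X]) (w : W) :
    aeval δ (P.comp (X - C (c : k))) (x • w) = x • aeval δ P w := by
  let μ : W →ₗ[k] W :=
    { toFun := fun w => x • w
      map_add' := fun a b => smul_add x a b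
      map_smul' := fun a w => by rw [RingHom.id_apply, smul_comm] }
  have h : ∀ w, μ (δ w) = (aeval δ (X - C (c : k))) (μ w) := by
    intro w
    rw [map_sub, aeval_X, aeval_C, LinearMap.sub_apply, Module.algebraMap_end_apply]
    change x • δ w = δ (x • w) - (c : k) • (x • w)
    rw [hδ, hx, Nat.cast_smul_eq_nsmul, smul_assoc]
    abel
  rw [aeval_comp]
  exact (aeval_intertwine μ h P w).symm

/-- A polynomial in `δ` preserves the submodules stable under `δ`. -/
theorem aeval_mem_of_stable {U : Submodule R W} (hU : ∀ u ∈ U, δ u ∈ U) (P : k[X]) {u : W}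
    (hu : u ∈ U) : aeval δ P u ∈ U := by
  have h := aeval_intertwine (U.subtype.restrictScalars k) (α := sOp U δ hU) (β := δ)
    (fun a => rfl) P ⟨u, hu⟩
  change ((aeval (sOp U δ hU) P ⟨u, hu⟩ : U) : W) = aeval δ P u at h
  rw [← h]
  exact Subtype.coe_prop _

/-- Shifting. Proof: `J • U` is generated by the `x i • u`; the factor with index `i` sends
`x i • u` to `x i • P(δ) u` which is in `J • U'`, and the other factors preserve `J • U'`, which is
stable (`stable_smul`, and the ideal `J` is stable because it is generated by eigenvectors). -/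
theorem shift_smul (hδ : Leib D δ) {s : ℕ} (x : Fin s → R) (c : Fin s → ℕ)
    (hx : ∀ i, D (x i) = c i • x i) {U U' : Submodule R W} (hU' : ∀ u ∈ U', δ u ∈ U') {P : k[X]}
    (h : ∀ u ∈ U, aeval δ P u ∈ U') :
    ∀ u ∈ Ideal.span (Set.range x) • U,
      aeval δ (∏ i, P.comp (X - C (c i : k))) u ∈ Ideal.span (Set.range x) • U' := by
  classical
  have hst := stable_smul (stable_span hx) hδ hU'
  have key : ∀ r ∈ Ideal.span (Set.range x), ∀ u ∈ U,
      aeval δ (∏ i, P.comp (X - C (c i : k))) (r • u) ∈ Ideal.span (Set.range x) • U' := by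
    intro r hr
    refine Submodule.span_induction (p := fun r _ => ∀ u ∈ U,
      aeval δ (∏ i, P.comp (X - C (c i : k))) (r • u) ∈ Ideal.span (Set.range x) • U')
      ?_ ?_ ?_ ?_ hr
    · rintro _ ⟨i, rfl⟩ u hu
      rw [← Finset.prod_erase_mul Finset.univ _ (Finset.mem_univ i), map_mul]
      change aeval δ (∏ j ∈ Finset.univ.erase i, P.comp (X - C (c j : k)))
        (aeval δ (P.comp (X - C (c i : k))) (x i • u)) ∈ _
      rw [aeval_comp_smul hδ (hx i)]
      exact aeval_mem_of_stable hst _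
        (Submodule.smul_mem_smul (Ideal.subset_span ⟨i, rfl⟩) (h u hu))
    · intro u _
      rw [zero_smul, map_zero]
      exact zero_mem _
    · intro a b _ _ ha hb u hu
      rw [add_smul, map_add]
      exact add_mem (ha u hu) (hb u hu)
    · intro a r _ hr u hu
      rw [smul_eq_mul, mul_comm, mul_smul]
      exact hr (a • u) (U.smul_mem a hu)
  intro u hu
  refine Submodule.smul_induction_on
    (p := fun u => aeval δ (∏ i, P.comp (X - C (c i : k))) u ∈ Ideal.span (Set.range x) • U')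
    hu ?_ ?_
  · intro r hr n hn
    exact key r hr n hn
  · intro a b ha hb
    rw [map_add]
    exact add_mem ha hb

/-- roots of the shifted polynomial -/
theorem root_shift {K : Type} [Field K] [Algebra k K] {s : ℕ} (c : Fin s → ℕ) (P : k[X]) {a : K}
    (ha : aeval a (∏ i, P.comp (X - C (c i : k))) = 0) : ∃ i, aeval (a - (c i : K)) P = 0 := by
  rw [map_prod, Finset.prod_eq_zero_iff] at ha
  obtain ⟨i, _, hi⟩ := ha
  refine ⟨i, ?_⟩
  rw [aeval_comp, map_sub, aeval_X, aeval_C, map_natCast] at hi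
  exact hi

variable [IsLocalRing R] [IsNoetherianRing R]

/-- Iterated shift: for every `n ≥ e` there is a nonzero polynomial whose roots are of the form
`b + j`, `b` a root of `P` and `j ≥ e`, which maps `m^e W` into `m^n W`. Proof: let `P_0 = P` and
`P_(i+1)` the shift of `P_i` for the generators of `m` (`Pos`); then `P_i` maps `m^i W` to
`m^(i+1) W` (`shift_smul`), its roots are `b + j` with `j ≥ i` (`root_shift`). Take
`Q = P_e ⋯ P_(n-1)`. -/
theorem exists_pol (hpos : Pos D) (hδ : Leib D δ) {P : k[X]} (hP : P ≠ 0)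
    (hPm : ∀ w, aeval δ P w ∈ (IsLocalRing.maximalIdeal R • ⊤ : Submodule R W)) (e n : ℕ)
    (hen : e ≤ n) :
    ∃ Q : k[X], Q ≠ 0 ∧ (∀ w ∈ (IsLocalRing.maximalIdeal R ^ e • ⊤ : Submodule R W),
      aeval δ Q w ∈ (IsLocalRing.maximalIdeal R ^ n • ⊤ : Submodule R W)) ∧
      ∀ (K : Type) [Field K] [Algebra k K] (a : K), aeval a Q = 0 →
        ∃ (b : K) (j : ℕ), e ≤ j ∧ aeval b P = 0 ∧ a = b + j := by
  have hstab := hpos.stable
  obtain ⟨s, y, c, hc, hspan, hDy⟩ := hpos
  have hlev : ∀ i : ℕ, ∃ Q : k[X], Q ≠ 0 ∧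
      (∀ w ∈ (IsLocalRing.maximalIdeal R ^ i • ⊤ : Submodule R W),
        aeval δ Q w ∈ (IsLocalRing.maximalIdeal R ^ (i + 1) • ⊤ : Submodule R W)) ∧
      ∀ (K : Type) [Field K] [Algebra k K] (a : K), aeval a Q = 0 →
        ∃ (b : K) (j : ℕ), i ≤ j ∧ aeval b P = 0 ∧ a = b + j := by
    intro i
    induction i with
    | zero =>
      refine ⟨P, hP, fun w _ => ?_, fun K _ _ a ha => ⟨a, 0, le_refl _, ha, by simp⟩⟩
      rw [zero_add, pow_one]
      exact hPm w
    | succ i ih =>
      obtain ⟨Q, hQ, hQm, hQr⟩ := ih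
      refine ⟨∏ t, Q.comp (X - C (c t : k)), ?_, ?_, ?_⟩
      · rw [Finset.prod_ne_zero_iff]
        intro t _ h0
        rw [Polynomial.comp_eq_zero_iff] at h0
        rcases h0 with h0 | ⟨_, h0⟩
        · exact hQ h0
        · have h1 := congrArg Polynomial.natDegree h0
          rw [Polynomial.natDegree_X_sub_C, Polynomial.natDegree_C] at h1
          exact one_ne_zero h1
      · have h1 := shift_smul hδ y c hDy (U := IsLocalRing.maximalIdeal R ^ i • ⊤)
          (U' := IsLocalRing.maximalIdeal R ^ (i + 1) • ⊤)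
          (stable_smul_top (stable_pow hstab (i + 1)) hδ) (P := Q) hQm
        rw [hspan, ← Submodule.mul_smul, ← Submodule.mul_smul, ← pow_succ', ← pow_succ'] at h1
        exact h1
      · intro K _ _ a ha
        obtain ⟨t, ht⟩ := root_shift c Q ha
        obtain ⟨b, j, hj, hb, hab⟩ := hQr K _ ht
        refine ⟨b, j + c t, ?_, hb, ?_⟩
        · have := hc t
          omega
        · rw [sub_eq_iff_eq_add] at hab
          rw [hab]
          push_cast
          ring
  induction n, hen using Nat.le_induction with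
  | base =>
    refine ⟨1, one_ne_zero, fun w hw => ?_, fun K _ _ a ha => ?_⟩
    · rw [map_one]
      exact hw
    · rw [map_one] at ha
      exact absurd ha one_ne_zero
  | succ n hn ih =>
    obtain ⟨Q, hQ, hQm, hQr⟩ := ih
    obtain ⟨Q', hQ', hQm', hQr'⟩ := hlev n
    refine ⟨Q' * Q, mul_ne_zero hQ' hQ, fun w hw => ?_, fun K _ _ a ha => ?_⟩
    · rw [map_mul]
      exact hQm' _ (hQm w hw)
    · rw [map_mul, mul_eq_zero] at ha
      rcases ha with ha | ha
      · obtain ⟨b, j, hj, hb, hab⟩ := hQr' K a ha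
        exact ⟨b, j, hn.trans hj, hb, hab⟩
      · exact hQr K a ha

/-- Eigenvalues on finite dimensional subquotients `T` of `m^e W`. Proof: `m^N T = 0` for some `N`
(`exists_pow_smul_eq_bot`), by Artin-Rees (`Ideal.exists_pow_inf_eq_pow_smul`) there is `n ≥ e` with
`U ∩ m^n W ⊆ m^N U`. With `Q` of `exists_pol`, `Q(δ) U ⊆ U ∩ m^n W ⊆ m^N U ⊆ ker q`, so
`Q(δT) = 0`; `aeval_of_mem_wt`. -/
theorem wt_subquotient (hpos : Pos D) [Module.Finite R W] (hδ : Leib D δ) {P : k[X]} (hP : P ≠ 0)
    (hPm : ∀ w, aeval δ P w ∈ (IsLocalRing.maximalIdeal R • ⊤ : Submodule R W)) (e : ℕ)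
    (U : Submodule R W) (hU : U ≤ IsLocalRing.maximalIdeal R ^ e • ⊤) (hUδ : ∀ u ∈ U, δ u ∈ U)
    {T : Type} [AddCommGroup T] [Module k T] [Module R T] [IsScalarTower k R T]
    [FiniteDimensional k T] {δT : T →ₗ[k] T} (q : U →ₗ[R] T) (hq : Function.Surjective q)
    (heq : ∀ u : U, q ⟨δ u, hUδ u u.2⟩ = δT (q u)) (K : Type) [Field K] [Algebra k K] {a : K}
    (ha : a ∈ wt K δT) : ∃ (b : K) (j : ℕ), e ≤ j ∧ aeval b P = 0 ∧ a = b + j := by
  obtain ⟨N, hN⟩ := exists_pow_smul_eq_bot (k := k) (R := R) (V := T)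
  obtain ⟨n0, hn0⟩ := (IsLocalRing.maximalIdeal R).exists_pow_inf_eq_pow_smul U
  obtain ⟨Q, hQ, hQm, hQr⟩ := exists_pol hpos hδ hP hPm e (max (n0 + N) e) (le_max_right _ _)
  refine hQr K a (aeval_of_mem_wt K (f := δT) ?_ ha)
  refine LinearMap.ext fun t => ?_
  obtain ⟨u, rfl⟩ := hq t
  have h1 := aeval_intertwine (q.restrictScalars k) (α := sOp U δ hUδ) (β := δT)
    (fun u => heq u) Q u
  have h2 := aeval_intertwine (U.subtype.restrictScalars k) (α := sOp U δ hUδ) (β := δ)
    (fun a => rfl) Q u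
  change ((aeval (sOp U δ hUδ) Q u : U) : W) = aeval δ Q u at h2
  have h3 : ((aeval (sOp U δ hUδ) Q u : U) : W) ∈
      (IsLocalRing.maximalIdeal R ^ N • U : Submodule R W) := by
    have h4 : ((aeval (sOp U δ hUδ) Q u : U) : W) ∈
        (IsLocalRing.maximalIdeal R ^ (max (n0 + N) e) • ⊤ ⊓ U : Submodule R W) := by
      refine ⟨?_, Subtype.coe_prop _⟩
      rw [h2]
      exact hQm _ (hU u.2)
    rw [hn0 _ (by omega)] at h4
    refine (Submodule.smul_mono (Ideal.pow_le_pow_right (by omega)) inf_le_right) h4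
  have h5 : q (aeval (sOp U δ hUδ) Q u) ∈
      (IsLocalRing.maximalIdeal R ^ N • ⊤ : Submodule R T) := by
    have h6 : aeval (sOp U δ hUδ) Q u ∈
        (IsLocalRing.maximalIdeal R ^ N • ⊤ : Submodule R U) :=
      (Submodule.mem_smul_top_iff _ _ _).2 h3
    have h7 := Submodule.mem_map_of_mem (f := q) h6
    rw [Submodule.map_smul''] at h7
    exact Submodule.smul_mono le_rfl le_top h7
  rw [hN, Submodule.mem_bot] at h5
  change q (aeval (sOp U δ hUδ) Q u) = aeval δT Q (q u) at h1
  rw [LinearMap.zero_apply, ← h1, h5]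

/-- The same with the eigenvalues on `W / m W` (Cayley-Hamilton for the characteristic
polynomial). -/
theorem wt_subquotient' (hpos : Pos D) [Module.Finite R W] (hδ : Leib D δ)
    [FiniteDimensional k (W ⧸ (IsLocalRing.maximalIdeal R • ⊤ : Submodule R W))] (e : ℕ)
    (U : Submodule R W) (hU : U ≤ IsLocalRing.maximalIdeal R ^ e • ⊤) (hUδ : ∀ u ∈ U, δ u ∈ U)
    {T : Type} [AddCommGroup T] [Module k T] [Module R T] [IsScalarTower k R T]
    [FiniteDimensional k T] {δT : T →ₗ[k] T} (q : U →ₗ[R] T) (hq : Function.Surjective q)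
    (heq : ∀ u : U, q ⟨δ u, hUδ u u.2⟩ = δT (q u)) (K : Type) [Field K] [Algebra k K] {a : K}
    (ha : a ∈ wt K δT) : ∃ b ∈ wt K (barOp hpos.stable hδ), ∃ j : ℕ, e ≤ j ∧ a = b + j := by
  have hP0 : (barOp hpos.stable hδ).charpoly ≠ 0 := (LinearMap.charpoly_monic _).ne_zero
  have hPm : ∀ w, aeval δ (barOp hpos.stable hδ).charpoly w ∈
      (IsLocalRing.maximalIdeal R • ⊤ : Submodule R W) := by
    intro w
    let π : W →ₗ[k] (W ⧸ (IsLocalRing.maximalIdeal R • ⊤ : Submodule R W)) :=
      (Submodule.mkQ (IsLocalRing.maximalIdeal R • ⊤ : Submodule R W)).restrictScalars k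
    have h1 := aeval_intertwine π (α := δ) (β := barOp hpos.stable hδ) (fun a => rfl)
      (barOp hpos.stable hδ).charpoly w
    rw [LinearMap.aeval_self_charpoly, LinearMap.zero_apply] at h1
    exact (Submodule.Quotient.mk_eq_zero _).1 h1
  obtain ⟨b, j, hj, hb, hab⟩ := wt_subquotient hpos hδ hP0 hPm e U hU hUδ q hq heq K ha
  exact ⟨b, (mem_wt_iff_aeval K _ b).2 hb, j, hj, hab⟩

end

end Pool.Agent.Helper43.QH
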