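import Pool.Agent.Helper43.QH.HomFree
import Pool.Agent.Helper43.QH.Weights
import Pool.Agent.Helper35.AR.MinCov

set_option autoImplicit false
set_option linter.unusedSectionVars false

/-!
# QH-06: minimal covers with operators
-/

open Polynomial TensorProduct

namespace Pool.Agent.Helper43.QH

open Pool.Agent.Helper35.AR

section

variable {k R : Type} [Field k] [CommRing R] [Algebra k R] {D : Derivation k R R}
  [IsLocalRing R]

/-- a minimal cover pulls back `m Y` to `m R^β` -/
private theorem cov_mem {Y : Type} [AddCommGroup Y] [Module R Y] {β : ℕ}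
    {π : (Fin β → R) →ₗ[R] Y} (hπ : MinCov π) (v : Fin β → R) :
    π v ∈ (IsLocalRing.maximalIdeal R • ⊤ : Submodule R Y) ↔
      v ∈ (IsLocalRing.maximalIdeal R • ⊤ : Submodule R (Fin β → R)) := by
  have h1 : (IsLocalRing.maximalIdeal R • ⊤ : Submodule R Y) =
      Submodule.map π (IsLocalRing.maximalIdeal R • ⊤ : Submodule R (Fin β → R)) := by
    rw [Submodule.map_smul'', Submodule.map_top, LinearMap.range_eq_top.2 hπ.1]
  constructor
  · intro h
    rw [h1] at h
    obtain ⟨u, hu, huv⟩ := h
    have h2 : v - u ∈ LinearMap.ker π := by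
      rw [LinearMap.mem_ker, map_sub, huv, sub_self]
    have h3 := add_mem (hπ.2 h2) hu
    rwa [sub_add_cancel] at h3
  · intro h
    rw [h1]
    exact ⟨v, h, rfl⟩

omit [IsLocalRing R] in
/-- the operator of a cover -/
private theorem cov_sum {Y : Type} [AddCommGroup Y] [Module R Y] {β : ℕ}
    (π : (Fin β → R) →ₗ[R] Y) (v : Fin β → R) : π v = ∑ j, v j • π (Pi.single j 1) := by
  classical
  conv_lhs => rw [pi_eq_sum_univ' v]
  rw [map_sum]
  refine Finset.sum_congr rfl fun j _ => ?_
  rw [map_smul]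

/-- Proof. `exists_minCov` gives a minimal cover `π`. Choose `a_j` with `π a_j = δY (π e_j)` and put
`δF v = (D v_b)_b + ∑_j v_j a_j`; then `δF` is a Leibniz operator and `π (δF v) = δY (π v)`. As
`ker π ≤ m R^β`, the map `π` induces an isomorphism of `k^β = R^β / m R^β` with `Y / m Y`, which
carries the operator with matrix `ρ ((δF e_j)_i)` to `barOp`: `LinearMap.charpoly_toMatrix` for the
basis of `Y / m Y` given by the images of `e_j`. -/
theorem exists_cover (ρ : R →ₐ[k] k)
    (hD : ∀ a ∈ IsLocalRing.maximalIdeal R, D a ∈ IsLocalRing.maximalIdeal R)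
    {Y : Type} [AddCommGroup Y] [Module k Y] [Module R Y] [IsScalarTower k R Y]
    [Module.Finite R Y] {δY : Y →ₗ[k] Y} (hY : Leib D δY)
    [FiniteDimensional k (Y ⧸ (IsLocalRing.maximalIdeal R • ⊤ : Submodule R Y))] :
    ∃ (β : ℕ) (π : (Fin β → R) →ₗ[R] Y) (δF : (Fin β → R) →ₗ[k] (Fin β → R)), Leib D δF ∧
      (∀ v, π (δF v) = δY (π v)) ∧ MinCov π ∧
      (Matrix.of fun i j => ρ (δF (Pi.single j 1) i) : Matrix (Fin β) (Fin β) k).charpoly =
        (barOp hD hY).charpoly := by
  classical
  obtain ⟨β, π, hπ⟩ := exists_minCov (A := R) Y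
  choose a ha using fun j : Fin β => hπ.1 (δY (π (Pi.single j 1)))
  let δF : (Fin β → R) →ₗ[k] (Fin β → R) :=
    { toFun := fun v => (fun b => D (v b)) + ∑ j, v j • a j
      map_add' := fun v w => by
        have h1 : (fun b => D ((v + w) b)) = (fun b => D (v b)) + fun b => D (w b) := by
          funext b
          simp only [Pi.add_apply, map_add]
        rw [h1]
        simp only [Pi.add_apply, add_smul, Finset.sum_add_distrib]
        abel
      map_smul' := fun c v => by
        have h1 : (fun b => D ((c • v) b)) = c • fun b => D (v b) := by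
          funext b
          exact D.map_smul c (v b)
        rw [h1, RingHom.id_apply, smul_add, Finset.smul_sum]
        congr 1
        refine Finset.sum_congr rfl fun j _ => ?_
        rw [Pi.smul_apply, smul_assoc] }
  have hδ : ∀ v, δF v = (fun b => D (v b)) + ∑ j, v j • a j := fun v => rfl
  have hLF : Leib D δF := by
    intro r v
    rw [hδ, hδ, smul_add, Finset.smul_sum, ← add_assoc]
    congr 1
    · funext b
      simp only [Pi.add_apply, Pi.smul_apply, smul_eq_mul, Derivation.leibniz]
      ring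
    · refine Finset.sum_congr rfl fun j _ => ?_
      rw [Pi.smul_apply, smul_assoc]
  have hcomm : ∀ v, π (δF v) = δY (π v) := by
    intro v
    rw [hδ, map_add, map_sum, cov_sum π v, map_sum, cov_sum π (fun b => D (v b)),
      ← Finset.sum_add_distrib]
    refine Finset.sum_congr rfl fun j _ => ?_
    rw [map_smul, ha, hY]
  refine ⟨β, π, δF, hLF, hcomm, hπ, ?_⟩
  -- the isomorphism
  let φ : (Fin β → k) →ₗ[k] (Y ⧸ (IsLocalRing.maximalIdeal R • ⊤ : Submodule R Y)) :=
    { toFun := fun w => Submodule.Quotient.mk (π fun b => algebraMap k R (w b))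
      map_add' := fun v w => by
        rw [← Submodule.Quotient.mk_add, ← map_add]
        congr 2
        funext b
        simp only [Pi.add_apply, map_add]
      map_smul' := fun c v => by
        have h1 : (fun b => algebraMap k R ((c • v) b)) =
            (algebraMap k R c) • fun b => algebraMap k R (v b) := by
          funext b
          simp only [Pi.smul_apply, smul_eq_mul, map_mul]
        rw [h1, map_smul, algebraMap_smul]
        rfl }
  have hφ : ∀ w, φ w = Submodule.Quotient.mk (π fun b => algebraMap k R (w b)) := fun w => rfl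
  have hφρ : ∀ v : Fin β → R, φ (fun b => ρ (v b)) = Submodule.Quotient.mk (π v) := by
    intro v
    rw [hφ, eq_comm, ← sub_eq_zero, ← Submodule.Quotient.mk_sub, ← map_sub,
      Submodule.Quotient.mk_eq_zero, cov_mem hπ, mem_smul_top_iff]
    intro b
    exact sub_mem_max ρ (v b)
  have hinj : Function.Injective φ := by
    rw [injective_iff_map_eq_zero]
    intro w hw
    rw [hφ, Submodule.Quotient.mk_eq_zero, cov_mem hπ, mem_smul_top_iff] at hw
    funext b
    have h1 := (mem_max_iff ρ _).1 (hw b)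
    rw [AlgHom.commutes] at h1
    exact h1
  have hsurj : Function.Surjective φ := by
    intro y
    obtain ⟨y, rfl⟩ := Submodule.Quotient.mk_surjective _ y
    obtain ⟨v, rfl⟩ := hπ.1 y
    exact ⟨_, hφρ v⟩
  let e : (Fin β → k) ≃ₗ[k] (Y ⧸ (IsLocalRing.maximalIdeal R • ⊤ : Submodule R Y)) :=
    LinearEquiv.ofBijective φ ⟨hinj, hsurj⟩
  have he : ∀ w, e w = φ w := fun w => rfl
  let bs : Module.Basis (Fin β) k (Y ⧸ (IsLocalRing.maximalIdeal R • ⊤ : Submodule R Y)) :=
    Module.Basis.ofEquivFun e.symm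
  rw [← LinearMap.charpoly_toMatrix (barOp hD hY) bs]
  congr 1
  refine Matrix.ext fun i j => ?_
  rw [LinearMap.toMatrix_apply, Matrix.of_apply]
  have h1 : bs j = Submodule.Quotient.mk (π (Pi.single j 1)) := by
    rw [Module.Basis.coe_ofEquivFun, LinearEquiv.symm_symm]
    change e (Pi.single j 1) = _
    rw [he, hφ]
    congr 2
    funext b
    by_cases hb : b = j
    · subst hb
      simp
    · simp [Pi.single_eq_of_ne hb]
  have h2 : barOp hD hY (bs j) = e (fun b => ρ (δF (Pi.single j 1) b)) := by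
    rw [h1, barOp_mk, ← hcomm, he, hφρ]
  rw [h2, Module.Basis.ofEquivFun_repr_apply, LinearEquiv.symm_apply_apply]

/-- The eigenvalues on `K / m K`, `K` the kernel of a minimal cover of `Y`, are eigenvalues on
`Y / m Y` plus positive integers. Proof: `wt_subquotient'` for `W = R^β`, `e = 1`, `U = ker π`,
`q` the projection on `K / m K`; the eigenvalues on `W / m W` are those on `Y / m Y` (`π` induces
an isomorphism `W / m W ≃ Y / m Y`, because `ker π ≤ m W`). -/
theorem wt_kernel [IsNoetherianRing R] (hpos : Pos D)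
    {Y : Type} [AddCommGroup Y] [Module k Y] [Module R Y] [IsScalarTower k R Y]
    {δY : Y →ₗ[k] Y} (hY : Leib D δY) {β : ℕ} {π : (Fin β → R) →ₗ[R] Y} (hπ : MinCov π)
    {δF : (Fin β → R) →ₗ[k] (Fin β → R)} (hF : Leib D δF) (hcomm : ∀ v, π (δF v) = δY (π v))
    [FiniteDimensional k (Y ⧸ (IsLocalRing.maximalIdeal R • ⊤ : Submodule R Y))]
    [FiniteDimensional k ((LinearMap.ker π) ⧸ (IsLocalRing.maximalIdeal R • ⊤ :
      Submodule R (LinearMap.ker π)))]
    (hst : ∀ v ∈ LinearMap.ker π, δF v ∈ LinearMap.ker π) (K : Type) [Field K] [Algebra k K] {a : K}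
    (ha : a ∈ wt K (barOp (V := LinearMap.ker π) hpos.stable
      (leib_sOp (N := LinearMap.ker π) (h := hst) hF))) :
    ∃ b ∈ wt K (barOp hpos.stable hY), ∃ j : ℕ, 1 ≤ j ∧ a = b + j := by
  classical
  -- the map induced by the cover
  have hle : (IsLocalRing.maximalIdeal R • ⊤ : Submodule R (Fin β → R)) ≤
      Submodule.comap π (IsLocalRing.maximalIdeal R • ⊤ : Submodule R Y) :=
    fun v hv => (cov_mem hπ v).2 hv
  let p0 : ((Fin β → R) ⧸ (IsLocalRing.maximalIdeal R • ⊤ : Submodule R (Fin β → R))) →ₗ[R]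
      (Y ⧸ (IsLocalRing.maximalIdeal R • ⊤ : Submodule R Y)) :=
    Submodule.mapQ _ _ π hle
  let p : ((Fin β → R) ⧸ (IsLocalRing.maximalIdeal R • ⊤ : Submodule R (Fin β → R))) →ₗ[k]
      (Y ⧸ (IsLocalRing.maximalIdeal R • ⊤ : Submodule R Y)) := p0.restrictScalars k
  have hp : ∀ v, p (Submodule.Quotient.mk v) = Submodule.Quotient.mk (π v) := fun v => rfl
  have hpi : Function.Injective p := by
    rw [injective_iff_map_eq_zero]
    intro v hv
    obtain ⟨v, rfl⟩ := Submodule.Quotient.mk_surjective _ v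
    rw [hp, Submodule.Quotient.mk_eq_zero, cov_mem hπ] at hv
    rwa [Submodule.Quotient.mk_eq_zero]
  have : FiniteDimensional k
      ((Fin β → R) ⧸ (IsLocalRing.maximalIdeal R • ⊤ : Submodule R (Fin β → R))) :=
    FiniteDimensional.of_injective p hpi
  have h1 : LinearMap.ker π ≤ IsLocalRing.maximalIdeal R ^ 1 • (⊤ : Submodule R (Fin β → R)) := by
    rw [pow_one]
    exact hπ.2
  obtain ⟨b, hb, j, hj, hab⟩ := wt_subquotient' hpos hF 1 (LinearMap.ker π) h1 hst
    (δT := barOp (V := LinearMap.ker π) hpos.stable (leib_sOp (N := LinearMap.ker π) (h := hst) hF))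
    (Submodule.mkQ _) (Submodule.mkQ_surjective _) (fun u => rfl) K ha
  refine ⟨b, ?_, j, hj, hab⟩
  refine wt_of_injective K p hpi (fun u => ?_) hb
  obtain ⟨u, rfl⟩ := Submodule.Quotient.mk_surjective _ u
  rw [barOp_mk, hp, hcomm, hp, barOp_mk]

end

end Pool.Agent.Helper43.QH
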