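import Pool.Agent.Helper43.QH.Cover

set_option autoImplicit false
set_option linter.unusedSectionVars false

/-!
# QH-07: the character identity
-/

open Polynomial TensorProduct

namespace Pool.Agent.Helper43.QH

open Pool.Agent.Helper35.AR

section

variable {k R : Type} [Field k] [CharZero k] [CommRing R] [Algebra k R] {D : Derivation k R R}
  [IsLocalRing R] [IsNoetherianRing R]
variable {V W : Type} [AddCommGroup V] [Module k V] [Module R V] [IsScalarTower k R V]
  [FiniteDimensional k V] [AddCommGroup W] [Module k W] [Module R W] [IsScalarTower k R W]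
  [FiniteDimensional k W]

private theorem coeff_mul_ne {K : Type} [Field K] {x y : AddMonoidAlgebra ℤ K} {a : K}
    (h : (x * y).coeff a ≠ 0) : ∃ u v, x.coeff u ≠ 0 ∧ y.coeff v ≠ 0 ∧ a = u + v := by
  classical
  have h1 : a ∈ (x * y).coeff.support := Finsupp.mem_support_iff.2 h
  have h2 := AddMonoidAlgebra.support_coeff_mul_subset x y h1
  obtain ⟨u, hu, v, hv, huv⟩ := Finset.mem_add.1 h2
  exact ⟨u, v, Finsupp.mem_support_iff.1 hu, Finsupp.mem_support_iff.1 hv, huv.symm⟩

/-- composition with a linear map, on `Hom` spaces, as a `k`-linear map -/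
private def preComp {k R : Type} [Field k] [CommRing R] [Algebra k R]
    {F Y V : Type} [AddCommGroup F] [Module k F] [Module R F] [IsScalarTower k R F]
    [AddCommGroup Y] [Module k Y] [Module R Y] [IsScalarTower k R Y]
    [AddCommGroup V] [Module k V] [Module R V] [IsScalarTower k R V] (π : F →ₗ[R] Y) :
    (Y →ₗ[R] V) →ₗ[k] (F →ₗ[R] V) where
  toFun f := f.comp π
  map_add' f g := rfl
  map_smul' c f := rfl

@[simp]
private theorem preComp_apply {k R : Type} [Field k] [CommRing R] [Algebra k R]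
    {F Y V : Type} [AddCommGroup F] [Module k F] [Module R F] [IsScalarTower k R F]
    [AddCommGroup Y] [Module k Y] [Module R Y] [IsScalarTower k R Y]
    [AddCommGroup V] [Module k V] [Module R V] [IsScalarTower k R V] (π : F →ₗ[R] Y)
    (f : Y →ₗ[R] V) (v : F) : preComp (k := k) π f v = f (π v) := rfl

private theorem preComp_comm {k R : Type} [Field k] [CommRing R] [Algebra k R] {D : Derivation k R R}
    {F Y V : Type} [AddCommGroup F] [Module k F] [Module R F] [IsScalarTower k R F]
    [AddCommGroup Y] [Module k Y] [Module R Y] [IsScalarTower k R Y]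
    [AddCommGroup V] [Module k V] [Module R V] [IsScalarTower k R V] (π : F →ₗ[R] Y)
    {δF : F →ₗ[k] F} (hF : Leib D δF) {δY : Y →ₗ[k] Y} (hY : Leib D δY)
    {δV : V →ₗ[k] V} (hV : Leib D δV) (hcomm : ∀ v, π (δF v) = δY (π v)) (f : Y →ₗ[R] V) :
    preComp (k := k) π (homOp hY hV f) = homOp hF hV (preComp (k := k) π f) := by
  ext v
  rw [preComp_apply, homOp_apply, homOp_apply, preComp_apply, preComp_apply, hcomm]

private theorem preComp_inj {k R : Type} [Field k] [CommRing R] [Algebra k R]
    {F Y V : Type} [AddCommGroup F] [Module k F] [Module R F] [IsScalarTower k R F]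
    [AddCommGroup Y] [Module k Y] [Module R Y] [IsScalarTower k R Y]
    [AddCommGroup V] [Module k V] [Module R V] [IsScalarTower k R V] {π : F →ₗ[R] Y}
    (hπ : Function.Surjective π) :
    Function.Injective (preComp (k := k) (V := V) π) := by
  intro f g hfg
  exact (LinearMap.cancel_right hπ).1 hfg

private theorem preComp_exact {k R : Type} [Field k] [CommRing R] [Algebra k R]
    {F Y V : Type} [AddCommGroup F] [Module k F] [Module R F] [IsScalarTower k R F]
    [AddCommGroup Y] [Module k Y] [Module R Y] [IsScalarTower k R Y]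
    [AddCommGroup V] [Module k V] [Module R V] [IsScalarTower k R V] {π : F →ₗ[R] Y}
    (hπ : Function.Surjective π) :
    Function.Exact (preComp (k := k) (V := V) π)
      (preComp (k := k) (V := V) (LinearMap.ker π).subtype) := by
  intro g
  constructor
  · intro h
    have h1 : ∀ v ∈ LinearMap.ker π, g v = 0 := by
      intro v hv
      have := congrArg (fun f => f (⟨v, hv⟩ : LinearMap.ker π)) h
      simpa using this
    let e := π.quotKerEquivOfSurjective hπ
    refine ⟨((LinearMap.ker π).liftQ g (fun v hv => h1 v hv)).comp e.symm.toLinearMap, ?_⟩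
    apply LinearMap.ext
    intro v
    have h2 : e.symm (π v) = Submodule.Quotient.mk v := by
      rw [LinearEquiv.symm_apply_eq]
      rfl
    rw [preComp_apply, LinearMap.comp_apply, LinearEquiv.coe_coe, h2]
    exact Submodule.liftQ_apply _ _ _
  · rintro ⟨f, rfl⟩
    apply LinearMap.ext
    intro v
    rw [preComp_apply, preComp_apply, LinearMap.zero_apply, Submodule.subtype_apply,
      LinearMap.mem_ker.1 v.2, map_zero]

/-- the exact sequence of `Hom` spaces for a cover which has the extension property -/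
private theorem ch_hom_exact (K : Type) [Field K] [Algebra k K] {Y : Type} [AddCommGroup Y] [Module k Y]
    [Module R Y] [IsScalarTower k R Y] {δY : Y →ₗ[k] Y} (hY : Leib D δY) {δV : V →ₗ[k] V}
    (hV : Leib D δV) [FiniteDimensional k (Y →ₗ[R] V)] {β : ℕ} {π : (Fin β → R) →ₗ[R] Y}
    (hπ : Function.Surjective π) {δF : (Fin β → R) →ₗ[k] (Fin β → R)} (hF : Leib D δF)
    (hcomm : ∀ v, π (δF v) = δY (π v)) [FiniteDimensional k ((Fin β → R) →ₗ[R] V)]
    [FiniteDimensional k ((LinearMap.ker π) →ₗ[R] V)]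
    (hst : ∀ v ∈ LinearMap.ker π, δF v ∈ LinearMap.ker π)
    (hext : ∀ f : LinearMap.ker π →ₗ[R] V, ∃ g : (Fin β → R) →ₗ[R] V,
      ∀ v : LinearMap.ker π, g v = f v) :
    ch K (homOp hF hV) = ch K (homOp hY hV) +
      ch K (homOp (leib_sOp (N := LinearMap.ker π) (h := hst) hF) hV) := by
  refine ch_exact K (preComp (k := k) π) (preComp (k := k) (LinearMap.ker π).subtype)
    (preComp_inj hπ) ?_ (preComp_exact hπ) (preComp_comm π hF hY hV hcomm) ?_
  · intro f
    obtain ⟨g, hg⟩ := hext f
    refine ⟨g, ?_⟩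
    apply LinearMap.ext
    intro v
    exact hg v
  · intro g
    exact preComp_comm _ (leib_sOp (N := LinearMap.ker π) (h := hst) hF) hF hV (fun v => rfl) g

/-- support of the character of `Hom`: an eigenvalue on `Hom_R(Y, V)` is an eigenvalue on `V` minus
an eigenvalue on `Y / m Y` (use the cover of `exists_cover`: `Hom(Y, V)` embeds equivariantly into
`Hom(R^β, V)`, `ch_homFree`, and the support of a product is contained in the sum of supports). -/
theorem wt_hom (K : Type) [Field K] [Algebra k K] [IsAlgClosed K] (ρ : R →ₐ[k] k) (hpos : Pos D)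
    {Y : Type} [AddCommGroup Y] [Module k Y] [Module R Y] [IsScalarTower k R Y]
    [Module.Finite R Y] {δY : Y →ₗ[k] Y} (hY : Leib D δY) {δV : V →ₗ[k] V} (hV : Leib D δV)
    [FiniteDimensional k (Y ⧸ (IsLocalRing.maximalIdeal R • ⊤ : Submodule R Y))]
    [FiniteDimensional k (Y →ₗ[R] V)] {a : K} (ha : a ∈ wt K (homOp hY hV)) :
    ∃ v ∈ wt K δV, ∃ b ∈ wt K (barOp hpos.stable hY), a = v - b := by
  obtain ⟨β, π, δF, hF, hcomm, hπ, hchar⟩ := exists_cover ρ hpos.stable hY
  have hfin : FiniteDimensional k ((Fin β → R) →ₗ[R] V) := finite_hom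
  have h1 : a ∈ wt K (homOp hF hV) :=
    wt_of_injective K (preComp (k := k) π) (preComp_inj hπ.1) (preComp_comm π hF hY hV hcomm) ha
  rw [mem_wt_iff, ch_homFree K ρ hpos.stable hV hF, hchar] at h1
  obtain ⟨u, v, hu, hv, rfl⟩ := coeff_mul_ne h1
  rw [coeff_inv] at hu
  exact ⟨v, (mem_wt_iff K _ _).2 hv, -u, (mem_wt_iff K _ _).2 hu, by ring⟩

/-- One step: for a minimal cover with kernel `Z` the defects of `Y` and `Z` are opposite. Here
`defect Y = ch Hom(Y, V) ch W - ch Hom(Y, W) ch V`. Proof of `defect_support` below by induction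
on `n`: the statement is that every element `a` of the support of the defect of `Y` has the form
`v + w - b - j`, `v` an eigenvalue on `V`, `w` on `W`, `b` on `Y / m Y` and `j ≥ n` a natural
number. For `n = 0` (`j = 0`) use `wt_hom`. Step: take the cover `π : R^β → Y` of `exists_cover`,
`Z = ker π` with the restricted operator. By `EV` the sequences
`0 → Hom(Y, V) → Hom(R^β, V) → Hom(Z, V) → 0` are exact, so by `ch_exact` and `ch_homFree` the sum
of the defects of `Y` and `Z` is the defect of `R^β`, which is `inv b (ch V ch W - ch W ch V) = 0`.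
So the support for `Y` is the support for `Z`, to which the induction hypothesis applies, and
`wt_kernel` gives `b' = b + i`, `i ≥ 1`. The finiteness instances are `finite_hom`,
`finite_quot_max`. -/
theorem defect_support (K : Type) [Field K] [Algebra k K] [IsAlgClosed K] (ρ : R →ₐ[k] k)
    (hpos : Pos D) {δV : V →ₗ[k] V} (hV : Leib D δV) {δW : W →ₗ[k] W} (hW : Leib D δW) (n : ℕ) :
    ∀ (Y : Type) [AddCommGroup Y] [Module k Y] [Module R Y] [IsScalarTower k R Y]
    [Module.Finite R Y] (δY : Y →ₗ[k] Y) (hY : Leib D δY)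
    [FiniteDimensional k (Y ⧸ (IsLocalRing.maximalIdeal R • ⊤ : Submodule R Y))]
    [FiniteDimensional k (Y →ₗ[R] V)] [FiniteDimensional k (Y →ₗ[R] W)],
    EV R V n Y → EV R W n Y → ∀ a : K,
    (ch K (homOp hY hV) * ch K δW - ch K (homOp hY hW) * ch K δV).coeff a ≠ 0 →
    ∃ v ∈ wt K δV, ∃ w ∈ wt K δW, ∃ b ∈ wt K (barOp hpos.stable hY), ∃ j : ℕ, n ≤ j ∧
      a = v + w - b - j := by
  induction n with
  | zero =>
    intro Y _ _ _ _ _ δY hY _ _ _ _ _ a ha
    rw [AddMonoidAlgebra.coeff_sub, Finsupp.sub_apply, sub_ne_zero] at ha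
    by_cases h0 : (ch K (homOp hY hV) * ch K δW).coeff a = 0
    · rw [h0] at ha
      obtain ⟨u, v, hu, hv, rfl⟩ := coeff_mul_ne ha.symm
      obtain ⟨w, hw, b, hb, rfl⟩ := wt_hom K ρ hpos hY hW ((mem_wt_iff K _ _).2 hu)
      exact ⟨v, (mem_wt_iff K _ _).2 hv, w, hw, b, hb, 0, le_rfl, by push_cast; ring⟩
    · obtain ⟨u, w, hu, hw, rfl⟩ := coeff_mul_ne h0
      obtain ⟨v, hv, b, hb, rfl⟩ := wt_hom K ρ hpos hY hV ((mem_wt_iff K _ _).2 hu)
      exact ⟨v, hv, w, (mem_wt_iff K _ _).2 hw, b, hb, 0, le_rfl, by push_cast; ring⟩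
  | succ n ih =>
    intro Y _ _ _ _ _ δY hY _ _ _ hEV hEW a ha
    obtain ⟨β, π, δF, hF, hcomm, hπ, hchar⟩ := exists_cover ρ hpos.stable hY
    have hst : ∀ v ∈ LinearMap.ker π, δF v ∈ LinearMap.ker π := by
      intro v hv
      rw [LinearMap.mem_ker, hcomm, LinearMap.mem_ker.1 hv, map_zero]
    obtain ⟨hextV, hEV'⟩ := hEV β π hπ.1
    obtain ⟨hextW, hEW'⟩ := hEW β π hπ.1
    have hZ : Leib D (sOp (LinearMap.ker π) δF hst) := leib_sOp hF
    have f1 : FiniteDimensional k ((Fin β → R) →ₗ[R] V) := finite_hom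
    have f2 : FiniteDimensional k ((Fin β → R) →ₗ[R] W) := finite_hom
    have f3 : FiniteDimensional k ((LinearMap.ker π) →ₗ[R] V) := finite_hom
    have f4 : FiniteDimensional k ((LinearMap.ker π) →ₗ[R] W) := finite_hom
    have f5 : FiniteDimensional k ((LinearMap.ker π) ⧸ (IsLocalRing.maximalIdeal R • ⊤ :
      Submodule R (LinearMap.ker π))) := finite_quot_max ρ
    have e1 := ch_hom_exact K hY hV hπ.1 hF hcomm hst hextV
    have e2 := ch_hom_exact K hY hW hπ.1 hF hcomm hst hextW
    rw [ch_homFree K ρ hpos.stable hV hF] at e1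
    rw [ch_homFree K ρ hpos.stable hW hF] at e2
    have e3 : ch K (homOp hZ hV) * ch K δW - ch K (homOp hZ hW) * ch K δV =
        -(ch K (homOp hY hV) * ch K δW - ch K (homOp hY hW) * ch K δV) := by
      linear_combination (ch K δV) * e2 - (ch K δW) * e1
    have h1 : (ch K (homOp hZ hV) * ch K δW - ch K (homOp hZ hW) * ch K δV).coeff a ≠ 0 := by
      rw [e3, AddMonoidAlgebra.coeff_neg, Finsupp.neg_apply]
      exact neg_ne_zero.2 ha
    obtain ⟨v, hv, w, hw, b', hb', j, hj, rfl⟩ := ih (LinearMap.ker π) _ hZ hEV' hEW' a h1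
    obtain ⟨b, hb, i, hi, rfl⟩ := wt_kernel hpos hY hπ hF hcomm hst K hb'
    exact ⟨v, hv, w, hw, b, hb, i + j, by omega, by push_cast; ring⟩

/-- The character identity. Proof: by `defect_support` for all `n`, an element `a` of the support
of the defect is `v + w - b - j` with `j` arbitrarily large and `v`, `w`, `b` in fixed finite sets
(`wt_finite`): impossible in characteristic zero. -/
theorem ch_hom_mul (K : Type) [Field K] [Algebra k K] [IsAlgClosed K] (ρ : R →ₐ[k] k)
    (hpos : Pos D) {δV : V →ₗ[k] V} (hV : Leib D δV) {δW : W →ₗ[k] W} (hW : Leib D δW)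
    {Y : Type} [AddCommGroup Y] [Module k Y] [Module R Y] [IsScalarTower k R Y]
    [Module.Finite R Y] {δY : Y →ₗ[k] Y} (hY : Leib D δY)
    [FiniteDimensional k (Y →ₗ[R] V)] [FiniteDimensional k (Y →ₗ[R] W)]
    (hYV : ∀ n, EV R V n Y) (hYW : ∀ n, EV R W n Y) :
    ch K (homOp hY hV) * ch K δW = ch K (homOp hY hW) * ch K δV := by
  classical
  by_contra hne
  have hne' : ch K (homOp hY hV) * ch K δW - ch K (homOp hY hW) * ch K δV ≠ 0 :=
    sub_ne_zero.2 hne
  have h1 : ∃ a, (ch K (homOp hY hV) * ch K δW - ch K (homOp hY hW) * ch K δV).coeff a ≠ 0 := by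
    by_contra h
    push Not at h
    apply hne'
    ext a
    exact h a
  obtain ⟨a, ha⟩ := h1
  have f5 : FiniteDimensional k (Y ⧸ (IsLocalRing.maximalIdeal R • ⊤ : Submodule R Y)) :=
    finite_quot_max ρ
  have hK : CharZero K := charZero_of_injective_algebraMap (algebraMap k K).injective
  let T : Set K := Set.image2 (fun (x : K × K) (b : K) => x.1 + x.2 - b - a)
    (wt K δV ×ˢ wt K δW) (wt K (barOp hpos.stable hY))
  have hT : T.Finite :=
    Set.Finite.image2 _ ((wt_finite K δV).prod (wt_finite K δW)) (wt_finite K _)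
  have hS : {j : ℕ | (j : K) ∈ T}.Finite :=
    Set.Finite.preimage (Nat.cast_injective.injOn) hT
  obtain ⟨n, hn⟩ := hS.bddAbove
  obtain ⟨v, hv, w, hw, b, hb, j, hj, hab⟩ :=
    defect_support K ρ hpos hV hW (n + 1) Y δY hY (hYV _) (hYW _) a ha
  have h2 : j ∈ {j : ℕ | (j : K) ∈ T} := by
    refine ⟨(v, w), ⟨hv, hw⟩, b, hb, ?_⟩
    change v + w - b - a = (j : K)
    rw [hab]
    ring
  have h3 := hn h2
  omega

end

end Pool.Agent.Helper43.QH
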