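import Pool.Agent.Helper35.AR.Core

set_option autoImplicit false
set_option linter.unusedSectionVars false

/-!
# Operators compatible with a derivation, and characters

Project QH (MP_c0f807_al): the Auslander-Reiten conjecture over quasi-homogeneous Gorenstein rings.
`k` is a field, `R` a commutative `k`-algebra with a `k`-derivation `D`, `K` an algebraically
closed extension field of `k`.
-/

open Polynomial TensorProduct

namespace Pool.Agent.Helper43.QH

section ops

variable {k R : Type} [Field k] [CommRing R] [Algebra k R]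

/-- `Leib D δ`: the `k`-linear operator `δ` on the `R`-module `V` satisfies the Leibniz rule with
respect to the derivation `D` of `R`. -/
def Leib (D : Derivation k R R) {V : Type} [AddCommGroup V] [Module k V] [Module R V]
    (δ : V →ₗ[k] V) : Prop :=
  ∀ (r : R) (v : V), δ (r • v) = D r • v + r • δ v

/-- The maximal ideal is generated by eigenvectors of `D` with positive integer eigenvalues. -/
def Pos (D : Derivation k R R) [IsLocalRing R] : Prop :=
  ∃ (s : ℕ) (y : Fin s → R) (c : Fin s → ℕ), (∀ i, 0 < c i) ∧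
    Ideal.span (Set.range y) = IsLocalRing.maximalIdeal R ∧ ∀ i, D (y i) = c i • y i

variable {D : Derivation k R R}
variable {V W Y : Type} [AddCommGroup V] [Module k V] [Module R V] [IsScalarTower k R V]
  [AddCommGroup W] [Module k W] [Module R W] [IsScalarTower k R W]
  [AddCommGroup Y] [Module k Y] [Module R Y] [IsScalarTower k R Y]

/-- The operator `f ↦ δV ∘ f - f ∘ δY` on `Hom_R(Y, V)`. -/
def homOp {δY : Y →ₗ[k] Y} {δV : V →ₗ[k] V} (hY : Leib D δY) (hV : Leib D δV) :
    (Y →ₗ[R] V) →ₗ[k] (Y →ₗ[R] V) where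
  toFun f :=
    { toFun := fun y => δV (f y) - f (δY y)
      map_add' := fun a b => by simp only [map_add]; abel
      map_smul' := fun r y => by
        rw [map_smul, hV, hY, map_add, map_smul, map_smul, RingHom.id_apply, smul_sub]
        abel }
  map_add' f g := by
    ext y
    simp only [LinearMap.add_apply, map_add, LinearMap.coe_mk, AddHom.coe_mk]
    abel
  map_smul' a f := by
    ext y
    simp only [LinearMap.smul_apply, map_smul, LinearMap.coe_mk, AddHom.coe_mk, RingHom.id_apply,
      smul_sub]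

@[simp]
theorem homOp_apply {δY : Y →ₗ[k] Y} {δV : V →ₗ[k] V} (hY : Leib D δY) (hV : Leib D δV)
    (f : Y →ₗ[R] V) (y : Y) : homOp hY hV f y = δV (f y) - f (δY y) := rfl

theorem leib_homOp {δY : Y →ₗ[k] Y} {δV : V →ₗ[k] V} (hY : Leib D δY) (hV : Leib D δV) :
    Leib D (homOp hY hV) := by
  intro r f
  ext y
  simp only [homOp_apply, LinearMap.smul_apply, LinearMap.add_apply, hV r (f y), smul_sub]
  abel

/-- The operator on a quotient by a stable submodule. -/
def qOp (N : Submodule R V) (δ : V →ₗ[k] V) (h : ∀ v ∈ N, δ v ∈ N) : (V ⧸ N) →ₗ[k] (V ⧸ N) :=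
  (Submodule.Quotient.restrictScalarsEquiv k N).toLinearMap ∘ₗ
    ((N.restrictScalars k).mapQ (N.restrictScalars k) δ (fun v hv => h v hv)) ∘ₗ
    (Submodule.Quotient.restrictScalarsEquiv k N).symm.toLinearMap

@[simp]
theorem qOp_mk (N : Submodule R V) (δ : V →ₗ[k] V) (h : ∀ v ∈ N, δ v ∈ N) (v : V) :
    qOp N δ h (Submodule.Quotient.mk v) = Submodule.Quotient.mk (δ v) := rfl

theorem leib_qOp {N : Submodule R V} {δ : V →ₗ[k] V} {h : ∀ v ∈ N, δ v ∈ N} (hδ : Leib D δ) :
    Leib D (qOp N δ h) := by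
  intro r v
  obtain ⟨v, rfl⟩ := Submodule.Quotient.mk_surjective _ v
  rw [← Submodule.Quotient.mk_smul, qOp_mk, hδ, qOp_mk, Submodule.Quotient.mk_add]
  rfl

/-- The operator on a stable submodule. -/
def sOp (N : Submodule R V) (δ : V →ₗ[k] V) (h : ∀ v ∈ N, δ v ∈ N) : N →ₗ[k] N where
  toFun v := ⟨δ v, h v v.2⟩
  map_add' a b := by ext; simp
  map_smul' a v := by
    ext
    change δ (a • (v : V)) = a • δ (v : V)
    rw [map_smul]

@[simp]
theorem coe_sOp (N : Submodule R V) (δ : V →ₗ[k] V) (h : ∀ v ∈ N, δ v ∈ N) (v : N) :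
    (sOp N δ h v : V) = δ v := rfl

theorem leib_sOp {N : Submodule R V} {δ : V →ₗ[k] V} {h : ∀ v ∈ N, δ v ∈ N} (hδ : Leib D δ) :
    Leib D (sOp N δ h) := by
  intro r v
  ext
  exact hδ r v

/-- A derivation is a Leibniz operator on the ring. -/
theorem leib_D : Leib D (D : R →ₗ[k] R) := by
  intro r v
  change D (r * v) = D r * v + r * D v
  rw [Derivation.leibniz, smul_eq_mul, smul_eq_mul]
  ring

/-- Multiples of a stable ideal of a stable submodule are stable. -/
theorem stable_smul {I : Ideal R} (hI : ∀ a ∈ I, D a ∈ I) {δ : V →ₗ[k] V} (hδ : Leib D δ)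
    {U : Submodule R V} (hU : ∀ v ∈ U, δ v ∈ U) : ∀ v ∈ I • U, δ v ∈ I • U := by
  intro v hv
  refine Submodule.smul_induction_on (p := fun v => δ v ∈ I • U) hv ?_ ?_
  · intro r hr n hn
    rw [hδ]
    exact add_mem (Submodule.smul_mem_smul (hI r hr) hn) (Submodule.smul_mem_smul hr (hU n hn))
  · intro a b ha hb
    rw [map_add]
    exact add_mem ha hb

theorem stable_smul_top {I : Ideal R} (hI : ∀ a ∈ I, D a ∈ I) {δ : V →ₗ[k] V} (hδ : Leib D δ) :
    ∀ v ∈ (I • ⊤ : Submodule R V), δ v ∈ (I • ⊤ : Submodule R V) :=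
  stable_smul hI hδ (fun _ _ => trivial)

/-- An ideal generated by eigenvectors is stable. -/
theorem stable_ofList {xs : List R} (h : ∀ x ∈ xs, ∃ w : ℕ, D x = w • x) :
    ∀ a ∈ Ideal.ofList xs, D a ∈ Ideal.ofList xs := by
  intro a ha
  refine Submodule.span_induction (p := fun a _ => D a ∈ Ideal.ofList xs) ?_ ?_ ?_ ?_ ha
  · intro x hx
    obtain ⟨w, hw⟩ := h x hx
    rw [hw]
    exact Submodule.smul_of_tower_mem _ w (Ideal.subset_span hx)
  · rw [map_zero]
    exact zero_mem _
  · intro a b _ _ ha hb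
    rw [map_add]
    exact add_mem ha hb
  · intro r a ha' ha
    rw [smul_eq_mul, Derivation.leibniz]
    exact add_mem (Ideal.mul_mem_left _ _ ha) (Ideal.mul_mem_right _ _ ha')

theorem Pos.stable [IsLocalRing R] (h : Pos D) :
    ∀ a ∈ IsLocalRing.maximalIdeal R, D a ∈ IsLocalRing.maximalIdeal R := by
  obtain ⟨s, y, c, hc, hy, hD⟩ := h
  intro a ha
  rw [← hy] at ha ⊢
  refine Submodule.span_induction (p := fun a _ => D a ∈ Ideal.span (Set.range y)) ?_ ?_ ?_ ?_ ha
  · rintro _ ⟨i, rfl⟩
    rw [hD]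
    exact Submodule.smul_of_tower_mem _ (c i) (Ideal.subset_span ⟨i, rfl⟩)
  · rw [map_zero]
    exact zero_mem _
  · intro a b _ _ ha hb
    rw [map_add]
    exact add_mem ha hb
  · intro r a ha' ha
    rw [smul_eq_mul, Derivation.leibniz]
    exact add_mem (Ideal.mul_mem_left _ _ ha) (Ideal.mul_mem_right _ _ ha')

/-- The operator on the reduction of a module modulo a stable ideal. -/
def barOp {I : Ideal R} (hI : ∀ a ∈ I, D a ∈ I) {δ : V →ₗ[k] V} (hδ : Leib D δ) :
    (V ⧸ (I • ⊤ : Submodule R V)) →ₗ[k] (V ⧸ (I • ⊤ : Submodule R V)) :=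
  qOp (I • ⊤ : Submodule R V) δ (stable_smul_top hI hδ)

@[simp]
theorem barOp_mk {I : Ideal R} (hI : ∀ a ∈ I, D a ∈ I) {δ : V →ₗ[k] V} (hδ : Leib D δ) (v : V) :
    barOp hI hδ (Submodule.Quotient.mk v) = Submodule.Quotient.mk (δ v) := rfl

theorem leib_barOp {I : Ideal R} (hI : ∀ a ∈ I, D a ∈ I) {δ : V →ₗ[k] V} (hδ : Leib D δ) :
    Leib D (barOp hI hδ) := leib_qOp hδ

/-- The operator induced by the derivation on the quotient by a stable ideal. -/
def rOp {I : Ideal R} (hI : ∀ a ∈ I, D a ∈ I) : (R ⧸ I) →ₗ[k] (R ⧸ I) :=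
  qOp (V := R) I (D : R →ₗ[k] R) hI

@[simp]
theorem rOp_mk {I : Ideal R} (hI : ∀ a ∈ I, D a ∈ I) (a : R) :
    rOp hI (Ideal.Quotient.mk I a) = Ideal.Quotient.mk I (D a) := rfl

theorem leib_rOp {I : Ideal R} (hI : ∀ a ∈ I, D a ∈ I) : Leib D (rOp hI) :=
  leib_qOp (V := R) leib_D

end ops

section char

variable {k : Type} [Field k] (K : Type) [Field K] [Algebra k K]

/-- The character of a polynomial over `k`: the sum of the basis elements of its roots in `K`, in
the group ring of the additive group of `K`. -/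
noncomputable def chp (P : k[X]) : AddMonoidAlgebra ℤ K :=
  ((P.aroots K).map fun a => AddMonoidAlgebra.single a (1 : ℤ)).sum

/-- The character of an operator on a finite dimensional space: the sum of its eigenvalues in `K`,
in the group ring of the additive group of `K`. -/
noncomputable def ch {V : Type} [AddCommGroup V] [Module k V] [FiniteDimensional k V]
    (f : V →ₗ[k] V) : AddMonoidAlgebra ℤ K :=
  chp K f.charpoly

/-- The set of eigenvalues in `K`. -/
noncomputable def wt {V : Type} [AddCommGroup V] [Module k V] [FiniteDimensional k V]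
    (f : V →ₗ[k] V) : Set K :=
  {a | a ∈ f.charpoly.aroots K}

/-- The involution of the group ring induced by negation. -/
noncomputable def inv : AddMonoidAlgebra ℤ K →+* AddMonoidAlgebra ℤ K :=
  AddMonoidAlgebra.mapDomainRingHom ℤ (-(AddMonoidHom.id K))

end char

end Pool.Agent.Helper43.QH
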