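import Pool.Agent.Helper43.QH.Defs

set_option autoImplicit false
set_option linter.unusedSectionVars false

/-!
# Finiteness lemmas (project QH)
-/

open Polynomial TensorProduct

namespace Pool.Agent.Helper43.QH

variable {k R : Type} [Field k] [CommRing R] [Algebra k R]
variable {V W Y : Type} [AddCommGroup V] [Module k V] [Module R V] [IsScalarTower k R V]
  [AddCommGroup Y] [Module k Y] [Module R Y] [IsScalarTower k R Y]

theorem finite_hom [Module.Finite R Y] [FiniteDimensional k V] :
    FiniteDimensional k (Y →ₗ[R] V) := by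
  obtain ⟨n, π, hπ⟩ := Module.Finite.exists_fin' R Y
  let e : ((Fin n → R) →ₗ[R] V) →ₗ[k] (Fin n → V) :=
    { toFun := fun f i => f (Pi.single i 1)
      map_add' := fun f g => rfl
      map_smul' := fun a f => rfl }
  let c : (Y →ₗ[R] V) →ₗ[k] (Fin n → V) :=
    { toFun := fun f i => f (π (Pi.single i 1))
      map_add' := fun f g => rfl
      map_smul' := fun a f => rfl }
  refine Module.Finite.of_injective c ?_
  intro f g hfg
  have h1 : f.comp π = g.comp π := by
    refine LinearMap.pi_ext' fun i => ?_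
    apply LinearMap.ext_ring
    exact congrFun hfg i
  exact (LinearMap.cancel_right hπ).1 h1

/-- finite generation over `k` of the reduction of a finitely generated module -/
theorem finite_quot (I : Ideal R) [FiniteDimensional k (R ⧸ I)] [Module.Finite R Y] :
    FiniteDimensional k (Y ⧸ (I • ⊤ : Submodule R Y)) := by
  have h1 : Module.Finite (R ⧸ I) (Y ⧸ (I • ⊤ : Submodule R Y)) :=
    Module.Finite.of_restrictScalars_finite R _ _
  have h2 : IsScalarTower k (R ⧸ I) (Y ⧸ (I • ⊤ : Submodule R Y)) := by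
    refine ⟨fun a r y => ?_⟩
    obtain ⟨r, rfl⟩ := Ideal.Quotient.mk_surjective r
    obtain ⟨y, rfl⟩ := Submodule.Quotient.mk_surjective _ y
    change (Submodule.Quotient.mk ((a • r) • y) : Y ⧸ (I • ⊤ : Submodule R Y)) =
      a • Submodule.Quotient.mk (r • y)
    rw [smul_assoc]
    rfl
  exact Module.Finite.trans (R ⧸ I) _

variable [IsLocalRing R]

theorem ker_eq (ρ : R →ₐ[k] k) : RingHom.ker ρ = IsLocalRing.maximalIdeal R := by
  have h1 : Function.Surjective ρ := fun a => ⟨algebraMap k R a, by simp⟩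
  exact IsLocalRing.eq_maximalIdeal (RingHom.ker_isMaximal_of_surjective ρ h1)

theorem mem_max_iff (ρ : R →ₐ[k] k) (r : R) : r ∈ IsLocalRing.maximalIdeal R ↔ ρ r = 0 := by
  rw [← ker_eq ρ]
  exact RingHom.mem_ker

theorem sub_mem_max (ρ : R →ₐ[k] k) (r : R) :
    r - algebraMap k R (ρ r) ∈ IsLocalRing.maximalIdeal R := by
  rw [mem_max_iff ρ]
  simp

theorem finite_residue (ρ : R →ₐ[k] k) :
    FiniteDimensional k (R ⧸ IsLocalRing.maximalIdeal R) := by
  have h1 : Function.Surjective (Algebra.linearMap k (R ⧸ IsLocalRing.maximalIdeal R)) := by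
    intro x
    obtain ⟨r, rfl⟩ := Ideal.Quotient.mk_surjective x
    refine ⟨ρ r, ?_⟩
    change Ideal.Quotient.mk _ (algebraMap k R (ρ r)) = _
    rw [Ideal.Quotient.eq, ← neg_mem_iff, neg_sub]
    exact sub_mem_max ρ r
  exact Module.Finite.of_surjective _ h1

theorem finite_quot_max (ρ : R →ₐ[k] k) [Module.Finite R Y] :
    FiniteDimensional k (Y ⧸ (IsLocalRing.maximalIdeal R • ⊤ : Submodule R Y)) :=
  haveI := finite_residue ρ
  finite_quot _

/-- A module which is finite dimensional over `k` is killed by a power of the maximal ideal. -/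
theorem exists_pow_smul_eq_bot [FiniteDimensional k V] :
    ∃ N : ℕ, (IsLocalRing.maximalIdeal R ^ N • ⊤ : Submodule R V) = ⊥ := by
  have hRV : Module.Finite R V := Module.Finite.of_restrictScalars_finite k R V
  have hA : IsArtinian R V := isArtinian_of_tower k inferInstance
  let f : ℕ →o (Submodule R V)ᵒᵈ :=
    ⟨fun n => OrderDual.toDual (IsLocalRing.maximalIdeal R ^ n • ⊤ : Submodule R V),
      fun a b hab => Submodule.smul_mono_left (Ideal.pow_le_pow_right hab)⟩
  obtain ⟨n, hn⟩ := IsArtinian.monotone_stabilizes f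
  refine ⟨n, ?_⟩
  have h1 : (IsLocalRing.maximalIdeal R ^ n • ⊤ : Submodule R V) =
      IsLocalRing.maximalIdeal R ^ (n + 1) • ⊤ := hn (n + 1) (Nat.le_succ n)
  have hN : IsNoetherian R V := isNoetherian_of_tower k inferInstance
  refine Submodule.eq_bot_of_le_smul_of_le_jacobson_bot (IsLocalRing.maximalIdeal R) _
    (IsNoetherian.noetherian _) ?_ ?_
  · conv_lhs => rw [h1, pow_succ', Submodule.mul_smul]
  · rw [IsLocalRing.jacobson_eq_maximalIdeal _ bot_ne_top]

end Pool.Agent.Helper43.QH
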