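import Pool.Agent.Helper43.QH.Tens

set_option autoImplicit false
set_option linter.unusedSectionVars false

/-!
# QH-15: modules that are free at the associated primes
-/

open TensorProduct

namespace Pool.Agent.Helper43.QH

section

variable {R : Type} [CommRing R]

/-- `GenFree R M`: for every associated prime `p` of the ring, some multiple `s • id_M` with `s ∉ p`
is in the image of `M^* ⊗ M`. -/
def GenFree (R M : Type) [CommRing R] [AddCommGroup M] [Module R M] : Prop :=
  ∀ p ∈ associatedPrimes R R, ∃ s ∉ p, ∃ w : XX R M, phi R M w = s • LinearMap.id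

variable {M : Type} [AddCommGroup M] [Module R M]

/-- Key computation: if `phi z = 0` and `phi w = s • id` then `s * psi z e = 0` for all `e`. Proof:
write `z = ∑ f_i ⊗ m_i`, `w = ∑ θ_j ⊗ n_j` (`TensorProduct.exists_sum_tmul` or similar), so
`∑ f_i(x) m_i = 0` and `s x = ∑ θ_j(x) n_j` for all `x`. Then
`s psi z e = ∑_i f_i (e (s m_i)) = ∑_i f_i (e (∑_j θ_j(m_i) n_j))
= ∑_j θ_j (∑_i f_i (e n_j) m_i) = 0`. -/
theorem smul_psi_eq_zero {z w : XX R M} {s : R} (hz : phi R M z = 0)
    (hw : phi R M w = s • LinearMap.id) (e : M →ₗ[R] M) : s * psi R M z e = 0 := by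
  obtain ⟨a, f, m, rfl⟩ := exists_sum_tm z
  obtain ⟨b, θ, n, rfl⟩ := exists_sum_tm w
  have hz' : ∀ x : M, ∑ i, f i x • m i = 0 := by
    intro x
    have h := congrArg (fun g : M →ₗ[R] M => g x) hz
    simpa only [map_sum, LinearMap.sum_apply, phi_tm, LinearMap.zero_apply] using h
  have hw' : ∀ x : M, ∑ j, θ j x • n j = s • x := by
    intro x
    have h := congrArg (fun g : M →ₗ[R] M => g x) hw
    simpa only [map_sum, LinearMap.sum_apply, phi_tm, LinearMap.smul_apply,
      LinearMap.id_apply] using h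
  have h1 : psi R M (∑ i, tm (f i) (m i)) e = ∑ i, f i (e (m i)) := by
    rw [map_sum, LinearMap.sum_apply]
    exact Finset.sum_congr rfl fun i _ => psi_tm _ _ _
  have h2 : ∀ i, s * f i (e (m i)) = ∑ j, θ j (m i) * f i (e (n j)) := by
    intro i
    calc s * f i (e (m i)) = f i (e (s • m i)) := by
          rw [map_smul, map_smul, smul_eq_mul]
      _ = f i (e (∑ j, θ j (m i) • n j)) := by rw [hw' (m i)]
      _ = ∑ j, θ j (m i) * f i (e (n j)) := by
          rw [map_sum, map_sum]
          exact Finset.sum_congr rfl fun j _ => by rw [map_smul, map_smul, smul_eq_mul]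
  rw [h1, Finset.mul_sum, Finset.sum_congr rfl (fun i _ => h2 i), Finset.sum_comm]
  refine Finset.sum_eq_zero fun j _ => ?_
  calc ∑ i, θ j (m i) * f i (e (n j)) = θ j (∑ i, f i (e (n j)) • m i) := by
        rw [map_sum]
        exact Finset.sum_congr rfl fun i _ => by rw [map_smul, smul_eq_mul, mul_comm]
    _ = 0 := by rw [hz' (e (n j)), map_zero]

/-- Proof: if `a = psi z e ≠ 0` then the annihilator of `a` is contained in an associated prime `p`
of `R` (Noetherian: `exists_le_isAssociatedPrime_of_isNoetherianRing` or similar), but it contains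
an element outside `p` by `smul_psi_eq_zero`. -/
theorem psi_eq_zero_of_phi [IsNoetherianRing R] (h : GenFree R M) {z : XX R M}
    (hz : phi R M z = 0) : psi R M z = 0 := by
  ext e
  rw [LinearMap.zero_apply]
  by_contra ha
  obtain ⟨P, hP, hle⟩ := exists_le_isAssociatedPrime_of_isNoetherianRing R (psi R M z e) ha
  obtain ⟨s, hs, w, hw⟩ := h P hP
  apply hs
  apply hle
  rw [Submodule.mem_colon_singleton, Submodule.mem_bot, smul_eq_mul]
  exact smul_psi_eq_zero hz hw e

/-- The property passes to syzygies. Proof: let `π : R^m → M` be surjective, `s`, `w` for `M`,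
`w = ∑ f_i ⊗ m_i`, `m_i = π u_i`. Put `τ v = s v - ∑ f_i(π v) u_i ∈ ker π`; on `ker π`, `τ v = s v`,
and `τ v = ∑_j v_j τ(e_j)`. -/
theorem genFree_ker (h : GenFree R M) {m : ℕ} (π : (Fin m → R) →ₗ[R] M)
    (hπ : Function.Surjective π) : GenFree R (LinearMap.ker π) := by
  intro p hp
  obtain ⟨s, hs, w, hw⟩ := h p hp
  obtain ⟨a, f, n, rfl⟩ := exists_sum_tm w
  have hw' : ∀ x : M, ∑ i, f i x • n i = s • x := by
    intro x
    have h := congrArg (fun g : M →ₗ[R] M => g x) hw
    simpa only [map_sum, LinearMap.sum_apply, phi_tm, LinearMap.smul_apply,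
      LinearMap.id_apply] using h
  choose u hu using fun i => hπ (n i)
  let τ₀ : (Fin m → R) →ₗ[R] (Fin m → R) :=
    s • LinearMap.id - ∑ i, ((f i).comp π).smulRight (u i)
  have hτ₀ : ∀ v, τ₀ v = s • v - ∑ i, f i (π v) • u i := by
    intro v
    simp [τ₀, LinearMap.sum_apply]
  have hk : ∀ v, τ₀ v ∈ LinearMap.ker π := by
    intro v
    rw [LinearMap.mem_ker, hτ₀, map_sub, map_smul, map_sum,
      Finset.sum_congr rfl (fun i _ => by rw [map_smul, hu i]), hw' (π v), sub_self]
  let τ : (Fin m → R) →ₗ[R] LinearMap.ker π := τ₀.codRestrict (LinearMap.ker π) hk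
  refine ⟨s, hs, ∑ j, tm ((LinearMap.proj j).comp (LinearMap.ker π).subtype)
    (τ (Pi.single j 1)), ?_⟩
  ext x : 1
  rw [map_sum, LinearMap.sum_apply, LinearMap.smul_apply, LinearMap.id_apply,
    Finset.sum_congr rfl (fun j _ => phi_tm _ _ _)]
  have h1 : ∑ j, ((LinearMap.proj j : (Fin m → R) →ₗ[R] R).comp (LinearMap.ker π).subtype) x •
      τ (Pi.single j 1) = τ (x : Fin m → R) := by
    have h2 : (x : Fin m → R) = ∑ j, (x : Fin m → R) j • Pi.single j (1 : R) := by
      ext l
      simp [Finset.sum_apply, Pi.single_apply]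
    conv_rhs => rw [h2]
    rw [map_sum]
    exact Finset.sum_congr rfl fun j _ => by rw [map_smul]; rfl
  rw [h1]
  apply Subtype.ext
  change τ₀ (x : Fin m → R) = s • (x : Fin m → R)
  have h3 : π (x : Fin m → R) = 0 := x.2
  rw [hτ₀, h3]
  simp

theorem genFree_congr {M' : Type} [AddCommGroup M'] [Module R M'] (e : M ≃ₗ[R] M')
    (h : GenFree R M) : GenFree R M' := by
  intro p hp
  obtain ⟨s, hs, w, hw⟩ := h p hp
  obtain ⟨a, f, n, rfl⟩ := exists_sum_tm w
  have hw' : ∀ x : M, ∑ i, f i x • n i = s • x := by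
    intro x
    have h := congrArg (fun g : M →ₗ[R] M => g x) hw
    simpa only [map_sum, LinearMap.sum_apply, phi_tm, LinearMap.smul_apply,
      LinearMap.id_apply] using h
  refine ⟨s, hs, ∑ i, tm ((f i).comp e.symm.toLinearMap) (e (n i)), ?_⟩
  ext x : 1
  rw [map_sum, LinearMap.sum_apply, LinearMap.smul_apply, LinearMap.id_apply,
    Finset.sum_congr rfl (fun j _ => phi_tm _ _ _)]
  have h1 := congrArg e (hw' (e.symm x))
  rw [map_sum, map_smul, LinearEquiv.apply_symm_apply] at h1
  rw [← h1]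
  exact Finset.sum_congr rfl fun i _ => by rw [map_smul]; rfl

end

end Pool.Agent.Helper43.QH
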