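import Pool.Agent.Helper43.QH.MatOp

set_option autoImplicit false
set_option linter.unusedSectionVars false

/-!
# QH-04: characters of `Hom` from a free module
-/

open Polynomial TensorProduct

namespace Pool.Agent.Helper43.QH

section

variable {k R : Type} [Field k] [CommRing R] [Algebra k R] {D : Derivation k R R}

/-- The operator `v ↦ (δ v_j - ∑ i, a j i • v_i)_j` on `V^β`, with coefficients in the ring. -/
def rmatOp {V : Type} [AddCommGroup V] [Module k V] [Module R V] [IsScalarTower k R V]
    (δ : V →ₗ[k] V) {β : ℕ} (a : Fin β → Fin β → R) : (Fin β → V) →ₗ[k] (Fin β → V) where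
  toFun v := fun j => δ (v j) - ∑ i, a j i • v i
  map_add' v w := by
    ext j
    simp only [Pi.add_apply, map_add, smul_add, Finset.sum_add_distrib]
    abel
  map_smul' c v := by
    ext j
    simp only [Pi.smul_apply, map_smul, RingHom.id_apply, smul_sub, Finset.smul_sum]
    congr 1
    exact Finset.sum_congr rfl fun i _ => smul_comm _ _ _

variable [IsLocalRing R] (K : Type) [Field K] [Algebra k K] [IsAlgClosed K]

private theorem hf_smul (ρ : R →ₐ[k] k) {V : Type} [AddCommGroup V] [Module k V] [Module R V]
    [IsScalarTower k R V] (r : R)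
    (v : V ⧸ (IsLocalRing.maximalIdeal R • ⊤ : Submodule R V)) : r • v = ρ r • v := by
  obtain ⟨v, rfl⟩ := Submodule.Quotient.mk_surjective _ v
  rw [← Submodule.Quotient.mk_smul, ← Submodule.Quotient.mk_smul, Submodule.Quotient.eq]
  have h1 : r • v - ρ r • v = (r - algebraMap k R (ρ r)) • v := by
    rw [sub_smul, algebraMap_smul]
  rw [h1]
  exact Submodule.smul_mem_smul (sub_mem_max ρ r) trivial

private theorem hf_aux (ρ : R →ₐ[k] k)
    (hD : ∀ a ∈ IsLocalRing.maximalIdeal R, D a ∈ IsLocalRing.maximalIdeal R) {β : ℕ}
    (a : Fin β → Fin β → R) (n : ℕ) :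
    ∀ (V : Type) [AddCommGroup V] [Module k V] [Module R V] [IsScalarTower k R V]
      [FiniteDimensional k V] (δ : V →ₗ[k] V), Leib D δ → Module.finrank k V ≤ n →
      ch K (rmatOp δ a) =
        inv K (chp K (Matrix.of fun i j => ρ (a j i) : Matrix (Fin β) (Fin β) k).charpoly) *
          ch K δ := by
  induction n with
  | zero =>
    intro V _ _ _ _ _ δ hδ hn
    have h1 : Subsingleton V := Module.finrank_zero_iff.1 (Nat.le_zero.1 hn)
    rw [ch_of_subsingleton, ch_of_subsingleton, mul_zero]
  | succ n ih =>
    intro V _ _ _ _ _ δ hδ hn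
    rcases subsingleton_or_nontrivial V with h1 | h1
    · rw [ch_of_subsingleton, ch_of_subsingleton, mul_zero]
    · let U : Submodule R V := IsLocalRing.maximalIdeal R • ⊤
      have hU : ∀ v ∈ U, δ v ∈ U := stable_smul_top hD hδ
      have hRV : Module.Finite R V := Module.Finite.of_restrictScalars_finite k R V
      have hne : U ≠ ⊤ := by
        intro h2
        have h3 : (⊤ : Submodule R V) = ⊥ := by
          refine Submodule.eq_bot_of_le_smul_of_le_jacobson_bot (IsLocalRing.maximalIdeal R) _
            hRV.fg_top ?_ ?_
          · exact h2.ge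
          · rw [IsLocalRing.jacobson_eq_maximalIdeal _ bot_ne_top]
        exact bot_ne_top h3.symm
      have hfU : FiniteDimensional k U :=
        Module.Finite.of_injective (U.subtype.restrictScalars k) U.subtype_injective
      have hlt : Module.finrank k U < Module.finrank k V := by
        have h2 : U.restrictScalars k < ⊤ := by
          rw [lt_top_iff_ne_top]
          intro h3
          apply hne
          rw [← Submodule.restrictScalars_top k R V] at h3
          exact Submodule.restrictScalars_injective k R V h3
        exact Submodule.finrank_lt h2.ne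
      have hfQ : FiniteDimensional k (V ⧸ U) := finite_quot_max ρ
      have e1 := ch_exact K (fU := rmatOp (sOp U δ hU) a) (fV := rmatOp δ a)
        (fW := rmatOp (qOp U δ hU) a)
        ((U.subtype.restrictScalars k).compLeft (Fin β))
        ((U.mkQ.restrictScalars k).compLeft (Fin β)) ?_ ?_ ?_ ?_ ?_
      · have e2 := ch_exact K (fU := sOp U δ hU) (fV := δ) (fW := qOp U δ hU)
          (U.subtype.restrictScalars k) (U.mkQ.restrictScalars k) U.subtype_injective
          (Submodule.mkQ_surjective U) ?_ (fun u => rfl) (fun v => rfl)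
        · have e3 : rmatOp (qOp U δ hU) a =
              matOp (qOp U δ hU) (Matrix.of fun i j => ρ (a j i)) := by
            apply LinearMap.ext
            intro v
            funext j
            change (qOp U δ hU) (v j) - ∑ i, a j i • v i =
              (qOp U δ hU) (v j) - ∑ i, (Matrix.of fun i j => ρ (a j i)) i j • v i
            congr 1
            exact Finset.sum_congr rfl fun i _ => hf_smul ρ (a j i) (v i)
          rw [e1, e2, ih U (sOp U δ hU) (leib_sOp hδ) (by omega), e3, ch_matOp, mul_add]
        · intro v
          change U.mkQ v = 0 ↔ v ∈ Set.range U.subtype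
          rw [Submodule.mkQ_apply, Submodule.Quotient.mk_eq_zero]
          exact ⟨fun h => ⟨⟨v, h⟩, rfl⟩, by rintro ⟨u, rfl⟩; exact u.2⟩
      · intro u v huv
        funext j
        apply Subtype.ext
        exact congrFun huv j
      · intro w
        choose v hv using fun j => Submodule.mkQ_surjective U (w j)
        exact ⟨v, funext hv⟩
      · intro v
        constructor
        · intro h
          have h2 : ∀ j, v j ∈ U := by
            intro j
            have h3 := congrFun h j
            exact (Submodule.Quotient.mk_eq_zero U).1 h3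
          exact ⟨fun j => ⟨v j, h2 j⟩, rfl⟩
        · rintro ⟨u, rfl⟩
          funext j
          exact (Submodule.Quotient.mk_eq_zero U).2 (u j).2
      · intro u
        funext j
        change ((((sOp U δ hU) (u j) - ∑ i, a j i • u i : U)) : V) =
          δ (u j : V) - ∑ i, a j i • (u i : V)
        rw [Submodule.coe_sub, Submodule.coe_sum]
        rfl
      · intro v
        funext j
        change U.mkQ (δ (v j) - ∑ i, a j i • v i) =
          qOp U δ hU (U.mkQ (v j)) - ∑ i, a j i • U.mkQ (v i)
        rw [map_sub, map_sum]
        rfl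

/-- Proof: induction on the `k`-dimension of `V`. Let `m` be the maximal ideal, `U = m V` (stable
under `δ` by `stable_smul_top`, smaller than `V` if `V` is nontrivial by Nakayama: `V` is finitely
generated over `R`). The exact sequence `U^β → V^β → (V/U)^β` is compatible with the operators
`rmatOp`; use `ch_exact` and the induction hypothesis for `U`. On `V/U` the ring acts through
`ρ` (`sub_mem_max`), so `rmatOp` is `matOp` of the matrix `ρ (a j i)`: `ch_matOp`. -/
theorem ch_rmatOp (ρ : R →ₐ[k] k)
    (hD : ∀ a ∈ IsLocalRing.maximalIdeal R, D a ∈ IsLocalRing.maximalIdeal R)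
    {V : Type} [AddCommGroup V] [Module k V] [Module R V] [IsScalarTower k R V]
    [FiniteDimensional k V] {δ : V →ₗ[k] V} (hδ : Leib D δ) {β : ℕ} (a : Fin β → Fin β → R) :
    ch K (rmatOp δ a) =
      inv K (chp K (Matrix.of fun i j => ρ (a j i) : Matrix (Fin β) (Fin β) k).charpoly) *
        ch K δ := by
  exact hf_aux K ρ hD a _ V δ hδ le_rfl

/-- Proof: `f ↦ (f e_j)_j` is an isomorphism from `Hom_R(R^β, V)` onto `V^β` which carries `homOp`
to `rmatOp` of `a j i = (δF e_j) i`; use `ch_conj`. -/
theorem ch_homFree (ρ : R →ₐ[k] k)
    (hD : ∀ a ∈ IsLocalRing.maximalIdeal R, D a ∈ IsLocalRing.maximalIdeal R)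
    {V : Type} [AddCommGroup V] [Module k V] [Module R V] [IsScalarTower k R V]
    [FiniteDimensional k V] {δ : V →ₗ[k] V} (hδ : Leib D δ) {β : ℕ}
    {δF : (Fin β → R) →ₗ[k] (Fin β → R)} (hF : Leib D δF)
    [FiniteDimensional k ((Fin β → R) →ₗ[R] V)] :
    ch K (homOp hF hδ) =
      inv K (chp K (Matrix.of fun i j => ρ (δF (Pi.single j 1) i) :
        Matrix (Fin β) (Fin β) k).charpoly) * ch K δ := by
  let e0 : ((Fin β → R) →ₗ[R] V) →ₗ[k] (Fin β → V) :=
    { toFun := fun f j => f (Pi.single j 1)
      map_add' := fun f g => rfl
      map_smul' := fun c f => rfl }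
  have hexp : ∀ (f : (Fin β → R) →ₗ[R] V) (x : Fin β → R),
      f x = ∑ i, x i • f (Pi.single i 1) := by
    intro f x
    have h1 : x = ∑ i, x i • (Pi.single i (1 : R) : Fin β → R) := by
      funext j
      rw [Finset.sum_apply, Finset.sum_eq_single j]
      · simp
      · intro i _ hi
        rw [Pi.smul_apply, Pi.single_eq_of_ne (Ne.symm hi), smul_zero]
      · intro h
        exact absurd (Finset.mem_univ j) h
    conv_lhs => rw [h1]
    rw [map_sum]
    exact Finset.sum_congr rfl fun i _ => map_smul f _ _
  have hbij : Function.Bijective e0 := by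
    constructor
    · intro f g h
      apply LinearMap.ext
      intro x
      rw [hexp f x, hexp g x]
      exact Finset.sum_congr rfl fun i _ => by
        rw [show f (Pi.single i 1) = g (Pi.single i 1) from congrFun h i]
    · intro v
      refine ⟨Fintype.linearCombination R v, ?_⟩
      funext j
      change Fintype.linearCombination R v (Pi.single j 1) = v j
      rw [Fintype.linearCombination_apply_single, one_smul]
  rw [← ch_rmatOp K ρ hD hδ (fun j i => δF (Pi.single j 1) i)]
  refine ch_conj K (LinearEquiv.ofBijective e0 hbij) ?_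
  intro f
  funext j
  change δ (f (Pi.single j 1)) - f (δF (Pi.single j 1)) =
    δ (f (Pi.single j 1)) - ∑ i, δF (Pi.single j 1) i • f (Pi.single i 1)
  rw [hexp f (δF (Pi.single j 1))]

end

end Pool.Agent.Helper43.QH
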