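import Pool.Agent.Helper43.QH.ChDual

set_option autoImplicit false
set_option linter.unusedSectionVars false

/-!
# QH-03: the product formula for characters
-/

open Polynomial TensorProduct

namespace Pool.Agent.Helper43.QH

section

variable {k : Type} [Field k]

/-- The operator `v ↦ (δ v_j - ∑ i, B i j • v_i)_j` on `V^β`. -/
def matOp {V : Type} [AddCommGroup V] [Module k V] (δ : V →ₗ[k] V) {β : ℕ}
    (B : Matrix (Fin β) (Fin β) k) : (Fin β → V) →ₗ[k] (Fin β → V) where
  toFun v := fun j => δ (v j) - ∑ i, B i j • v i
  map_add' v w := by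
    ext j
    simp only [Pi.add_apply, map_add, smul_add, Finset.sum_add_distrib]
    abel
  map_smul' a v := by
    ext j
    simp only [Pi.smul_apply, map_smul, RingHom.id_apply, smul_sub, Finset.smul_sum]
    congr 1
    exact Finset.sum_congr rfl fun i _ => smul_comm _ _ _

@[simp]
theorem matOp_apply {V : Type} [AddCommGroup V] [Module k V] (δ : V →ₗ[k] V) {β : ℕ}
    (B : Matrix (Fin β) (Fin β) k) (v : Fin β → V) (j : Fin β) :
    matOp δ B v j = δ (v j) - ∑ i, B i j • v i := rfl

section closed

variable {L : Type} [Field L] [IsAlgClosed L]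

theorem ch_smul_id (μ : L) :
    ch L (μ • (LinearMap.id : L →ₗ[L] L)) = AddMonoidAlgebra.single μ (1 : ℤ) := by
  have h : μ • (LinearMap.id : L →ₗ[L] L) =
      Matrix.toLin (Module.Basis.singleton Unit L) (Module.Basis.singleton Unit L)
        (Matrix.diagonal fun _ => μ) := by
    apply LinearMap.ext_ring
    rw [← Module.Basis.singleton_apply Unit L (), Matrix.toLin_self]
    simp
  rw [ch, h, Matrix.charpoly_toLin, Matrix.charpoly_diagonal]
  simp only [Finset.univ_unique, Finset.prod_singleton]
  exact chp_algebraMap_single L μ

theorem ch_matOp_line (μ : L) {β : ℕ} (B : Matrix (Fin β) (Fin β) L) :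
    ch L (matOp (μ • (LinearMap.id : L →ₗ[L] L)) B) =
      AddMonoidAlgebra.single μ (1 : ℤ) * inv L (chp L B.charpoly) := by
  have h : matOp (μ • (LinearMap.id : L →ₗ[L] L)) B =
      μ • LinearMap.id - Matrix.toLin' B.transpose := by
    refine LinearMap.ext fun v => funext fun j => ?_
    simp [Matrix.mulVec, dotProduct]
  rw [h, ch_const_sub, ch, Matrix.charpoly_toLin', Matrix.charpoly_transpose]
  rfl

theorem ch_matOp_closed {β : ℕ} (B : Matrix (Fin β) (Fin β) L) (n : ℕ) :
    ∀ (V : Type) [AddCommGroup V] [Module L V] [FiniteDimensional L V] (δ : V →ₗ[L] V),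
      Module.finrank L V = n → ch L (matOp δ B) = inv L (chp L B.charpoly) * ch L δ := by
  induction n with
  | zero =>
    intro V _ _ _ δ hn
    have hV : Subsingleton V := Module.finrank_zero_iff.mp hn
    rw [ch_of_subsingleton, ch_of_subsingleton, mul_zero]
  | succ n ih =>
    intro V _ _ _ δ hn
    have hV : Nontrivial V := Module.nontrivial_of_finrank_pos (R := L) (by omega)
    obtain ⟨μ, hμ⟩ := Module.End.exists_eigenvalue δ
    obtain ⟨v₀, hv₀⟩ := hμ.exists_hasEigenvector
    have hv0 : v₀ ≠ 0 := hv₀.2
    have hδ : δ v₀ = μ • v₀ := hv₀.apply_eq_smul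
    let i : L →ₗ[L] V := LinearMap.toSpanSingleton L V v₀
    have hi : Function.Injective i := LinearMap.ker_eq_bot.mp (LinearMap.ker_toSpanSingleton L hv0)
    let N : Submodule L V := Submodule.span L {v₀}
    have hN : N ≤ N.comap δ := by
      rw [Submodule.span_le, Set.singleton_subset_iff]
      change δ v₀ ∈ N
      rw [hδ]
      exact N.smul_mem μ (Submodule.mem_span_singleton_self v₀)
    let p : V →ₗ[L] V ⧸ N := N.mkQ
    have hp : Function.Surjective p := N.mkQ_surjective
    have hex : Function.Exact i p := by
      rw [LinearMap.exact_iff, Submodule.ker_mkQ, LinearMap.range_toSpanSingleton]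
    let δW : (V ⧸ N) →ₗ[L] (V ⧸ N) := N.mapQ N δ hN
    let δU : L →ₗ[L] L := μ • LinearMap.id
    have h1 : ∀ u, i (δU u) = δ (i u) := by
      intro u
      simp only [i, δU, LinearMap.toSpanSingleton_apply, LinearMap.smul_apply, LinearMap.id_apply,
        map_smul, hδ, smul_smul, smul_eq_mul, mul_comm]
    have h2 : ∀ v, p (δ v) = δW (p v) := fun v => rfl
    have e1 : ch L δ = ch L δU + ch L δW := ch_exact L i p hi hp hex h1 h2
    have e2 : ch L (matOp δ B) = ch L (matOp δU B) + ch L (matOp δW B) := by
      refine ch_exact L (i.compLeft (Fin β)) (p.compLeft (Fin β)) ?_ ?_ ?_ ?_ ?_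
      · intro a b hab
        funext j
        exact hi (congrFun hab j)
      · intro b
        choose a ha using hp
        exact ⟨fun j => a (b j), funext fun j => ha (b j)⟩
      · intro b
        constructor
        · intro hb
          have hb' : ∀ j, ∃ a, i a = b j := fun j => (hex (b j)).mp (congrFun hb j)
          choose a ha using hb'
          exact ⟨a, funext ha⟩
        · rintro ⟨a, rfl⟩
          funext j
          exact (hex (i (a j))).mpr ⟨a j, rfl⟩
      · intro u
        funext j
        simp only [LinearMap.compLeft_apply, Function.comp_apply, matOp_apply, map_sub, map_sum,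
          map_smul, h1]
      · intro v
        funext j
        simp only [LinearMap.compLeft_apply, Function.comp_apply, matOp_apply, map_sub, map_sum,
          map_smul, h2]
    have hW : Module.finrank L (V ⧸ N) = n := by
      have h3 := N.finrank_quotient_add_finrank
      rw [finrank_span_singleton hv0] at h3
      omega
    rw [e2, e1, ih (V ⧸ N) δW hW, ch_matOp_line, ch_smul_id, mul_add, mul_comm]

end closed

section base

variable (K : Type) [Field K] [Algebra k K]

theorem chp_map_algebraMap (P : k[X]) : chp K (P.map (algebraMap k K)) = chp K P := by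
  rw [chp, chp, aroots, aroots, Polynomial.map_map, Algebra.algebraMap_self, RingHom.id_comp]

theorem ch_baseChange {V : Type} [AddCommGroup V] [Module k V] [FiniteDimensional k V]
    (f : V →ₗ[k] V) : ch K (f.baseChange K) = ch K f := by
  rw [ch, ch, LinearMap.charpoly_baseChange, chp_map_algebraMap]

end base

variable (K : Type) [Field K] [Algebra k K] [IsAlgClosed K]

/-- The product formula. Proof. (1) First let `k = K` be algebraically closed (state and prove the
auxiliary lemma for a field `L` that is algebraically closed, with characters in `L` itself).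
Induction on `finrank V`. If `V` is nontrivial, `δ` has an eigenvector `v₀` with eigenvalue `μ`;
let `U` be the line spanned by it. There is an exact sequence `U^β → V^β → (V/U)^β` compatible with
the operators `matOp`, so `ch_exact` reduces to `V/U` and to the line `U`, where
`matOp = μ - Bᵀ` on `L^β`, whose character is `single μ 1 * inv (chp B.charpoly)` by
`ch_const_sub` and `Matrix.charpoly_transpose`. (2) In general use `LinearMap.charpoly_baseChange`:
under `K ⊗ V^β ≃ (K ⊗ V)^β` the base change of `matOp δ B` is `matOp (δ.baseChange K) (B.map _)`.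
Alternatively avoid (2): prove it by matrices, `matOp δ B` has in suitable bases the matrix
`δ ⊗ 1 - 1 ⊗ Bᵀ` and triangularise over `K`. -/
theorem ch_matOp {V : Type} [AddCommGroup V] [Module k V] [FiniteDimensional k V]
    (δ : V →ₗ[k] V) {β : ℕ} (B : Matrix (Fin β) (Fin β) k) :
    ch K (matOp δ B) = inv K (chp K B.charpoly) * ch K δ := by
  rw [← ch_baseChange K δ, ← chp_map_algebraMap K B.charpoly, ← Matrix.charpoly_map,
    ← ch_matOp_closed (B.map (algebraMap k K)) _ (K ⊗[k] V) (δ.baseChange K) rfl,
    ← ch_baseChange K (matOp δ B)]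
  refine ch_conj K (TensorProduct.piRight k K K fun _ : Fin β => V) ?_
  intro x
  induction x using TensorProduct.induction_on with
  | zero => simp only [map_zero]
  | add x y hx hy => simp only [map_add, hx, hy]
  | tmul a v =>
    funext j
    simp only [LinearMap.baseChange_tmul, TensorProduct.piRight_apply,
      TensorProduct.piRightHom_tmul, matOp_apply, Matrix.map_apply, TensorProduct.tmul_sub,
      TensorProduct.tmul_sum]
    congr 1
    refine Finset.sum_congr rfl fun i _ => ?_
    rw [TensorProduct.tmul_smul, algebraMap_smul]

end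

end Pool.Agent.Helper43.QH
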