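import Pool.Agent.Helper43.QH.Fin

set_option autoImplicit false
set_option linter.unusedSectionVars false

/-!
# QH-12: operators on tensor products, the evaluation maps
-/

open TensorProduct

namespace Pool.Agent.Helper43.QH

section

variable {k R : Type} [Field k] [CommRing R] [Algebra k R] {D : Derivation k R R}
variable {V Y : Type} [AddCommGroup V] [Module k V] [Module R V] [IsScalarTower k R V]
  [AddCommGroup Y] [Module k Y] [Module R Y] [IsScalarTower k R Y]

/-- the additive map underlying the operator on the tensor product -/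
noncomputable def tAdd {δY : Y →ₗ[k] Y} {δV : V →ₗ[k] V} (hY : Leib D δY) (hV : Leib D δV) :
    (Y ⊗[R] V) →+ (Y ⊗[R] V) :=
  TensorProduct.liftAddHom
    { toFun := fun y =>
        { toFun := fun v => δY y ⊗ₜ[R] v + y ⊗ₜ[R] δV v
          map_zero' := by simp
          map_add' := fun a b => by simp only [map_add, tmul_add]; abel }
      map_zero' := by ext v; simp
      map_add' := fun a b => by
        ext v
        simp only [map_add, add_tmul, AddMonoidHom.coe_mk, ZeroHom.coe_mk, AddMonoidHom.add_apply]
        abel }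
    (by
      intro r y v
      simp only [AddMonoidHom.coe_mk, ZeroHom.coe_mk]
      rw [hY, hV, add_tmul, tmul_add, smul_tmul, smul_tmul, smul_tmul]
      abel)

/-- The operator `δY ⊗ 1 + 1 ⊗ δV` on the tensor product over `R`. -/
noncomputable def tOp {δY : Y →ₗ[k] Y} {δV : V →ₗ[k] V} (hY : Leib D δY) (hV : Leib D δV) :
    (Y ⊗[R] V) →ₗ[k] (Y ⊗[R] V) where
  toFun := tAdd hY hV
  map_add' := map_add _
  map_smul' := by
    intro a z
    induction z using TensorProduct.induction_on with
    | zero => simp
    | tmul y v =>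
      change tAdd hY hV (a • (y ⊗ₜ[R] v)) = a • tAdd hY hV (y ⊗ₜ[R] v)
      rw [TensorProduct.smul_tmul']
      simp only [tAdd, TensorProduct.liftAddHom_tmul, AddMonoidHom.coe_mk, ZeroHom.coe_mk, map_smul,
        smul_add, TensorProduct.smul_tmul']
    | add x y hx hy => rw [smul_add, map_add, map_add, hx, hy, smul_add]

@[simp]
theorem tOp_tmul {δY : Y →ₗ[k] Y} {δV : V →ₗ[k] V} (hY : Leib D δY) (hV : Leib D δV) (y : Y)
    (v : V) : tOp hY hV (y ⊗ₜ[R] v) = δY y ⊗ₜ[R] v + y ⊗ₜ[R] δV v := rfl

theorem leib_tOp {δY : Y →ₗ[k] Y} {δV : V →ₗ[k] V} (hY : Leib D δY) (hV : Leib D δV) :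
    Leib D (tOp hY hV) := by
  intro r z
  induction z using TensorProduct.induction_on with
  | zero => simp
  | tmul y v =>
    rw [TensorProduct.smul_tmul', tOp_tmul, tOp_tmul, hY, add_tmul, smul_add,
      TensorProduct.smul_tmul', TensorProduct.smul_tmul', TensorProduct.smul_tmul']
    abel
  | add x y hx hy => rw [smul_add, map_add, hx, hy, smul_add, map_add, smul_add]; abel

end

section

variable (R M : Type) [CommRing R] [AddCommGroup M] [Module R M]

/-- A copy of the dual module, with its own instances. -/
def Dl : Type := M →ₗ[R] R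

instance : AddCommGroup (Dl R M) := inferInstanceAs (AddCommGroup (M →ₗ[R] R))

instance : Module R (Dl R M) := inferInstanceAs (Module R (M →ₗ[R] R))

instance {k : Type} [Field k] [Algebra k R] : Module k (Dl R M) :=
  inferInstanceAs (Module k (M →ₗ[R] R))

instance {k : Type} [Field k] [Algebra k R] : IsScalarTower k R (Dl R M) :=
  inferInstanceAs (IsScalarTower k R (M →ₗ[R] R))

instance [IsNoetherianRing R] [Module.Finite R M] : Module.Finite R (Dl R M) :=
  inferInstanceAs (Module.Finite R (M →ₗ[R] R))

/-- The module `M^* ⊗ M`. -/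
abbrev XX : Type := Dl R M ⊗[R] M

variable {R M}

/-- the pure tensors -/
noncomputable def tm (f : M →ₗ[R] R) (m : M) : XX R M := TensorProduct.tmul R (M := Dl R M) f m

theorem XX_induction {P : XX R M → Prop} (z : XX R M) (h0 : P 0) (h1 : ∀ f m, P (tm f m))
    (h2 : ∀ x y, P x → P y → P (x + y)) : P z :=
  TensorProduct.induction_on z h0 h1 h2

/-- an element of the copy of the dual as a linear map -/
def toL (f : Dl R M) : M →ₗ[R] R := f

theorem tm_add (f : M →ₗ[R] R) (m n : M) : tm f (m + n) = tm f m + tm f n :=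
  TensorProduct.tmul_add _ _ _

theorem add_tm (f g : M →ₗ[R] R) (m : M) : tm (f + g) m = tm f m + tm g m :=
  TensorProduct.add_tmul (M := Dl R M) f g m

theorem smul_tm (r : R) (f : M →ₗ[R] R) (m : M) : tm (r • f) m = r • tm f m :=
  (TensorProduct.smul_tmul' (M := Dl R M) r f m).symm

theorem tm_smul (r : R) (f : M →ₗ[R] R) (m : M) : tm f (r • m) = r • tm f m :=
  TensorProduct.tmul_smul (M := Dl R M) r f m

/-- every element is a finite sum of pure tensors -/
theorem exists_sum_tm (z : XX R M) :
    ∃ (n : ℕ) (f : Fin n → (M →ₗ[R] R)) (m : Fin n → M), z = ∑ i, tm (f i) (m i) := by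
  refine XX_induction (P := fun z => ∃ (n : ℕ) (f : Fin n → (M →ₗ[R] R)) (m : Fin n → M),
    z = ∑ i, tm (f i) (m i)) z ⟨0, fun i => 0, fun i => 0, by simp⟩
    (fun f m => ⟨1, fun _ => f, fun _ => m, by simp⟩) ?_
  rintro _ _ ⟨n, f, m, rfl⟩ ⟨n', f', m', rfl⟩
  refine ⟨n + n', Fin.append f f', Fin.append m m', ?_⟩
  rw [Fin.sum_univ_add]
  simp

variable (R M)

/-- The evaluation map `M^* ⊗ M → End M`. -/
noncomputable def phi : XX R M →ₗ[R] (M →ₗ[R] M) :=
  TensorProduct.lift
    { toFun := fun (f : Dl R M) =>
        { toFun := fun m => LinearMap.smulRight (toL f) m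
          map_add' := fun a b => by
            ext e
            exact smul_add _ _ _
          map_smul' := fun r a => by
            ext e
            exact smul_comm _ _ _ }
      map_add' := fun a b => by
        ext m e
        exact add_smul _ _ _
      map_smul' := fun r a => by
        ext m e
        exact mul_smul _ _ _ }

variable {R M} in
@[simp]
theorem phi_tm (f : M →ₗ[R] R) (m x : M) : phi R M (tm f m) x = f x • m := rfl

/-- The pairing `M^* ⊗ M → Hom (End M, R)`, `f ⊗ m ↦ (e ↦ f (e m))`. -/
noncomputable def psi : XX R M →ₗ[R] ((M →ₗ[R] M) →ₗ[R] R) :=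
  TensorProduct.lift
    { toFun := fun (f : Dl R M) =>
        { toFun := fun m =>
            { toFun := fun e => toL f (e m)
              map_add' := fun a b => (toL f).map_add _ _
              map_smul' := fun r a => (toL f).map_smul _ _ }
          map_add' := fun a b => by
            ext e
            change toL f (e (a + b)) = toL f (e a) + toL f (e b)
            rw [map_add, map_add]
          map_smul' := fun r a => by
            ext e
            change toL f (e (r • a)) = r • toL f (e a)
            rw [map_smul, map_smul] }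
      map_add' := fun a b => by ext m e; rfl
      map_smul' := fun r a => by ext m e; rfl }

variable {R M}

@[simp]
theorem psi_tm (f : M →ₗ[R] R) (m : M) (e : M →ₗ[R] M) : psi R M (tm f m) e = f (e m) := rfl

end

section

variable {k R : Type} [Field k] [CommRing R] [Algebra k R] {D : Derivation k R R}
variable {M : Type} [AddCommGroup M] [Module k M] [Module R M] [IsScalarTower k R M]

/-- the operator on the dual -/
def dOp {δ : M →ₗ[k] M} (hδ : Leib D δ) : Dl R M →ₗ[k] Dl R M :=
  homOp hδ leib_D

theorem leib_dOp {δ : M →ₗ[k] M} (hδ : Leib D δ) : Leib D (dOp hδ) :=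
  leib_homOp hδ leib_D

/-- the operator on `M^* ⊗ M` induced by an operator on `M` -/
noncomputable def xOp {δ : M →ₗ[k] M} (hδ : Leib D δ) : XX R M →ₗ[k] XX R M :=
  tOp (leib_dOp hδ) hδ

theorem leib_xOp {δ : M →ₗ[k] M} (hδ : Leib D δ) : Leib D (xOp hδ) := leib_tOp _ _

@[simp]
theorem xOp_tm {δ : M →ₗ[k] M} (hδ : Leib D δ) (f : M →ₗ[R] R) (m : M) :
    xOp hδ (tm f m) = tm (homOp hδ leib_D f) m + tm f (δ m) := rfl

/-- The evaluation map commutes with the operators. -/
theorem phi_xOp {δ : M →ₗ[k] M} (hδ : Leib D δ) (z : XX R M) :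
    phi R M (xOp hδ z) = homOp hδ hδ (phi R M z) := by
  refine XX_induction (P := fun z => phi R M (xOp hδ z) = homOp hδ hδ (phi R M z)) z (by simp)
    (fun f m => ?_) (fun x y hx hy => ?_)
  · ext x
    rw [xOp_tm, map_add, LinearMap.add_apply, phi_tm, phi_tm, homOp_apply, homOp_apply,
      phi_tm, phi_tm, hδ, sub_smul]
    change (D (f x)) • m - f (δ x) • m + f x • δ m = D (f x) • m + f x • δ m - f (δ x) • m
    abel
  · rw [map_add, map_add, hx, hy, map_add, map_add]

/-- The pairing is compatible with the operators. -/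
theorem psi_xOp {δ : M →ₗ[k] M} (hδ : Leib D δ) (z : XX R M) (e : M →ₗ[R] M) :
    D (psi R M z e) = psi R M (xOp hδ z) e + psi R M z (homOp hδ hδ e) := by
  refine XX_induction (P := fun z => D (psi R M z e) =
    psi R M (xOp hδ z) e + psi R M z (homOp hδ hδ e)) z (by simp)
    (fun f m => ?_) (fun x y hx hy => ?_)
  · rw [xOp_tm, map_add, LinearMap.add_apply, psi_tm, psi_tm, psi_tm, psi_tm,
      homOp_apply, homOp_apply, map_sub]
    change D (f (e m)) = D (f (e m)) - f (δ (e m)) + f (e (δ m)) + (f (δ (e m)) - f (e (δ m)))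
    abel
  · simp only [map_add, LinearMap.add_apply, hx, hy]
    abel

end

end Pool.Agent.Helper43.QH
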